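import Pool.Agent.BMF.Contr

/-!
# BMF Schur: the Schur test for the truncated matrix

Let `G` be positive semidefinite with `2^m qf G v ≤ 4 ∑ v^2` for all `v` supported on level `m`.
`schur_psd`: `NS i k = kap S l i k * G i k = (1/2) ∑ n ∈ S, 2^n * cut l n G i k`, and `cut l n G` is PSD (compression of `G`).
`schur_le`: let `v_m` be the level parts of `v` and `a m = √(∑ v_m^2)`. `kap S l i k ≤ 2 ^ min (l i) (l k)` depends on the levels only,
so `qf NS v = ∑ m m', kap(m,m') ⟨v_m, G v_m'⟩ ≤ ∑ m m', 2^(min m m') √(qf G v_m) √(qf G v_m')` (Cauchy-Schwarz for the PSD form `G`)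
`≤ ∑ m m', 2^(min m m') * 4 * 2^(-(m+m')/2) a m a m' = 4 ∑ m m', 2^(-|m-m'|/2) a m a m' ≤ 4 (1 + 2 ∑_{j ≥ 1} 2^(-j/2)) ∑ a^2 ≤ 24 ∑ v^2`
since `1 + 2 / (√2 - 1) < 6` (use `a m a m' ≤ (a m ^2 + a m' ^2)/2` and the geometric series).
`schur_ctr`: consequently `(1/24) • NS` is a contraction.
-/

namespace Pool.Agent.BMF

open Finset Matrix

variable {α : Type} [Fintype α] [DecidableEq α]

/-- the weight of a pair of levels -/
private noncomputable def kp (S : Finset ℕ) (m m' : ℕ) : ℝ :=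
  (1 / 2) * ∑ n ∈ S.filter (fun n => n ≤ m ∧ n ≤ m'), (2 : ℝ) ^ n

private lemma geo2 (n : ℕ) : ∑ j ∈ range n, (2 : ℝ) ^ j = 2 ^ n - 1 := by
  have h := geom_sum_mul (2 : ℝ) n
  linarith

private lemma kp_le (S : Finset ℕ) (m m' : ℕ) : kp S m m' ≤ ((2 : ℝ) ^ (min m m' + 1) - 1) / 2 := by
  have h1 : ∑ n ∈ S.filter (fun n => n ≤ m ∧ n ≤ m'), (2 : ℝ) ^ n ≤
      ∑ n ∈ range (min m m' + 1), (2 : ℝ) ^ n := by
    apply Finset.sum_le_sum_of_subset_of_nonneg
    · intro n hn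
      rw [Finset.mem_filter] at hn
      rw [Finset.mem_range]
      omega
    · intro n _ _
      positivity
  rw [geo2] at h1
  unfold kp
  linarith

private lemma kp_nonneg (S : Finset ℕ) (m m' : ℕ) : 0 ≤ kp S m m' := by
  unfold kp
  have : 0 ≤ ∑ n ∈ S.filter (fun n => n ≤ m ∧ n ≤ m'), (2 : ℝ) ^ n :=
    Finset.sum_nonneg fun n _ => by positivity
  linarith

lemma kap_le (S : Finset ℕ) (l : α → ℕ) (i k : α) : kap S l i k ≤ kapf l i k :=
  kp_le S (l i) (l k)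

lemma kap_nonneg (S : Finset ℕ) (l : α → ℕ) (i k : α) : 0 ≤ kap S l i k :=
  kp_nonneg S (l i) (l k)

private lemma kpf_le (m m' : ℕ) : ((2 : ℝ) ^ (min m m' + 1) - 1) / 2 ≤ 2 ^ min m m' := by
  rw [pow_succ]
  linarith

lemma kapf_le (l : α → ℕ) (i k : α) : kapf l i k ≤ 2 ^ l i := by
  refine (kpf_le (l i) (l k)).trans ?_
  exact pow_le_pow_right₀ (by norm_num) (min_le_left _ _)

lemma kap_full {l : α → ℕ} {i k : α} {N : ℕ} (h : l i < N ∨ l k < N) :
    kap (range N) l i k = kapf l i k := by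
  have h1 : (range N).filter (fun n => n ≤ l i ∧ n ≤ l k) = range (min (l i) (l k) + 1) := by
    ext n
    rw [Finset.mem_filter, Finset.mem_range, Finset.mem_range]
    omega
  unfold kap kapf
  rw [h1, geo2]
  ring

/-- bilinear form of a matrix -/
private def Bl (G : Matrix α α ℝ) (u w : α → ℝ) : ℝ := ∑ i, ∑ k, u i * G i k * w k

private lemma Bl_self (G : Matrix α α ℝ) (v : α → ℝ) : Bl G v v = qf G v := rfl

private lemma Bl_symm {G : Matrix α α ℝ} (hs : Gᵀ = G) (u w : α → ℝ) : Bl G u w = Bl G w u := by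
  unfold Bl
  rw [Finset.sum_comm]
  refine Finset.sum_congr rfl fun i _ => Finset.sum_congr rfl fun k _ => ?_
  have h : G k i = G i k := congrFun (congrFun hs i) k
  rw [h]
  ring

private lemma qf_lin {G : Matrix α α ℝ} (hs : Gᵀ = G) (u w : α → ℝ) (t : ℝ) :
    qf G (fun i => t * u i + w i) = t ^ 2 * qf G u + 2 * t * Bl G u w + qf G w := by
  have h1 : qf G (fun i => t * u i + w i) =
      t ^ 2 * Bl G u u + t * Bl G u w + t * Bl G w u + Bl G w w := by
    unfold qf Bl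
    simp only [Finset.mul_sum, ← Finset.sum_add_distrib]
    refine Finset.sum_congr rfl fun i _ => Finset.sum_congr rfl fun k _ => ?_
    ring
  rw [h1, Bl_symm hs w u, Bl_self, Bl_self]
  ring

private lemma Bl_le {G : Matrix α α ℝ} (hG : G.PosSemidef) (u w : α → ℝ) (t : ℝ) :
    2 * t * |Bl G u w| ≤ t ^ 2 * qf G u + qf G w := by
  have hs := ((psd_iff G).1 hG).1
  have h1 := qf_nonneg hG (fun i => t * u i + w i)
  have h2 := qf_nonneg hG (fun i => (-t) * u i + w i)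
  rw [qf_lin hs] at h1 h2
  rcases abs_cases (Bl G u w) with ⟨h3, -⟩ | ⟨h3, -⟩ <;> rw [h3] <;> nlinarith

/-- level part -/
private def lp (l : α → ℕ) (v : α → ℝ) (m : ℕ) : α → ℝ := fun i => if l i = m then v i else 0

/-- mass of the level part -/
private def Am (l : α → ℕ) (v : α → ℝ) (m : ℕ) : ℝ := ∑ i, lp l v m i ^ 2

private lemma Am_nonneg (l : α → ℕ) (v : α → ℝ) (m : ℕ) : 0 ≤ Am l v m :=
  Finset.sum_nonneg fun _ _ => sq_nonneg _

private lemma pair_le {G : Matrix α α ℝ} (hG : G.PosSemidef) (l : α → ℕ)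
    (h : ∀ (m : ℕ) (v : α → ℝ), (∀ i, l i ≠ m → v i = 0) → 2 ^ m * qf G v ≤ 4 * ∑ i, v i ^ 2)
    (v : α → ℝ) (m d : ℕ) : 2 ^ m * |Bl G (lp l v m) (lp l v (m + d))| ≤
      2 * (5 / 7) ^ d * (Am l v m + Am l v (m + d)) := by
  have h1 := h m (lp l v m) (fun i hi => if_neg hi)
  have h2 := h (m + d) (lp l v (m + d)) (fun i hi => if_neg hi)
  have h3 := Bl_le hG (lp l v m) (lp l v (m + d)) ((5 / 7) ^ d)
  have a1 := Am_nonneg l v m
  have a2 := Am_nonneg l v (m + d)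
  have hr : (0 : ℝ) < (5 / 7) ^ d := by positivity
  have h2m : (0 : ℝ) < 2 ^ m := by positivity
  have h2d : (0 : ℝ) < 2 ^ d := by positivity
  have hrd : 1 ≤ (2 : ℝ) ^ d * ((5 / 7) ^ d) ^ 2 := by
    have e1 : (2 : ℝ) ^ d * ((5 / 7) ^ d) ^ 2 = (50 / 49) ^ d := by
      rw [← pow_mul, mul_comm d 2, pow_mul, ← mul_pow]
      norm_num
    rw [e1]
    exact one_le_pow₀ (by norm_num)
  set r : ℝ := (5 / 7) ^ d with hrdef
  set X := |Bl G (lp l v m) (lp l v (m + d))| with hX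
  set q1 := qf G (lp l v m)
  set q2 := qf G (lp l v (m + d))
  change 2 ^ m * q1 ≤ 4 * Am l v m at h1
  change 2 ^ (m + d) * q2 ≤ 4 * Am l v (m + d) at h2
  set A1 := Am l v m
  set A2 := Am l v (m + d)
  rw [pow_add] at h2
  -- `2^m q2 ≤ 4 r^2 A2`
  have h4 : 2 ^ m * q2 ≤ 4 * r ^ 2 * A2 := by
    have h5 : 2 ^ d * (2 ^ m * q2) ≤ 2 ^ d * (4 * r ^ 2 * A2) := by
      calc 2 ^ d * (2 ^ m * q2) = 2 ^ m * 2 ^ d * q2 := by ring
        _ ≤ 4 * A2 * 1 := by linarith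
        _ ≤ 4 * A2 * (2 ^ d * r ^ 2) := mul_le_mul_of_nonneg_left hrd (by linarith)
        _ = 2 ^ d * (4 * r ^ 2 * A2) := by ring
    exact le_of_mul_le_mul_left h5 h2d
  have h6 : 2 * r * (2 ^ m * X) ≤ 2 * r * (2 * r * (A1 + A2)) := by
    calc 2 * r * (2 ^ m * X) = 2 ^ m * (2 * r * X) := by ring
      _ ≤ 2 ^ m * (r ^ 2 * q1 + q2) := mul_le_mul_of_nonneg_left h3 h2m.le
      _ = r ^ 2 * (2 ^ m * q1) + 2 ^ m * q2 := by ring
      _ ≤ r ^ 2 * (4 * A1) + 4 * r ^ 2 * A2 :=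
        add_le_add (mul_le_mul_of_nonneg_left h1 (by positivity)) h4
      _ = 2 * r * (2 * r * (A1 + A2)) := by ring
  exact le_of_mul_le_mul_left h6 (by positivity)

private lemma term_le {G : Matrix α α ℝ} (hG : G.PosSemidef) (l : α → ℕ)
    (h : ∀ (m : ℕ) (v : α → ℝ), (∀ i, l i ≠ m → v i = 0) → 2 ^ m * qf G v ≤ 4 * ∑ i, v i ^ 2)
    (S : Finset ℕ) (v : α → ℝ) (m m' : ℕ) : kp S m m' * Bl G (lp l v m) (lp l v m') ≤
      2 * (5 / 7) ^ ((m - m') + (m' - m)) * (Am l v m + Am l v m') := by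
  have hs := ((psd_iff G).1 hG).1
  have h1 : kp S m m' * Bl G (lp l v m) (lp l v m') ≤
      2 ^ min m m' * |Bl G (lp l v m) (lp l v m')| := by
    refine (mul_le_mul_of_nonneg_left (le_abs_self _) (kp_nonneg S m m')).trans ?_
    exact mul_le_mul_of_nonneg_right ((kp_le S m m').trans (kpf_le m m')) (abs_nonneg _)
  refine h1.trans ?_
  rcases le_total m m' with hm | hm
  · obtain ⟨d, rfl⟩ := Nat.exists_eq_add_of_le hm
    have e1 : min m (m + d) = m := by omega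
    have e2 : (m - (m + d)) + ((m + d) - m) = d := by omega
    rw [e1, e2]
    exact pair_le hG l h v m d
  · obtain ⟨d, rfl⟩ := Nat.exists_eq_add_of_le hm
    have e1 : min (m' + d) m' = m' := by omega
    have e2 : ((m' + d) - m') + (m' - (m' + d)) = d := by omega
    rw [e1, e2, Bl_symm hs, add_comm (Am l v (m' + d))]
    exact pair_le hG l h v m' d

private lemma geo_le (n : ℕ) : ∑ j ∈ range n, (5 / 7 : ℝ) ^ j ≤ 7 / 2 := by
  have h := geom_sum_mul (5 / 7 : ℝ) n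
  have h1 : (0 : ℝ) ≤ (5 / 7) ^ n := by positivity
  nlinarith

private lemma dist_sum (m N : ℕ) : ∑ m' ∈ range N, (5 / 7 : ℝ) ^ ((m - m') + (m' - m)) ≤ 6 := by
  have h1 : ∑ m' ∈ range N, (5 / 7 : ℝ) ^ ((m - m') + (m' - m)) ≤
      ∑ m' ∈ range ((m + 1) + N), (5 / 7 : ℝ) ^ ((m - m') + (m' - m)) := by
    apply Finset.sum_le_sum_of_subset_of_nonneg
    · intro n hn
      rw [Finset.mem_range] at hn ⊢
      omega
    · intro n _ _
      positivity
  refine h1.trans ?_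
  rw [Finset.sum_range_add]
  have h2 : ∑ x ∈ range (m + 1), (5 / 7 : ℝ) ^ ((m - x) + (x - m)) =
      ∑ j ∈ range (m + 1), (5 / 7 : ℝ) ^ j := by
    rw [← Finset.sum_range_reflect]
    refine Finset.sum_congr rfl fun j hj => ?_
    rw [Finset.mem_range] at hj
    congr 1
    omega
  have h3 : ∑ x ∈ range N, (5 / 7 : ℝ) ^ ((m - (m + 1 + x)) + ((m + 1 + x) - m)) =
      (5 / 7) * ∑ j ∈ range N, (5 / 7 : ℝ) ^ j := by
    rw [Finset.mul_sum]
    refine Finset.sum_congr rfl fun j _ => ?_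
    rw [← pow_succ']
    congr 1
    omega
  rw [h2, h3]
  have h4 := geo_le (m + 1)
  have h5 := geo_le N
  linarith

private lemma qf_split {G : Matrix α α ℝ} (l : α → ℕ) (S : Finset ℕ) (v : α → ℝ) {N : ℕ}
    (hN : ∀ i, l i < N) : qf (fun i k => kap S l i k * G i k : Matrix α α ℝ) v =
      ∑ m ∈ range N, ∑ m' ∈ range N, kp S m m' * Bl G (lp l v m) (lp l v m') := by
  have hv : ∀ (i : α) (g : ℕ → ℝ), ∑ m ∈ range N, lp l v m i * g m = v i * g (l i) := by
    intro i g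
    have h1 : ∀ m ∈ range N, lp l v m i * g m = if l i = m then v i * g m else 0 := by
      intro m _
      unfold lp
      split_ifs <;> simp
    rw [Finset.sum_congr rfl h1, Finset.sum_ite_eq, if_pos (Finset.mem_range.2 (hN i))]
  unfold qf Bl
  simp only [Finset.mul_sum]
  have h2 : ∑ m ∈ range N, ∑ m' ∈ range N, ∑ i, ∑ k,
      kp S m m' * (lp l v m i * G i k * lp l v m' k) =
      ∑ i, ∑ k, ∑ m ∈ range N, lp l v m i * ∑ m' ∈ range N,
        lp l v m' k * (kp S m m' * G i k) := by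
    have e1 : ∀ m ∈ range N, ∑ m' ∈ range N, ∑ i, ∑ k,
        kp S m m' * (lp l v m i * G i k * lp l v m' k) =
        ∑ i, ∑ k, ∑ m' ∈ range N, kp S m m' * (lp l v m i * G i k * lp l v m' k) := by
      intro m _
      rw [Finset.sum_comm]
      refine Finset.sum_congr rfl fun i _ => ?_
      rw [Finset.sum_comm]
    rw [Finset.sum_congr rfl e1, Finset.sum_comm]
    refine Finset.sum_congr rfl fun i _ => ?_
    rw [Finset.sum_comm]
    refine Finset.sum_congr rfl fun k _ => ?_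
    refine Finset.sum_congr rfl fun m _ => ?_
    rw [Finset.mul_sum]
    refine Finset.sum_congr rfl fun m' _ => ?_
    ring
  rw [h2]
  refine Finset.sum_congr rfl fun i _ => Finset.sum_congr rfl fun k _ => ?_
  rw [hv i (fun m => ∑ m' ∈ range N, lp l v m' k * (kp S m m' * G i k)),
    hv k (fun m' => kp S (l i) m' * G i k)]
  show v i * (kp S (l i) (l k) * G i k) * v k = _
  ring

private lemma sum_Am (l : α → ℕ) (v : α → ℝ) {N : ℕ} (hN : ∀ i, l i < N) :
    ∑ m ∈ range N, Am l v m = ∑ i, v i ^ 2 := by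
  unfold Am
  rw [Finset.sum_comm]
  refine Finset.sum_congr rfl fun i _ => ?_
  have h1 : ∀ m ∈ range N, lp l v m i ^ 2 = if l i = m then v i ^ 2 else 0 := by
    intro m _
    unfold lp
    split_ifs <;> simp
  rw [Finset.sum_congr rfl h1, Finset.sum_ite_eq, if_pos (Finset.mem_range.2 (hN i))]

private lemma schur_le {G : Matrix α α ℝ} (hG : G.PosSemidef) (l : α → ℕ)
    (h : ∀ (m : ℕ) (v : α → ℝ), (∀ i, l i ≠ m → v i = 0) → 2 ^ m * qf G v ≤ 4 * ∑ i, v i ^ 2)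
    (S : Finset ℕ) (v : α → ℝ) :
    qf (fun i k => kap S l i k * G i k : Matrix α α ℝ) v ≤ 24 * ∑ i, v i ^ 2 := by
  obtain ⟨N, hN⟩ : ∃ N, ∀ i, l i < N := by
    refine ⟨(Finset.univ.sup l) + 1, fun i => ?_⟩
    exact Nat.lt_succ_of_le (Finset.le_sup (Finset.mem_univ i))
  rw [qf_split l S v hN, ← sum_Am l v hN]
  have h1 : ∑ m ∈ range N, ∑ m' ∈ range N, kp S m m' * Bl G (lp l v m) (lp l v m') ≤
      ∑ m ∈ range N, ∑ m' ∈ range N,
        2 * (5 / 7) ^ ((m - m') + (m' - m)) * (Am l v m + Am l v m') :=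
    Finset.sum_le_sum fun m _ => Finset.sum_le_sum fun m' _ => term_le hG l h S v m m'
  refine h1.trans ?_
  have h2 : ∑ m ∈ range N, ∑ m' ∈ range N,
      2 * (5 / 7 : ℝ) ^ ((m - m') + (m' - m)) * (Am l v m + Am l v m') =
      (∑ m ∈ range N, ∑ m' ∈ range N, 2 * (5 / 7 : ℝ) ^ ((m - m') + (m' - m)) * Am l v m) +
      ∑ m ∈ range N, ∑ m' ∈ range N, 2 * (5 / 7 : ℝ) ^ ((m - m') + (m' - m)) * Am l v m' := by
    simp only [mul_add, Finset.sum_add_distrib]
  have h3 : ∑ m ∈ range N, ∑ m' ∈ range N,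
      2 * (5 / 7 : ℝ) ^ ((m - m') + (m' - m)) * Am l v m' =
      ∑ m ∈ range N, ∑ m' ∈ range N, 2 * (5 / 7 : ℝ) ^ ((m - m') + (m' - m)) * Am l v m := by
    rw [Finset.sum_comm]
    refine Finset.sum_congr rfl fun m _ => Finset.sum_congr rfl fun m' _ => ?_
    rw [add_comm (m' - m)]
  rw [h2, h3, ← two_mul, Finset.mul_sum, Finset.mul_sum]
  refine Finset.sum_le_sum fun m _ => ?_
  have h4 : ∑ m' ∈ range N, 2 * (5 / 7 : ℝ) ^ ((m - m') + (m' - m)) * Am l v m =
      2 * Am l v m * ∑ m' ∈ range N, (5 / 7 : ℝ) ^ ((m - m') + (m' - m)) := by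
    rw [Finset.mul_sum]
    refine Finset.sum_congr rfl fun m' _ => ?_
    ring
  rw [h4]
  have h5 := mul_le_mul_of_nonneg_left (dist_sum m N) (Am_nonneg l v m)
  linarith

private lemma schur_nonneg {G : Matrix α α ℝ} (hG : G.PosSemidef) (l : α → ℕ)
    (S : Finset ℕ) (v : α → ℝ) :
    0 ≤ qf (fun i k => kap S l i k * G i k : Matrix α α ℝ) v := by
  have h1 : qf (fun i k => kap S l i k * G i k : Matrix α α ℝ) v =
      (1 / 2) * ∑ n ∈ S, (2 : ℝ) ^ n * qf G (fun i => if n ≤ l i then v i else 0) := by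
    unfold qf kap
    simp only [Finset.mul_sum]
    symm
    rw [Finset.sum_comm]
    refine Finset.sum_congr rfl fun i _ => ?_
    rw [Finset.sum_comm]
    refine Finset.sum_congr rfl fun k _ => ?_
    rw [Finset.sum_mul, Finset.mul_sum, Finset.sum_mul, Finset.sum_filter]
    refine Finset.sum_congr rfl fun n _ => ?_
    by_cases h1 : n ≤ l i
    · by_cases h2 : n ≤ l k
      · rw [if_pos h1, if_pos h2, if_pos ⟨h1, h2⟩]
        ring
      · rw [if_neg h2, if_neg (show ¬ (n ≤ l i ∧ n ≤ l k) from fun h => h2 h.2)]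
        ring
    · rw [if_neg h1, if_neg (show ¬ (n ≤ l i ∧ n ≤ l k) from fun h => h1 h.1)]
      ring
  rw [h1]
  have h2 : 0 ≤ ∑ n ∈ S, (2 : ℝ) ^ n * qf G (fun i => if n ≤ l i then v i else 0) :=
    Finset.sum_nonneg fun n _ => mul_nonneg (by positivity) (qf_nonneg hG _)
  linarith

theorem schur_ctr {G : Matrix α α ℝ} (hG : G.PosSemidef) (l : α → ℕ)
    (h : ∀ (m : ℕ) (v : α → ℝ), (∀ i, l i ≠ m → v i = 0) → 2 ^ m * qf G v ≤ 4 * ∑ i, v i ^ 2)
    (S : Finset ℕ) :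
    Ctr ((1 / 24 : ℝ) • (fun i k => kap S l i k * G i k : Matrix α α ℝ)) := by
  have hs := ((psd_iff G).1 hG).1
  obtain ⟨M, hM⟩ : ∃ M : Matrix α α ℝ, M = fun i k => kap S l i k * G i k := ⟨_, rfl⟩
  have hMs : Mᵀ = M := by
    ext i k
    rw [Matrix.transpose_apply, hM]
    have h1 : G k i = G i k := congrFun (congrFun hs i) k
    have h2 : kap S l k i = kap S l i k := by
      unfold kap
      simp only [and_comm]
    show kap S l k i * G k i = kap S l i k * G i k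
    rw [h1, h2]
  have hsym : ((1 / 24 : ℝ) • M)ᵀ = (1 / 24 : ℝ) • M := by
    rw [Matrix.transpose_smul, hMs]
  have key : Ctr ((1 / 24 : ℝ) • M) := by
    refine ⟨(psd_iff _).2 ⟨hsym, fun v => ?_⟩, (psd_iff _).2 ⟨?_, fun v => ?_⟩⟩
    · rw [qf_smul, hM]
      exact mul_nonneg (by norm_num) (schur_nonneg hG l S v)
    · rw [Matrix.transpose_sub, Matrix.transpose_one, hsym]
    · rw [qf_sub, qf_one, qf_smul, hM]
      have h1 := schur_le hG l h S v
      linarith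
  rw [hM] at key
  exact key

end Pool.Agent.BMF
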