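import Pool.Agent.BMF.Kb
import Pool.Agent.BMF.Schur

/-!
# BMF Ab: the weighted coherence of the truncated matrices

For `c ∈ T` write `Γ = Gam F c`, `l = lv F c`, `K = Kc F c`, `G = Gt F c = (1-K)Γ(1-K)`, `N i k = kapf l i k * G i k`.
`N` is `kap (range M) ∘ G` for `M` larger than all levels (`kap_full`), so `Ctr ((1/24) N)` by `schur_ctr` (with `IsTrunc.lvl`).
(a) `INC Γ N = ∑ i, Γ i i ∑ k ≠ i, kapf^2 G i k^2 ≤ ∑ i, ∑ k ≠ i, kapf G i k ^ 2` because `Γ i i kapf i k ≤ Γ i i 2^(l i) ≤ 1` (`kapf_le`, `lv_le`).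
    So `∑ c, INC Γ N ≤ AA F T`.
(b) `ip Γ N = ip G N = ∑ i k, kapf G i k ^ 2`: `(1-K) N = N` and `N (1-K) = N` since `K` is block diagonal (`IsTrunc.blk`), `kapf` only
    depends on the levels and `K G = 0 = G K`; so `ip Γ N = trace (Γ N) = trace (Γ (1-K) N (1-K)) = trace (G N)`.
(c) `ip Γ (off N) = ip Γ N - ∑ i, Γ i i N i i = ∑_{i ≠ k} kapf G^2 - ∑ i, kapf i i G i i (Γ i i - G i i)`, and
    `0 ≤ kapf i i * G i i ≤ 2^(l i) Γ i i ≤ 1`, `0 ≤ Γ i i - G i i` (`IsTrunc.diag`), `∑ i, (Γ i i - G i i) = trace Γ - trace (Γ (1-K)) = ip Γ K`.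
    So `∑ c, ip Γ (off N) ≥ AA F T - ∑ c, ip Γ K ≥ AA F T - 16 Hb` (`kb1`).
(d) `lemT_one` with `Q = (1/24) N`: `∑ c, ip Γ (off N) ≤ 24 (11 Hb + (1/6) (1/576) ∑ INC Γ N) ≤ 264 Hb + AA / 144`.
Hence `AA (1 - 1/144) ≤ 280 Hb` and `AA ≤ 282 Hb`.
`incN_le`: for every `S` also `INC Γ (kap S ∘ G) ≤ ∑ i k, kapf (off G i k)^2`.
-/

namespace Pool.Agent.BMF

open Finset Matrix

variable {ι α : Type} [Fintype ι] [DecidableEq ι] [Fintype α] [DecidableEq α]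

/-- the tilt matrix for the set `S` of levels -/
noncomputable def NS (F : (ι → α) → ℝ) (S : Finset ℕ) (c : ι) : Matrix α α ℝ :=
  fun i k => kap S (lv F c) i k * Gt F c i k

lemma Gt_psd (F : (ι → α) → ℝ) (c : ι) : (Gt F c).PosSemidef := by
  sorry

lemma ctr_NS (F : (ι → α) → ℝ) (S : Finset ℕ) (c : ι) : Ctr ((1 / 24 : ℝ) • NS F S c) :=
  schur_ctr (Gt_psd F c) (lv F c) (Kc_spec F c).lvl S

theorem incN_le {F : (ι → α) → ℝ} (hF : BddF F) (T : Finset ι) (S : Finset ℕ) :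
    ∑ c ∈ T, INC (Gam F c) (NS F S c) ≤ AA F T := by
  sorry

theorem ab {F : (ι → α) → ℝ} (hF : BddF F) (T : Finset ι) : AA F T ≤ 282 * Hb (mass F) := by
  sorry

end Pool.Agent.BMF
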