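import Pool.Agent.BMF.Basic

/-!
# BMF Base: one block, and the upper bound of the potential

* `base`: `ι` has exactly one element `c`; `U` is `∅` or `univ`. `Lp θ F ∅ = 0` (`tau = 0`), and `tau F univ B = F B ^ 2` (two functions on a one-element
  type which agree at the point are equal). So `Lbar θ F = (1/2) ∑ B, F B^2 log (1 + F B^2/θ) ≥ (1/2) ∑ B, F B^2 (log (1/θ) + log (F B ^2))`.
  `- ∑ F B^2 log (F B^2) = 2 ∑ F B^2 log (1/|F B|) ≤ 2 V log (∑ |F B| / V) ≤ 2 V log (1/V)`, `V = mass F > 0` (Jensen for the concave `log` with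
  weights `F B^2 / V`, terms with `F B = 0` omitted; or `log t ≤ t - 1` with `t = V / (s |F B|)`, `s = ∑ |F B|`), and `∑ |F B| ≤ 1`: evaluate the form at the
  signs of the coefficients (`ev F x = ∑ B, F B * x c (B c)`; the variables `B c` are distinct for distinct `B`).
  The case `mass F = 0` is trivial (all `F B = 0`).
* `upper`: `tau F U B ≤ ∑ u ∈ U, Gam F u (B u) (B u) ≤ |ι| M2` for every `B` (union bound, `Gam_diag`).
-/

namespace Pool.Agent.BMF

open Finset Matrix

variable {ι α : Type} [Fintype ι] [DecidableEq ι] [Fintype α] [DecidableEq α]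

private lemma base_Lp_nonneg (F : (ι → α) → ℝ) (U : Finset ι) {θ : ℝ} (hθ : 0 < θ) :
    0 ≤ Lp θ F U := by
  unfold Lp
  refine Finset.sum_nonneg fun B _ => mul_nonneg (sq_nonneg _) (Real.log_nonneg ?_)
  have := div_nonneg (tau_nonneg F U B) hθ.le
  linarith

private lemma base_tau (c : ι) (F : (ι → α) → ℝ) (B : ι → α) : F B ^ 2 ≤ tau F univ B := by
  unfold tau
  have h : ∀ B' ∈ (univ : Finset (ι → α)),
      0 ≤ (if ∃ u ∈ (univ : Finset ι), B u = B' u then F B' ^ 2 else 0) := by
    intro B' _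
    split_ifs
    · exact sq_nonneg _
    · exact le_rfl
  refine le_trans ?_ (Finset.single_le_sum h (Finset.mem_univ B))
  rw [if_pos ⟨c, Finset.mem_univ c, rfl⟩]

private lemma base_abs (hι : Fintype.card ι = 1) {F : (ι → α) → ℝ} (hF : BddF F) :
    ∑ B, |F B| ≤ 1 := by
  obtain ⟨c, hc⟩ := Fintype.card_eq_one_iff.1 hι
  refine le_trans (le_of_eq ?_) ((le_abs_self _).trans
    (hF (fun _ i => decide (0 ≤ F (fun _ => i)))))
  unfold ev
  refine Finset.sum_congr rfl fun B _ => ?_
  have hB : (fun _ : ι => B c) = B := by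
    funext j
    rw [hc j]
  have hp : ∏ j, sg (decide (0 ≤ F (fun _ => B j))) = sg (decide (0 ≤ F B)) := by
    rw [Fintype.prod_eq_single c (fun j hj => absurd (hc j) hj), hB]
  rw [hp]
  by_cases h : 0 ≤ F B
  · rw [abs_of_nonneg h]
    simp [sg, h]
  · rw [abs_of_neg (not_le.1 h)]
    simp [sg, h]

private lemma base_log (F : (ι → α) → ℝ) (h : ∑ B, |F B| ≤ 1) (hV : 0 < mass F) :
    mass F * Real.log (mass F) ≤ ∑ B, F B ^ 2 * Real.log |F B| := by
  have h1 : ∀ B, F B ^ 2 * Real.log (mass F) - F B ^ 2 * Real.log |F B| ≤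
      mass F * |F B| - F B ^ 2 := by
    intro B
    by_cases hB : F B = 0
    · simp [hB]
    · have hp : 0 < |F B| := abs_pos.2 hB
      have h2 := Real.log_le_sub_one_of_pos (div_pos hV hp)
      rw [Real.log_div hV.ne' hp.ne'] at h2
      have h3 := mul_le_mul_of_nonneg_left h2 (sq_nonneg (F B))
      have h4 : F B ^ 2 * (mass F / |F B| - 1) = mass F * |F B| - F B ^ 2 := by
        rw [← sq_abs (F B)]
        field_simp
      rw [h4] at h3
      linarith
  have h2 := Finset.sum_le_sum fun B (_ : B ∈ (univ : Finset (ι → α))) => h1 B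
  rw [Finset.sum_sub_distrib, Finset.sum_sub_distrib, ← Finset.sum_mul, ← Finset.mul_sum] at h2
  have h3 : ∑ B, F B ^ 2 = mass F := rfl
  rw [h3] at h2
  have h4 : mass F * ∑ B, |F B| ≤ mass F * 1 := mul_le_mul_of_nonneg_left h hV.le
  linarith

theorem base (hι : Fintype.card ι = 1) {F : (ι → α) → ℝ} (hF : BddF F) {θ : ℝ} (hθ : 0 < θ) :
    (1 / 2) * (mass F * Real.log (1 / θ) - 2 * Real.negMulLog (mass F)) ≤ Lbar θ F := by
  obtain ⟨c, hc⟩ := Fintype.card_eq_one_iff.1 hι
  have h1 : Lp θ F univ ≤ ∑ U : Finset ι, Lp θ F U :=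
    Finset.single_le_sum (fun U _ => base_Lp_nonneg F U hθ) (Finset.mem_univ _)
  have h2 : Lbar θ F = (1 / 2) * ∑ U : Finset ι, Lp θ F U := by
    unfold Lbar
    rw [hι]
    ring
  rw [h2]
  refine mul_le_mul_of_nonneg_left (le_trans ?_ h1) (by norm_num)
  rcases (mass_nonneg F).eq_or_lt with hV | hV
  · rw [← hV]
    simp only [zero_mul, Real.negMulLog_zero, mul_zero, sub_zero]
    exact base_Lp_nonneg F _ hθ
  · have h3 : ∀ B, F B ^ 2 * Real.log (1 / θ) + 2 * (F B ^ 2 * Real.log |F B|) ≤
        F B ^ 2 * Real.log (1 + tau F univ B / θ) := by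
      intro B
      by_cases hB : F B = 0
      · simp [hB]
      · have hp : 0 < F B ^ 2 := by positivity
        have h4 : Real.log (1 / θ) + 2 * Real.log |F B| ≤ Real.log (1 + tau F univ B / θ) := by
          have h5 : Real.log (1 / θ) + 2 * Real.log |F B| = Real.log (F B ^ 2 / θ) := by
            rw [Real.log_div hp.ne' hθ.ne', one_div, Real.log_inv, ← sq_abs (F B), Real.log_pow]
            push_cast
            ring
          rw [h5]
          refine Real.log_le_log (div_pos hp hθ) ?_
          have := div_le_div_of_nonneg_right (base_tau c F B) hθ.le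
          linarith
        have h6 := mul_le_mul_of_nonneg_left h4 hp.le
        linarith
    have h4 := Finset.sum_le_sum fun B (_ : B ∈ (univ : Finset (ι → α))) => h3 B
    rw [Finset.sum_add_distrib, ← Finset.sum_mul, ← Finset.mul_sum] at h4
    have h5 : ∑ B, F B ^ 2 = mass F := rfl
    rw [h5] at h4
    have h6 := base_log F (base_abs hι hF) hV
    have h7 : Lp θ F univ = ∑ B, F B ^ 2 * Real.log (1 + tau F univ B / θ) := rfl
    rw [h7]
    have h8 : Real.negMulLog (mass F) = -(mass F * Real.log (mass F)) := by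
      rw [Real.negMulLog]
      ring
    rw [h8]
    linarith

private lemma base_tau_le {F : (ι → α) → ℝ} {M2 : ℝ} (h : ∀ c i, Gam F c i i ≤ M2)
    (U : Finset ι) (B : ι → α) : tau F U B ≤ Fintype.card ι * M2 := by
  have h1 : tau F U B ≤ ∑ u, Gam F u (B u) (B u) := by
    unfold tau
    simp_rw [Gam_diag]
    rw [Finset.sum_comm]
    refine Finset.sum_le_sum fun B' _ => ?_
    have h0 : ∀ u ∈ (univ : Finset ι), 0 ≤ (if B' u = B u then F B' ^ 2 else 0) := by
      intro u _
      split_ifs
      · exact sq_nonneg _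
      · exact le_rfl
    split_ifs with hu
    · obtain ⟨u, -, hu⟩ := hu
      refine le_trans ?_ (Finset.single_le_sum h0 (Finset.mem_univ u))
      rw [if_pos hu.symm]
    · exact Finset.sum_nonneg h0
  refine h1.trans ((Finset.sum_le_sum fun u _ => h u (B u)).trans (le_of_eq ?_))
  rw [Finset.sum_const, Finset.card_univ, nsmul_eq_mul]

theorem upper {F : (ι → α) → ℝ} {M2 : ℝ} (h : ∀ c i, Gam F c i i ≤ M2) {θ : ℝ} (hθ : 0 < θ) :
    Lbar θ F ≤ mass F * Real.log (1 + Fintype.card ι * M2 / θ) := by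
  have h1 : ∀ U : Finset ι, Lp θ F U ≤ mass F * Real.log (1 + Fintype.card ι * M2 / θ) := by
    intro U
    unfold Lp mass
    rw [Finset.sum_mul]
    refine Finset.sum_le_sum fun B _ => mul_le_mul_of_nonneg_left ?_ (sq_nonneg _)
    refine Real.log_le_log ?_ ?_
    · have := div_nonneg (tau_nonneg F U B) hθ.le
      linarith
    · have := div_le_div_of_nonneg_right (base_tau_le h U B) hθ.le
      linarith
  unfold Lbar
  rw [div_le_iff₀ (by positivity)]
  refine (Finset.sum_le_sum fun U _ => h1 U).trans (le_of_eq ?_)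
  rw [Finset.sum_const, Finset.card_univ, Fintype.card_finset, nsmul_eq_mul]
  push_cast
  ring

end Pool.Agent.BMF
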