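import Pool.Agent.BMF.Defs

/-!
# BMF Basic: elementary facts about the definitions

Proofs (all short):
* `sum_ins`: `Equiv.funSplitAt` / `Equiv.piSplitAt` or a direct bijection `(A, i) ↦ ins c i A`.
* `ip_Gam`: exchange the sums. `Gam_psd`: from `ip_Gam`-type computation, `Gam F c = ∑ A, v_A v_Aᵀ`.
* `Gam_diag`: `sum_ins` and `ins_self`.
* `ip_Gam_quad`: `quad F S` with `S j = 1` for `j ≠ c`: split both `B` and `B'` with `sum_ins`; the product over `j ≠ c` of
  `(1 : Matrix) (A j) (A' j)` is `1` if `A = A'` and `0` otherwise.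
* `lev_le`, `lev_lt`: `m = ⌊1/p⌋₊ ≥ 1`, `2 ^ Nat.log 2 m ≤ m ≤ 1/p` and `1/p < m + 1 ≤ 2 ^ (Nat.log 2 m + 1)`.
* `mass_le_one`: average of `ev F ^ 2` over all sign vectors is `mass F` (orthogonality of the monomials `∏ j, sg (x j (B j))`).
* `negMulLog_le_Hb`: `t (1 - ln t)` is increasing on `[0,1]`.
* `tau_ins`, `nU_ins`: for `c ∉ U` neither quantity sees the variable of block `c`.
-/

namespace Pool.Agent.BMF

open Finset Matrix

section mat
variable {α : Type} [Fintype α] [DecidableEq α]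

lemma sg_sq (b : Bool) : sg b * sg b = 1 := by cases b <;> simp [sg]
lemma abs_sg (b : Bool) : |sg b| = 1 := by cases b <;> simp [sg]

lemma ip_add (G M N : Matrix α α ℝ) : ip G (M + N) = ip G M + ip G N := by
  simp [ip, mul_add, sum_add_distrib]
lemma ip_sub (G M N : Matrix α α ℝ) : ip G (M - N) = ip G M - ip G N := by
  simp [ip, mul_sub, sum_sub_distrib]
lemma ip_smul (G M : Matrix α α ℝ) (r : ℝ) : ip G (r • M) = r * ip G M := by
  simp only [ip, Matrix.smul_apply, smul_eq_mul, mul_sum]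
  refine sum_congr rfl fun i _ => sum_congr rfl fun j _ => by ring

lemma qf_add (M N : Matrix α α ℝ) (v : α → ℝ) : qf (M + N) v = qf M v + qf N v := by
  simp [qf, mul_add, add_mul, sum_add_distrib]
lemma qf_sub (M N : Matrix α α ℝ) (v : α → ℝ) : qf (M - N) v = qf M v - qf N v := by
  simp [qf, mul_sub, sub_mul, sum_sub_distrib]
lemma qf_smul (M : Matrix α α ℝ) (r : ℝ) (v : α → ℝ) : qf (r • M) v = r * qf M v := by
  simp only [qf, Matrix.smul_apply, smul_eq_mul, mul_sum]
  refine sum_congr rfl fun i _ => sum_congr rfl fun j _ => by ring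
lemma qf_one (v : α → ℝ) : qf (1 : Matrix α α ℝ) v = ∑ i, v i ^ 2 := by
  simp [qf, Matrix.one_apply, sq]

/-- a symmetric matrix is positive semidefinite iff its quadratic form is nonnegative -/
lemma psd_iff (M : Matrix α α ℝ) : M.PosSemidef ↔ Mᵀ = M ∧ ∀ v, 0 ≤ qf M v := by
  have key : ∀ v : α → ℝ, star v ⬝ᵥ (M *ᵥ v) = qf M v := by
    intro v
    simp only [dotProduct, Matrix.mulVec, qf, Pi.star_apply, star_trivial, Finset.mul_sum]
    refine sum_congr rfl fun i _ => sum_congr rfl fun j _ => by ring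
  rw [Matrix.posSemidef_iff_dotProduct_mulVec]
  refine and_congr ?_ ?_
  · rw [Matrix.IsHermitian, Matrix.conjTranspose_eq_transpose_of_trivial]
  · exact forall_congr' fun v => by rw [key v]

lemma qf_nonneg {M : Matrix α α ℝ} (h : M.PosSemidef) (v : α → ℝ) : 0 ≤ qf M v := by
  exact ((psd_iff M).1 h).2 v

lemma ip_nonneg {G M : Matrix α α ℝ} (hG : G.PosSemidef) (hM : M.PosSemidef) : 0 ≤ ip G M := by
  obtain ⟨m, w, hw⟩ := Matrix.posSemidef_iff_eq_sum_vecMulVec.mp hM
  have : ip G M = ∑ k, qf G (w k) := by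
    subst hw
    simp only [ip, qf, Matrix.sum_apply, Matrix.vecMulVec_apply, Pi.star_apply, star_trivial,
      Finset.mul_sum]
    have h1 : ∀ i : α, (∑ j, ∑ k, G i j * (w k i * w k j)) = ∑ k, ∑ j, w k i * G i j * w k j := by
      intro i
      rw [Finset.sum_comm]
      exact sum_congr rfl fun k _ => sum_congr rfl fun j _ => by ring
    simp_rw [h1]
    rw [Finset.sum_comm]
  rw [this]
  exact Finset.sum_nonneg fun k _ => qf_nonneg hG _

lemma lev_le {p : ℝ} (h0 : 0 < p) (h1 : p ≤ 1) : (2 : ℝ) ^ lev p * p ≤ 1 := by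
  have hp : (1 : ℝ) ≤ 1 / p := by rw [le_div_iff₀ h0]; linarith
  have hf : 1 ≤ ⌊1 / p⌋₊ := Nat.one_le_floor_iff _ |>.2 hp
  have h2 : 2 ^ Nat.log 2 ⌊1 / p⌋₊ ≤ ⌊1 / p⌋₊ := Nat.pow_log_le_self 2 (by omega)
  have h3 : ((2 : ℝ) ^ lev p) ≤ 1 / p := by
    have h4 : ((2 ^ Nat.log 2 ⌊1 / p⌋₊ : ℕ) : ℝ) ≤ (⌊1 / p⌋₊ : ℝ) := by exact_mod_cast h2
    have h5 : ((⌊1 / p⌋₊ : ℕ) : ℝ) ≤ 1 / p := Nat.floor_le (by positivity)
    have h6 : ((2 : ℝ) ^ lev p) = ((2 ^ Nat.log 2 ⌊1 / p⌋₊ : ℕ) : ℝ) := by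
      simp [lev]
    rw [h6]
    linarith
  rwa [le_div_iff₀ h0] at h3

lemma lev_lt {p : ℝ} (h0 : 0 < p) : 1 < (2 : ℝ) ^ (lev p + 1) * p := by
  have h2 : ⌊1 / p⌋₊ < 2 ^ (Nat.log 2 ⌊1 / p⌋₊).succ := Nat.lt_pow_succ_log_self (by norm_num) _
  have h3 : (⌊1 / p⌋₊ : ℝ) + 1 ≤ (2 : ℝ) ^ (lev p + 1) := by
    have : ⌊1 / p⌋₊ + 1 ≤ 2 ^ (Nat.log 2 ⌊1 / p⌋₊ + 1) := h2
    exact_mod_cast this
  have h4 : 1 / p < (⌊1 / p⌋₊ : ℝ) + 1 := Nat.lt_floor_add_one _
  have h5 : 1 / p < (2 : ℝ) ^ (lev p + 1) := lt_of_lt_of_le h4 h3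
  rwa [div_lt_iff₀ h0] at h5

lemma Hb_nonneg {V : ℝ} (h0 : 0 ≤ V) (h1 : V ≤ 1) : 0 ≤ Hb V := by
  exact h0.trans (by
    unfold Hb
    have : 0 ≤ Real.log (1 / V) := by
      rcases h0.eq_or_lt with h | h
      · subst h; simp
      · exact Real.log_nonneg (by rw [le_div_iff₀ h]; linarith)
    nlinarith)

lemma le_Hb {V : ℝ} (h0 : 0 ≤ V) (h1 : V ≤ 1) : V ≤ Hb V := by
  unfold Hb
  have : 0 ≤ Real.log (1 / V) := by
    rcases h0.eq_or_lt with h | h
    · subst h; simp
    · exact Real.log_nonneg (by rw [le_div_iff₀ h]; linarith)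
  nlinarith

lemma negMulLog_le_Hb {x y : ℝ} (h0 : 0 ≤ x) (h1 : x ≤ y) (h2 : y ≤ 1) :
    Real.negMulLog x ≤ Hb y := by
  rcases h0.eq_or_lt with h | h
  · subst h
    simpa using Hb_nonneg h1 h2
  · have hy : 0 < y := lt_of_lt_of_le h h1
    have e1 : Real.log (y / x) ≤ y / x - 1 := Real.log_le_sub_one_of_pos (by positivity)
    have e2 : Real.log (y / x) = Real.log y - Real.log x := Real.log_div hy.ne' h.ne'
    have e3 : x * (Real.log y - Real.log x) ≤ y - x := by
      rw [← e2]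
      calc x * Real.log (y / x) ≤ x * (y / x - 1) := mul_le_mul_of_nonneg_left e1 h.le
        _ = y - x := by field_simp
    have e4 : Real.log y ≤ 0 := Real.log_nonpos hy.le h2
    have e5 : Real.log (1 / y) = - Real.log y := by rw [one_div, Real.log_inv]
    unfold Hb
    rw [e5, Real.negMulLog]
    nlinarith [mul_nonneg (sub_nonneg.2 h1) (neg_nonneg.2 e4)]

end mat

section form
variable {ι α : Type} [Fintype ι] [DecidableEq ι] [Fintype α] [DecidableEq α]

@[simp] lemma ins_self (c : ι) (i : α) (A : {j // j ≠ c} → α) : ins c i A c = i := by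
  simp [ins]

lemma ins_ne (c : ι) (i : α) (A : {j // j ≠ c} → α) {j : ι} (h : j ≠ c) :
    ins c i A j = A ⟨j, h⟩ := by
  simp [ins, h]

lemma sum_ins (c : ι) (g : (ι → α) → ℝ) :
    ∑ B, g B = ∑ A : {j // j ≠ c} → α, ∑ i, g (ins c i A) := by
  rw [← Finset.sum_comm, ← Fintype.sum_prod_type' (f := fun (i : α) (A : {j // j ≠ c} → α) => g (ins c i A))]
  refine Fintype.sum_equiv (Equiv.funSplitAt c α) _ _ ?_
  intro B
  congr 1
  funext j
  by_cases h : j = c
  · subst h; simp [ins]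
  · simp [ins, h]

lemma ip_Gam (F : (ι → α) → ℝ) (c : ι) (M : Matrix α α ℝ) :
    ip (Gam F c) M = ∑ A : {j // j ≠ c} → α, qf M (fun i => F (ins c i A)) := by
  simp only [ip, Gam, qf, Finset.sum_mul]
  have h1 : ∀ i : α, (∑ j, ∑ A : {j // j ≠ c} → α, F (ins c i A) * F (ins c j A) * M i j) =
      ∑ A : {j // j ≠ c} → α, ∑ j, F (ins c i A) * M i j * F (ins c j A) := by
    intro i
    rw [Finset.sum_comm]
    exact sum_congr rfl fun A _ => sum_congr rfl fun j _ => by ring
  simp_rw [h1]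
  rw [Finset.sum_comm]

lemma Gam_symm (F : (ι → α) → ℝ) (c : ι) : (Gam F c)ᵀ = Gam F c := by
  ext i j
  simp only [Matrix.transpose_apply, Gam]
  exact sum_congr rfl fun A _ => mul_comm _ _

lemma Gam_psd (F : (ι → α) → ℝ) (c : ι) : (Gam F c).PosSemidef := by
  refine (psd_iff _).2 ⟨Gam_symm F c, fun v => ?_⟩
  have : qf (Gam F c) v = ∑ A : {j // j ≠ c} → α, (∑ i, v i * F (ins c i A)) ^ 2 := by
    simp only [qf, Gam, sq, Finset.sum_mul, Finset.mul_sum]
    have h1 : ∀ i : α, (∑ j, ∑ A : {j // j ≠ c} → α, v i * (F (ins c i A) * F (ins c j A)) * v j) =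
        ∑ A : {j // j ≠ c} → α, ∑ j, v i * F (ins c i A) * (v j * F (ins c j A)) := by
      intro i
      rw [Finset.sum_comm]
      exact sum_congr rfl fun A _ => sum_congr rfl fun j _ => by ring
    simp_rw [h1]
    rw [Finset.sum_comm]
    refine sum_congr rfl fun A _ => ?_
    rw [Finset.sum_comm]
  rw [this]
  exact Finset.sum_nonneg fun A _ => sq_nonneg _

lemma Gam_diag (F : (ι → α) → ℝ) (c : ι) (i : α) :
    Gam F c i i = ∑ B, if B c = i then F B ^ 2 else 0 := by
  rw [sum_ins c]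
  simp only [Gam, ins_self]
  refine sum_congr rfl fun A _ => ?_
  rw [Finset.sum_ite_eq' univ i]
  simp [sq]

lemma Gam_trace (F : (ι → α) → ℝ) (c : ι) : ∑ i, Gam F c i i = mass F := by
  unfold mass
  rw [sum_ins c, Finset.sum_comm]
  refine sum_congr rfl fun A _ => sum_congr rfl fun i _ => ?_
  ring

lemma Gam_diag_nonneg (F : (ι → α) → ℝ) (c : ι) (i : α) : 0 ≤ Gam F c i i := by
  exact Finset.sum_nonneg fun A _ => mul_self_nonneg _

lemma Gam_diag_le (F : (ι → α) → ℝ) (c : ι) (i : α) : Gam F c i i ≤ mass F := by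
  rw [← Gam_trace F c]
  exact Finset.single_le_sum (f := fun i => Gam F c i i) (fun i _ => Gam_diag_nonneg F c i) (mem_univ i)

lemma sq_le_Gam (F : (ι → α) → ℝ) (c : ι) (B : ι → α) : F B ^ 2 ≤ Gam F c (B c) (B c) := by
  rw [Gam_diag]
  have := Finset.single_le_sum (f := fun B' : ι → α => if B' c = B c then F B' ^ 2 else 0)
    (fun B' _ => by
      show 0 ≤ (if B' c = B c then F B' ^ 2 else 0)
      split_ifs
      · exact sq_nonneg _
      · exact le_refl 0) (mem_univ B)
  simpa using this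

private lemma basic_prod (c : ι) (M : Matrix α α ℝ) (i k : α) (A A' : {j // j ≠ c} → α) :
    ∏ j, (if j = c then M else (1 : Matrix α α ℝ)) (ins c i A j) (ins c k A' j) =
      if A = A' then M i k else 0 := by
  by_cases h : A = A'
  · subst h
    rw [if_pos rfl, Finset.prod_eq_single c]
    · simp
    · intro j _ hj
      rw [if_neg hj, ins_ne c i A hj, ins_ne c k A hj, Matrix.one_apply_eq]
    · intro h'
      exact absurd (mem_univ c) h'
  · rw [if_neg h]
    obtain ⟨j, hj⟩ := Function.ne_iff.1 h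
    refine Finset.prod_eq_zero (mem_univ j.1) ?_
    rw [if_neg j.2, ins_ne c i A j.2, ins_ne c k A' j.2, Matrix.one_apply_ne hj]

lemma ip_Gam_quad (F : (ι → α) → ℝ) (c : ι) (M : Matrix α α ℝ) :
    ip (Gam F c) M = quad F (fun j => if j = c then M else 1) := by
  rw [ip_Gam]
  unfold quad
  rw [sum_ins c]
  refine sum_congr rfl fun A _ => ?_
  unfold qf
  refine sum_congr rfl fun i _ => ?_
  rw [sum_ins c, Finset.sum_eq_single A]
  · refine sum_congr rfl fun k _ => ?_
    rw [basic_prod, if_pos rfl]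
    ring
  · intro A' _ hA'
    refine Finset.sum_eq_zero fun k _ => ?_
    rw [basic_prod, if_neg (Ne.symm hA'), mul_zero]
  · intro h
    exact absurd (mem_univ A) h

lemma mass_quad (F : (ι → α) → ℝ) : mass F = quad F (fun _ => 1) := by
  unfold mass quad
  refine sum_congr rfl fun B _ => ?_
  rw [Finset.sum_eq_single B]
  · simp [sq]
  · intro B' _ hB'
    obtain ⟨j, hj⟩ := Function.ne_iff.1 (Ne.symm hB')
    have h0 : ∏ j, (1 : Matrix α α ℝ) (B j) (B' j) = 0 :=
      Finset.prod_eq_zero (mem_univ j) (Matrix.one_apply_ne hj)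
    show F B * F B' * ∏ j, (1 : Matrix α α ℝ) (B j) (B' j) = 0
    rw [h0, mul_zero]
  · intro h
    exact absurd (mem_univ B) h

lemma mass_nonneg (F : (ι → α) → ℝ) : 0 ≤ mass F := by
  exact Finset.sum_nonneg fun B _ => sq_nonneg _

private lemma basic_sum_sg (a b : α) :
    ∑ y : α → Bool, sg (y a) * sg (y b) = if a = b then (2 : ℝ) ^ Fintype.card α else 0 := by
  by_cases h : a = b
  · subst h
    simp [sg_sq]
  · rw [if_neg h]
    have hinv : Function.Involutive (fun y : α → Bool => Function.update y a (!(y a))) := by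
      intro y
      simp
    have h1 : ∑ y : α → Bool, sg ((Function.update y a (!(y a))) a) * sg ((Function.update y a (!(y a))) b) =
        ∑ y : α → Bool, sg (y a) * sg (y b) :=
      Equiv.sum_comp (Function.Involutive.toPerm _ hinv) (fun y : α → Bool => sg (y a) * sg (y b))
    have h2 : ∀ y : α → Bool, sg ((Function.update y a (!(y a))) a) * sg ((Function.update y a (!(y a))) b) =
        - (sg (y a) * sg (y b)) := by
      intro y
      have e1 : (Function.update y a (!(y a))) a = !(y a) := by simp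
      have e2 : (Function.update y a (!(y a))) b = y b := by
        rw [Function.update_of_ne (Ne.symm h)]
      rw [e1, e2]
      cases y a <;> cases y b <;> simp [sg]
    simp_rw [h2] at h1
    rw [Finset.sum_neg_distrib] at h1
    linarith

private lemma basic_sum_ev (F : (ι → α) → ℝ) :
    ∑ x : ι → α → Bool, (ev F (fun j i => sg (x j i))) ^ 2 =
      mass F * (2 ^ Fintype.card α) ^ Fintype.card ι := by
  have h1 : ∀ x : ι → α → Bool, (ev F (fun j i => sg (x j i))) ^ 2 =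
      ∑ B, ∑ B', F B * F B' * ∏ j, (sg (x j (B j)) * sg (x j (B' j))) := by
    intro x
    unfold ev
    rw [sq, Finset.sum_mul_sum]
    refine sum_congr rfl fun B _ => sum_congr rfl fun B' _ => ?_
    rw [Finset.prod_mul_distrib]
    ring
  simp_rw [h1]
  rw [Finset.sum_comm]
  unfold mass
  rw [Finset.sum_mul]
  refine sum_congr rfl fun B _ => ?_
  rw [Finset.sum_comm]
  have h2 : ∀ B' : ι → α, ∑ x : ι → α → Bool, F B * F B' * ∏ j, (sg (x j (B j)) * sg (x j (B' j))) =
      if B = B' then F B ^ 2 * (2 ^ Fintype.card α) ^ Fintype.card ι else 0 := by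
    intro B'
    rw [← Finset.mul_sum]
    have h3 : ∑ x : ι → α → Bool, ∏ j, (sg (x j (B j)) * sg (x j (B' j))) =
        ∏ j, ∑ y : α → Bool, sg (y (B j)) * sg (y (B' j)) := by
      rw [Finset.prod_univ_sum, Fintype.piFinset_univ]
    rw [h3]
    simp_rw [basic_sum_sg]
    by_cases h : B = B'
    · subst h
      simp [sq]
    · rw [if_neg h]
      obtain ⟨j, hj⟩ := Function.ne_iff.1 h
      rw [Finset.prod_eq_zero (mem_univ j) (if_neg hj), mul_zero]
  simp_rw [h2]
  simp

lemma mass_le_one {F : (ι → α) → ℝ} (h : BddF F) : mass F ≤ 1 := by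
  have hsum := basic_sum_ev F
  have hle : ∑ x : ι → α → Bool, (ev F (fun j i => sg (x j i))) ^ 2 ≤ ∑ _x : ι → α → Bool, (1 : ℝ) := by
    refine Finset.sum_le_sum fun x _ => ?_
    have := h x
    rw [← sq_abs]
    exact pow_le_one₀ (abs_nonneg _) this
  have hcard : ∑ _x : ι → α → Bool, (1 : ℝ) = (2 ^ Fintype.card α) ^ Fintype.card ι := by
    simp
  rw [hsum, hcard] at hle
  have hpos : (0 : ℝ) < (2 ^ Fintype.card α) ^ Fintype.card ι := by positivity
  by_contra hcon
  push Not at hcon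
  nlinarith

lemma tau_nonneg (F : (ι → α) → ℝ) (U : Finset ι) (B : ι → α) : 0 ≤ tau F U B := by
  unfold tau
  refine Finset.sum_nonneg fun B' _ => ?_
  split_ifs
  · exact sq_nonneg _
  · exact le_refl 0

lemma tau_ins (F : (ι → α) → ℝ) {c : ι} {U : Finset ι} (hc : c ∉ U) (i k : α)
    (A : {j // j ≠ c} → α) : tau F U (ins c i A) = tau F U (ins c k A) := by
  unfold tau
  refine sum_congr rfl fun B' _ => ?_
  have : (∃ u ∈ U, ins c i A u = B' u) ↔ (∃ u ∈ U, ins c k A u = B' u) := by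
    refine exists_congr fun u => and_congr_right fun hu => ?_
    have hne : u ≠ c := fun h => hc (h ▸ hu)
    rw [ins_ne c i A hne, ins_ne c k A hne]
  simp only [this]

lemma nU_ins (F : (ι → α) → ℝ) {c : ι} {U : Finset ι} (hc : c ∉ U) (i k : α)
    (A : {j // j ≠ c} → α) : nU F U (ins c i A) = nU F U (ins c k A) := by
  unfold nU
  by_cases h : U.Nonempty
  · rw [dif_pos h, dif_pos h]
    refine Finset.inf'_congr h rfl fun u hu => ?_
    have hne : u ≠ c := fun h => hc (h ▸ hu)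
    rw [ins_ne c i A hne, ins_ne c k A hne]
  · rw [dif_neg h, dif_neg h]

/-- the hottest `U`-variable of `B` meets `B` -/
lemma nU_tau {F : (ι → α) → ℝ} {U : Finset ι} (hU : U.Nonempty) {B : ι → α} (hB : F B ≠ 0) :
    1 ≤ (2 : ℝ) ^ (nU F U B + 1) * tau F U B := by
  unfold nU
  rw [dif_pos hU]
  obtain ⟨u, hu, hmin⟩ := Finset.exists_mem_eq_inf' hU (fun u => lv F u (B u))
  rw [hmin]
  have hpos : 0 < Gam F u (B u) (B u) := lt_of_lt_of_le (by positivity) (sq_le_Gam F u B)
  have h1 : 1 < (2 : ℝ) ^ (lv F u (B u) + 1) * Gam F u (B u) (B u) := lev_lt hpos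
  have h2 : Gam F u (B u) (B u) ≤ tau F U B := by
    rw [Gam_diag]
    unfold tau
    refine Finset.sum_le_sum fun B' _ => ?_
    by_cases h : B' u = B u
    · rw [if_pos h, if_pos ⟨u, hu, h.symm⟩]
    · rw [if_neg h]
      split_ifs
      · exact sq_nonneg _
      · exact le_refl 0
  have h3 : (2 : ℝ) ^ (lv F u (B u) + 1) * Gam F u (B u) (B u) ≤ (2 : ℝ) ^ (lv F u (B u) + 1) * tau F U B :=
    mul_le_mul_of_nonneg_left h2 (by positivity)
  linarith

lemma lv_le {F : (ι → α) → ℝ} (hF : mass F ≤ 1) (c : ι) (i : α) :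
    (2 : ℝ) ^ lv F c i * Gam F c i i ≤ 1 := by
  rcases (Gam_diag_nonneg F c i).eq_or_lt with h | h
  · rw [← h]
    simp
  · exact lev_le h ((Gam_diag_le F c i).trans hF)

end form

end Pool.Agent.BMF
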