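import Pool.Agent.BMF.Basic

/-!
# BMF Contr: positive semidefinite contractions

`Ctr Q` means `Q` and `1 - Q` positive semidefinite. Proofs.
* `ctr_diag`, `ctr_abs`: `0 ≤ Q i i ≤ 1` (diagonals of `Q`, `1 - Q`), `|Q i j| ≤ √(Q i i Q j j) ≤ 1` (2x2 minors, or `qf` at `e_i ± e_j`).
* `ctr_had`: Hadamard power `Q^(m)` (entries `Q i j ^ m`), `m ≥ 1`: PSD by the Schur product theorem (`Matrix.PosSemidef.hadamard`), and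
  `1 - Q ∘ P = (1 - Q) ∘ P + diagonal (1 - P i i)` for `P = Q^(m-1)` (for `m ≥ 2`) which is PSD with diagonal `≤ 1`.
* `ctr_sinh3`: entrywise `g(q) = (sinh (κ q) - κ q) / (sinh κ - κ) = ∑_{m ≥ 1} w_m q ^ (2m+1)` with `w_m ≥ 0`, `∑ w_m = 1`
  (`Real.hasSum_sinh`). So for every `v`: `qf Q3 v = ∑ w_m qf (Q^(2m+1)) v ≥ 0` and `∑ v^2 - qf Q3 v = ∑ w_m (∑ v^2 - qf (Q^(2m+1)) v) ≥ 0`.
* `sinh3_abs`: `|g(q)| ≤ |q|` for `|q| ≤ 1` (each `|q|^(2m+1) ≤ |q|`).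
* `off_qf`: `qf (off Q) v = qf Q v - ∑ Q i i v i ^ 2`, both terms between `0` and `∑ v^2`.
* `ctr_sq`: if `Xᵀ = X`, `|qf X v| ≤ β ∑ v^2`, `β > 0`, then `(1/β^2) X X` is a contraction: PSD as `XᵀX/β²`; and
  `|X v|² ≤ β² |v|²` (spectral theorem for symmetric `X`, or: `4 ⟨Xv, w⟩ = qf X (v+w) - qf X (v-w) ≤ β (|v+w|² + |v-w|²) = 2β(|v|²+|w|²)`
  with `w = Xv/β`).
* `INC_mono`: `INC G Q' ≤ INC G Q` if `|Q' i k| ≤ |Q i k|` for `i ≠ k` and `0 ≤ G i i`. `INC_one_sub`: `off (1 - Q) = - off Q`.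
* `INC_sq`: with `X, β` as above and zero diagonal of `X` not needed: `∑ k, (X X i k)^2 = (X^4) i i ≤ β² (X²) i i`, so
  `INC G ((1/β²) X X) ≤ β^{-4} ∑ G i i (X^4) i i ≤ β^{-2} ∑ i, G i i ∑ k, X i k ^ 2`.
-/

namespace Pool.Agent.BMF

open Finset Matrix

variable {α : Type} [Fintype α] [DecidableEq α]

lemma ctr_diag {Q : Matrix α α ℝ} (h : Ctr Q) (i : α) : 0 ≤ Q i i ∧ Q i i ≤ 1 := by
  sorry

lemma ctr_abs {Q : Matrix α α ℝ} (h : Ctr Q) (i j : α) : |Q i j| ≤ 1 := by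
  sorry

lemma ctr_zero : Ctr (0 : Matrix α α ℝ) := by
  sorry

lemma ctr_one_sub {Q : Matrix α α ℝ} (h : Ctr Q) : Ctr (1 - Q) := by
  sorry

lemma ctr_had {Q : Matrix α α ℝ} (h : Ctr Q) {m : ℕ} (hm : 1 ≤ m) :
    Ctr (fun i j => Q i j ^ m : Matrix α α ℝ) := by
  sorry

lemma ctr_sinh3 {Q : Matrix α α ℝ} (h : Ctr Q) {κ : ℝ} (hκ : 0 < κ) :
    Ctr (fun i j => (Real.sinh (κ * Q i j) - κ * Q i j) / (Real.sinh κ - κ) : Matrix α α ℝ) := by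
  sorry

lemma sinh3_abs {κ q : ℝ} (hκ : 0 < κ) (hq : |q| ≤ 1) :
    |(Real.sinh (κ * q) - κ * q) / (Real.sinh κ - κ)| ≤ |q| := by
  sorry

lemma off_qf {Q : Matrix α α ℝ} (h : Ctr Q) (v : α → ℝ) : |qf (off Q) v| ≤ ∑ i, v i ^ 2 := by
  sorry

lemma ctr_sq {X : Matrix α α ℝ} (hs : Xᵀ = X) {β : ℝ} (hβ : 0 < β)
    (h : ∀ v, |qf X v| ≤ β * ∑ i, v i ^ 2) : Ctr ((1 / β ^ 2) • (X * X)) := by
  sorry

lemma INC_mono {G Q Q' : Matrix α α ℝ} (hG : ∀ i, 0 ≤ G i i)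
    (h : ∀ i k, i ≠ k → |Q' i k| ≤ |Q i k|) : INC G Q' ≤ INC G Q := by
  sorry

lemma INC_one_sub (G Q : Matrix α α ℝ) : INC G (1 - Q) = INC G Q := by
  sorry

lemma INC_nonneg {G Q : Matrix α α ℝ} (hG : ∀ i, 0 ≤ G i i) : 0 ≤ INC G Q := by
  sorry

lemma INC_smul (G Q : Matrix α α ℝ) (r : ℝ) : INC G (r • Q) = r ^ 2 * INC G Q := by
  sorry

lemma INC_sq {G X : Matrix α α ℝ} (hG : ∀ i, 0 ≤ G i i) (hs : Xᵀ = X) {β : ℝ} (hβ : 0 < β)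
    (h : ∀ v, |qf X v| ≤ β * ∑ i, v i ^ 2) :
    INC G ((1 / β ^ 2) • (X * X)) ≤ (1 / β ^ 2) * ∑ i, G i i * ∑ k, X i k ^ 2 := by
  sorry

lemma ip_off_one_sub (G Q : Matrix α α ℝ) : ip G (off (1 - Q)) = - ip G (off Q) := by
  sorry

lemma ip_eq_diag_off (G Q : Matrix α α ℝ) : ip G Q = (∑ i, G i i * Q i i) + ip G (off Q) := by
  sorry

/-- the incoherent part of a contraction is at most its diagonal part -/
lemma INC_le_diag {G Q : Matrix α α ℝ} (hG : ∀ i, 0 ≤ G i i) (h : Ctr Q) :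
    INC G Q ≤ ∑ i, G i i * Q i i := by
  sorry

end Pool.Agent.BMF
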