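import Mathlib

/-!
# BMF: polynomial Aaronson-Ambainis for block-multilinear forms of constant variance

Problem MP_f992e4_an. Architect: helper46. Paper proof: /team-store/aa_note3_helper46.md.
All modules live in `Pool/Agent/BMF`. This file holds the definitions used everywhere.

A block-multilinear form with blocks `ι` and variables `α` in every block is given by its coefficients
`F : (ι → α) → ℝ`; its value at `x : ι → α → ℝ` is `ev F x = ∑ B, F B * ∏ j, x j (B j)`.
-/

namespace Pool.Agent.BMF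

open Finset Matrix

/-- the real sign of a Boolean -/
def sg (b : Bool) : ℝ := if b then 1 else -1

/-- the level of a number `p` in `(0, 1]`: `2 ^ (-lev p - 1) < p ≤ 2 ^ (-lev p)` -/
noncomputable def lev (p : ℝ) : ℕ := Nat.log 2 ⌊1 / p⌋₊

/-- `V (1 + ln (1/V))` -/
noncomputable def Hb (V : ℝ) : ℝ := V * (1 + Real.log (1 / V))

section mat
variable {α : Type} [Fintype α] [DecidableEq α]

/-- off-diagonal part of a matrix -/
def off (M : Matrix α α ℝ) : Matrix α α ℝ := fun i j => if i = j then 0 else M i j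

/-- entrywise pairing (for symmetric matrices the trace of the product) -/
def ip (G M : Matrix α α ℝ) : ℝ := ∑ i, ∑ j, G i j * M i j

/-- quadratic form of a matrix -/
def qf (M : Matrix α α ℝ) (v : α → ℝ) : ℝ := ∑ i, ∑ j, v i * M i j * v j

/-- incoherent part `∑ i, G i i * ∑ (k ≠ i), Q i k ^ 2` -/
def INC (G Q : Matrix α α ℝ) : ℝ := ∑ i, G i i * ∑ k, (off Q i k) ^ 2

/-- the correlation matrix of one sign vector -/
def signMat (x : α → Bool) : Matrix α α ℝ := fun i j => sg (x i) * sg (x j)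

variable (α) in
/-- closure of the correlation matrices of random sign vectors -/
def Cor : Set (Matrix α α ℝ) := closure (convexHull ℝ (Set.range (signMat (α := α))))

/-- positive semidefinite contractions -/
def Ctr (Q : Matrix α α ℝ) : Prop := Q.PosSemidef ∧ (1 - Q).PosSemidef

/-- average over sign vectors -/
noncomputable def Ex (g : (α → ℝ) → ℝ) : ℝ :=
  (∑ x : α → Bool, g (fun i => sg (x i))) / 2 ^ Fintype.card α

/-- restriction of a matrix to the indices of level at least `n` -/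
def cut (l : α → ℕ) (n : ℕ) (M : Matrix α α ℝ) : Matrix α α ℝ :=
  fun i j => if n ≤ l i ∧ n ≤ l j then M i j else 0

/-- `K` truncates `Γ` with respect to the levels `l` (threshold `4`); the truncated matrix is
`(1 - K) * Γ * (1 - K)` -/
structure IsTrunc (Γ : Matrix α α ℝ) (l : α → ℕ) (K : Matrix α α ℝ) : Prop where
  symm : Kᵀ = K
  idem : K * K = K
  blk : ∀ i j, l i ≠ l j → K i j = 0
  lvl : ∀ (m : ℕ) (v : α → ℝ), (∀ i, l i ≠ m → v i = 0) →
    2 ^ m * qf ((1 - K) * Γ * (1 - K)) v ≤ 4 * ∑ i, v i ^ 2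
  diag : ∀ i, ((1 - K) * Γ * (1 - K)) i i ≤ Γ i i
  tr : 4 * ∑ i, K i i / 2 ^ l i ≤ ip Γ K

open Classical in
/-- a choice of a truncation -/
noncomputable def Kt (Γ : Matrix α α ℝ) (l : α → ℕ) : Matrix α α ℝ :=
  if h : ∃ K, IsTrunc Γ l K then Classical.choose h else 0

/-- the weight `(1/2) ∑ 2 ^ n` over the levels `n ∈ S` below both levels -/
noncomputable def kap (S : Finset ℕ) (l : α → ℕ) (i k : α) : ℝ :=
  (1 / 2) * ∑ n ∈ S.filter (fun n => n ≤ l i ∧ n ≤ l k), (2 : ℝ) ^ n

/-- the weight `kap` for all levels -/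
noncomputable def kapf (l : α → ℕ) (i k : α) : ℝ := ((2 : ℝ) ^ (min (l i) (l k) + 1) - 1) / 2

end mat

section form
variable {ι α : Type} [Fintype ι] [DecidableEq ι] [Fintype α] [DecidableEq α]

/-- insert the variable `i` of block `c` into a choice `A` of variables of the other blocks -/
def ins (c : ι) (i : α) (A : {j // j ≠ c} → α) : ι → α :=
  fun j => if h : j = c then i else A ⟨j, h⟩

/-- coherence matrix of block `c` -/
def Gam (F : (ι → α) → ℝ) (c : ι) : Matrix α α ℝ :=
  fun i j => ∑ A : {j // j ≠ c} → α, F (ins c i A) * F (ins c j A)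

/-- total mass (the variance of the form) -/
def mass (F : (ι → α) → ℝ) : ℝ := ∑ B, F B ^ 2

/-- value of the form -/
def ev (F : (ι → α) → ℝ) (x : ι → α → ℝ) : ℝ := ∑ B, F B * ∏ j, x j (B j)

/-- the form is bounded by `1` at all sign vectors -/
def BddF (F : (ι → α) → ℝ) : Prop := ∀ x : ι → α → Bool, |ev F (fun j i => sg (x j i))| ≤ 1

/-- `⟨F | ⊗ S_j | F⟩` -/
def quad (F : (ι → α) → ℝ) (S : ι → Matrix α α ℝ) : ℝ :=
  ∑ B, ∑ B', F B * F B' * ∏ j, S j (B j) (B' j)

/-- `F` is bounded in `ℓ²` as a function of the signs of the blocks of `T` -/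
def Hyp (T : Finset ι) (F : (ι → α) → ℝ) : Prop :=
  ∀ x : ι → α → Bool, quad F (fun j => if j ∈ T then signMat (x j) else 1) ≤ 1

/-- mass of the monomials which meet `B` in a block of `U` -/
def tau (F : (ι → α) → ℝ) (U : Finset ι) (B : ι → α) : ℝ :=
  ∑ B' : ι → α, if ∃ u ∈ U, B u = B' u then F B' ^ 2 else 0

/-- the potential for the set `U` of blocks -/
noncomputable def Lp (θ : ℝ) (F : (ι → α) → ℝ) (U : Finset ι) : ℝ :=
  ∑ B, F B ^ 2 * Real.log (1 + tau F U B / θ)

/-- the potential, averaged over all sets of blocks -/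
noncomputable def Lbar (θ : ℝ) (F : (ι → α) → ℝ) : ℝ :=
  (∑ U : Finset ι, Lp θ F U) / 2 ^ Fintype.card ι

/-- the form after block `c` has been replaced by the values `x` -/
def rev (F : (ι → α) → ℝ) (c : ι) (x : α → ℝ) : ({j // j ≠ c} → α) → ℝ :=
  fun A => ∑ i, F (ins c i A) * x i

/-- the blocks of `U` other than `c` -/
def subU (c : ι) (U : Finset ι) : Finset {j // j ≠ c} := U.subtype (fun j => j ≠ c)

/-- drift of the potential for `U` when block `c` is revealed -/
noncomputable def Dr (θ : ℝ) (F : (ι → α) → ℝ) (c : ι) (U : Finset ι) : ℝ :=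
  Ex (fun x => Lp θ (rev F c x) (subU c U)) - Lp θ F U

/-- level of the variable `i` of block `c` -/
noncomputable def lv (F : (ι → α) → ℝ) (c : ι) (i : α) : ℕ := lev (Gam F c i i)

/-- level of the hottest `U`-variable of `B` -/
noncomputable def nU (F : (ι → α) → ℝ) (U : Finset ι) (B : ι → α) : ℕ :=
  if h : U.Nonempty then U.inf' h (fun u => lv F u (B u)) else 0

/-- the truncation of block `c` -/
noncomputable def Kc (F : (ι → α) → ℝ) (c : ι) : Matrix α α ℝ := Kt (Gam F c) (lv F c)

/-- the truncated coherence matrix of block `c` -/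
noncomputable def Gt (F : (ι → α) → ℝ) (c : ι) : Matrix α α ℝ :=
  (1 - Kc F c) * Gam F c * (1 - Kc F c)

/-- the normalised diagonal of block `c` -/
noncomputable def Dg (F : (ι → α) → ℝ) (c : ι) : Matrix α α ℝ :=
  Matrix.diagonal (fun i => 2 ^ lv F c i * Gam F c i i)

/-- weight of a `U`-label -/
noncomputable def pw (θ : ℝ) (F : (ι → α) → ℝ) (U : Finset ι) (B : ι → α) : ℝ :=
  min 1 (Real.sqrt (1 / (2 * (2 ^ nU F U B * (θ + tau F U B)))))

/-- the weighted part of `F` whose hottest `U`-variable has level `n` -/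
noncomputable def Fn (θ : ℝ) (F : (ι → α) → ℝ) (U : Finset ι) (n : ℕ) : (ι → α) → ℝ :=
  fun B => if nU F U B = n then pw θ F U B * F B else 0

/-- coherence of the class `n` under the tilt of level `m` -/
noncomputable def Yc (θ : ℝ) (F : (ι → α) → ℝ) (T : Finset ι) (n m : ℕ) : ℝ :=
  ∑ c ∈ T, ip (Gam (Fn θ F Tᶜ n) c) (fun i k => 2 ^ m * cut (lv F c) m (off (Gt F c)) i k)

/-- total weighted off-diagonal coherence -/
noncomputable def AA (F : (ι → α) → ℝ) (T : Finset ι) : ℝ :=
  ∑ c ∈ T, ∑ i, ∑ k, kapf (lv F c) i k * (off (Gt F c) i k) ^ 2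

/-- mass through the variable `B c` which does not meet `B` in a block of `U` -/
def PU (F : (ι → α) → ℝ) (c : ι) (U : Finset ι) (B : ι → α) : ℝ :=
  ∑ B' : ι → α, if B' c = B c ∧ ¬ ∃ u ∈ U, B u = B' u then F B' ^ 2 else 0

/-- exclusive mass of the cold variables -/
noncomputable def Et (θ : ℝ) (F : (ι → α) → ℝ) (T : Finset ι) : ℝ :=
  ∑ c ∈ T, ∑ B, F B ^ 2 * (if nU F Tᶜ B ≤ lv F c (B c) then PU F c Tᶜ B / (θ + tau F Tᶜ B) else 0)

/-- mass of the hot variables -/
noncomputable def Ht (F : (ι → α) → ℝ) (T : Finset ι) : ℝ :=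
  ∑ c ∈ T, ∑ B, F B ^ 2 * (if nU F Tᶜ B ≤ lv F c (B c) then 0 else 1)

end form

end Pool.Agent.BMF
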