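import Pool.Agent.BMF.Basic

/-!
# BMF Trunc: existence of the truncation

Proof of `trunc_exists`. `Γ` positive semidefinite, `l : α → ℕ`. Let `G i j = if l i = l j then 2 ^ l i * Γ i j else 0`
(block diagonal). `G` is positive semidefinite: for a vector `v` with level parts `v_m`, `qf G v = ∑ m, 2^m qf Γ v_m`.
It commutes with every diagonal matrix whose entries depend on the level only.
Let `p` be a real polynomial with `p λ = 1` for the eigenvalues `λ > 4` of `G` and `p λ = 0` for the eigenvalues `λ ≤ 4`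
(Lagrange interpolation), and `K = p(G)` (`Polynomial.aeval`); or use the continuous functional calculus `cfc` of the indicator (the
spectrum is finite) - any construction with: `K` symmetric, `K^2 = K`, `K` commutes with everything that commutes with `G`, and
in the eigenbasis of `G` it is the projection on the eigenvalues `> 4`. Alternatively construct `K` level by level: for every level
`m` apply the spectral theorem to the compression `P_m (2^m Γ) P_m`.
* `blk`: `K` commutes with the level projections `P_m`.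
* `lvl`: for `v` supported on level `m`: `w = (1-K) v` is again supported on level `m`, `2^m qf ((1-K)Γ(1-K)) v = 2^m qf Γ w = qf G w
  = qf ((1-K) G (1-K)) v = qf (G (1-K)) v ≤ 4 ∑ v^2` (eigenvalues of `G (1-K)` are `≤ 4`).
* `diag`: `e_i` is supported on level `m = l i`, so `2^m ((1-K)Γ(1-K)) i i = (G (1-K)) i i ≤ G i i = 2^m Γ i i` (`G K ≥ 0`).
* `tr`: `ip Γ K = ∑_{l i = l j} Γ i j K i j = ∑ i j, 2^(-l i) G i j K j i = ∑ i, 2^(-l i) (G K) i i`, and `(G K) i i ≥ 4 K i i`
  (`G K - 4 K ≥ 0`).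
-/

namespace Pool.Agent.BMF

open Finset Matrix

section

variable {α : Type} [Fintype α] [DecidableEq α]

private lemma spectral (G : Matrix α α ℝ) (hG : Gᵀ = G) : ∃ (U : Matrix α α ℝ) (e : α → ℝ),
    U * Uᵀ = 1 ∧ Uᵀ * U = 1 ∧ G = U * diagonal e * Uᵀ := by
  have hH : G.IsHermitian := by
    rw [Matrix.IsHermitian, Matrix.conjTranspose_eq_transpose_of_trivial]
    exact hG
  have hst : star (hH.eigenvectorUnitary : Matrix α α ℝ) =
      (hH.eigenvectorUnitary : Matrix α α ℝ)ᵀ := by
    rw [Matrix.star_eq_conjTranspose, Matrix.conjTranspose_eq_transpose_of_trivial]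
  refine ⟨(hH.eigenvectorUnitary : Matrix α α ℝ), hH.eigenvalues, ?_, ?_, ?_⟩
  · rw [← hst]
    exact Unitary.coe_mul_star_self _
  · rw [← hst]
    exact Unitary.coe_star_mul_self _
  · have h := hH.spectral_theorem
    rw [Unitary.conjStarAlgAut_apply] at h
    rw [← hst]
    exact h

/-- functions of a symmetric matrix -/
private def Mf (U : Matrix α α ℝ) (f : α → ℝ) : Matrix α α ℝ := U * diagonal f * Uᵀ

private lemma Mf_mul {U : Matrix α α ℝ} (hU : Uᵀ * U = 1) (f g : α → ℝ) :
    Mf U f * Mf U g = Mf U (fun a => f a * g a) := by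
  unfold Mf
  have h : U * diagonal f * Uᵀ * (U * diagonal g * Uᵀ) =
      U * diagonal f * (Uᵀ * U) * diagonal g * Uᵀ := by
    simp only [Matrix.mul_assoc]
  rw [h, hU, Matrix.mul_one, Matrix.mul_assoc U, Matrix.diagonal_mul_diagonal]

private lemma Mf_symm (U : Matrix α α ℝ) (f : α → ℝ) : (Mf U f)ᵀ = Mf U f := by
  unfold Mf
  rw [Matrix.transpose_mul, Matrix.transpose_mul, Matrix.transpose_transpose,
    Matrix.diagonal_transpose, Matrix.mul_assoc]

private lemma Mf_one {U : Matrix α α ℝ} (hU : U * Uᵀ = 1) : Mf U (fun _ => 1) = 1 := by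
  unfold Mf
  rw [Matrix.diagonal_one, Matrix.mul_one, hU]

private lemma Mf_sub (U : Matrix α α ℝ) (f g : α → ℝ) :
    Mf U f - Mf U g = Mf U (fun a => f a - g a) := by
  unfold Mf
  rw [← Matrix.sub_mul, ← Matrix.mul_sub, Matrix.diagonal_sub]

private lemma qf_eq (M : Matrix α α ℝ) (v : α → ℝ) : qf M v = v ⬝ᵥ (M *ᵥ v) := by
  unfold qf dotProduct Matrix.mulVec dotProduct
  refine Finset.sum_congr rfl fun i _ => ?_
  rw [Finset.mul_sum]
  refine Finset.sum_congr rfl fun j _ => ?_
  ring

private lemma qf_Mf (U : Matrix α α ℝ) (f : α → ℝ) (v : α → ℝ) :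
    qf (Mf U f) v = ∑ a, f a * ((Uᵀ *ᵥ v) a) ^ 2 := by
  rw [qf_eq]
  unfold Mf
  rw [← Matrix.mulVec_mulVec, ← Matrix.mulVec_mulVec, Matrix.dotProduct_mulVec,
    ← Matrix.mulVec_transpose]
  unfold dotProduct
  refine Finset.sum_congr rfl fun a _ => ?_
  rw [Matrix.mulVec_diagonal]
  ring

private lemma qf_Mf_mono (U : Matrix α α ℝ) {f g : α → ℝ} (h : ∀ a, f a ≤ g a) (v : α → ℝ) :
    qf (Mf U f) v ≤ qf (Mf U g) v := by
  rw [qf_Mf, qf_Mf]
  exact Finset.sum_le_sum fun a _ => mul_le_mul_of_nonneg_right (h a) (sq_nonneg _)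

private lemma Mf_comm {U M : Matrix α α ℝ} (hU : U * Uᵀ = 1) (hU' : Uᵀ * U = 1) (e χ : α → ℝ)
    (he : ∀ a b, e a = e b → χ a = χ b) (hM : M * Mf U e = Mf U e * M) :
    M * Mf U χ = Mf U χ * M := by
  -- `N = Uᵀ M U`
  have h1 : Uᵀ * M * U * diagonal e = diagonal e * (Uᵀ * M * U) := by
    have h2 := congrArg (fun X => Uᵀ * X * U) hM
    simp only [Mf] at h2
    have e1 : Uᵀ * (M * (U * diagonal e * Uᵀ)) * U = Uᵀ * M * U * diagonal e * (Uᵀ * U) := by
      simp only [Matrix.mul_assoc]
    have e2 : Uᵀ * (U * diagonal e * Uᵀ * M) * U = (Uᵀ * U) * diagonal e * (Uᵀ * M * U) := by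
      simp only [Matrix.mul_assoc]
    rw [e1, e2, hU', Matrix.mul_one, Matrix.one_mul] at h2
    exact h2
  have h3 : Uᵀ * M * U * diagonal χ = diagonal χ * (Uᵀ * M * U) := by
    ext a b
    have h4 := congrFun (congrFun h1 a) b
    rw [Matrix.mul_diagonal, Matrix.diagonal_mul] at h4
    rw [Matrix.mul_diagonal, Matrix.diagonal_mul]
    by_cases h5 : e a = e b
    · rw [he a b h5, mul_comm]
    · have h6 : (Uᵀ * M * U) a b = 0 := by
        have h7 : (e b - e a) * (Uᵀ * M * U) a b = 0 := by linarith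
        rcases mul_eq_zero.1 h7 with h8 | h8
        · exact absurd (by linarith) h5
        · exact h8
      rw [h6]
      ring
  unfold Mf
  have e3 : M * (U * diagonal χ * Uᵀ) = (U * Uᵀ) * M * (U * diagonal χ * Uᵀ) := by
    rw [hU, Matrix.one_mul]
  have e4 : (U * Uᵀ) * M * (U * diagonal χ * Uᵀ) = U * (Uᵀ * M * U * diagonal χ) * Uᵀ := by
    simp only [Matrix.mul_assoc]
  have e5 : U * (diagonal χ * (Uᵀ * M * U)) * Uᵀ = U * diagonal χ * Uᵀ * M * (U * Uᵀ) := by
    simp only [Matrix.mul_assoc]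
  rw [e3, e4, h3, e5, hU, Matrix.mul_one]

private lemma qf_conj {X : Matrix α α ℝ} (hX : Xᵀ = X) (M : Matrix α α ℝ) (v : α → ℝ) :
    qf (X * M * X) v = qf M (X *ᵥ v) := by
  rw [qf_eq, qf_eq, ← Matrix.mulVec_mulVec, ← Matrix.mulVec_mulVec, Matrix.dotProduct_mulVec,
    ← Matrix.mulVec_transpose, hX]

private lemma qf_single (M : Matrix α α ℝ) (i : α) : qf M (Pi.single i 1) = M i i := by
  unfold qf
  rw [Finset.sum_eq_single i, Finset.sum_eq_single i]
  · simp
  · intro b _ hb
    rw [Pi.single_eq_of_ne hb, mul_zero]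
  · intro h
    exact absurd (Finset.mem_univ _) h
  · intro b _ hb
    apply Finset.sum_eq_zero
    intro j _
    rw [Pi.single_eq_of_ne hb, zero_mul, zero_mul]
  · intro h
    exact absurd (Finset.mem_univ _) h

end

theorem trunc_exists {α : Type} [Fintype α] [DecidableEq α] {Γ : Matrix α α ℝ}
    (h : Γ.PosSemidef) (l : α → ℕ) : ∃ K, IsTrunc Γ l K := by
  have hs : Γᵀ = Γ := ((psd_iff Γ).1 h).1
  obtain ⟨G, hG⟩ : ∃ G : Matrix α α ℝ, G = Matrix.of fun i j =>
    if l i = l j then 2 ^ l i * Γ i j else 0 := ⟨_, rfl⟩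
  have hGij : ∀ i j, G i j = if l i = l j then 2 ^ l i * Γ i j else 0 := by
    intro i j
    rw [hG, Matrix.of_apply]
  have hGs : Gᵀ = G := by
    ext i j
    rw [Matrix.transpose_apply, hGij, hGij]
    by_cases h1 : l i = l j
    · have h2 : Γ j i = Γ i j := congrFun (congrFun hs i) j
      rw [if_pos h1, if_pos h1.symm, h1, h2]
    · rw [if_neg h1, if_neg (fun h2 => h1 h2.symm)]
  obtain ⟨U, e, hU, hU', hGe⟩ := spectral G hGs
  have hGM : G = Mf U e := hGe
  obtain ⟨χ, hχ⟩ : ∃ χ : α → ℝ, χ = fun a => if 4 < e a then 1 else 0 := ⟨_, rfl⟩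
  have hχ1 : ∀ a, 4 < e a → χ a = 1 := by
    intro a ha
    rw [hχ]
    exact if_pos ha
  have hχ0 : ∀ a, ¬ 4 < e a → χ a = 0 := by
    intro a ha
    rw [hχ]
    exact if_neg ha
  have hblk : ∀ i j, l i ≠ l j → Mf U χ i j = 0 := by
    intro i j hij
    have h1 : diagonal (fun i => (l i : ℝ)) * Mf U e = Mf U e * diagonal (fun i => (l i : ℝ)) := by
      rw [← hGM]
      ext i j
      rw [Matrix.diagonal_mul, Matrix.mul_diagonal, hGij]
      by_cases h2 : l i = l j
      · rw [if_pos h2, h2]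
        ring
      · rw [if_neg h2]
        ring
    have h2 := Mf_comm hU hU' e χ (fun a b hab => by rw [hχ]; simp only [hab]) h1
    have h3 := congrFun (congrFun h2 i) j
    rw [Matrix.diagonal_mul, Matrix.mul_diagonal] at h3
    have h4 : ((l i : ℝ) - l j) * Mf U χ i j = 0 := by linarith
    rcases mul_eq_zero.1 h4 with h5 | h5
    · exfalso
      apply hij
      have h6 : (l i : ℝ) = l j := by linarith
      exact_mod_cast h6
    · exact h5
  have h1K : (1 : Matrix α α ℝ) - Mf U χ = Mf U (fun a => 1 - χ a) := by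
    rw [← Mf_one hU, Mf_sub]
  have hsupp : ∀ (m : ℕ) (w : α → ℝ), (∀ i, l i ≠ m → w i = 0) → 2 ^ m * qf Γ w = qf G w := by
    intro m w hw
    unfold qf
    rw [Finset.mul_sum]
    refine Finset.sum_congr rfl fun i _ => ?_
    rw [Finset.mul_sum]
    refine Finset.sum_congr rfl fun j _ => ?_
    rw [hGij]
    by_cases hi : l i = m
    · by_cases hj : l j = m
      · rw [if_pos (hi.trans hj.symm), hi]
        ring
      · rw [hw j hj]
        ring
    · rw [hw i hi]
      ring
  -- the main identity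
  have hmain : ∀ (m : ℕ) (v : α → ℝ), (∀ i, l i ≠ m → v i = 0) →
      2 ^ m * qf ((1 - Mf U χ) * Γ * (1 - Mf U χ)) v =
        qf (Mf U (fun a => (1 - χ a) * e a * (1 - χ a))) v := by
    intro m v hv
    have hw : ∀ i, l i ≠ m → ((1 - Mf U χ) *ᵥ v) i = 0 := by
      intro i hi
      unfold Matrix.mulVec dotProduct
      apply Finset.sum_eq_zero
      intro j _
      by_cases hj : l j = m
      · have h2 : i ≠ j := by
          rintro rfl
          exact hi hj
        show (1 - Mf U χ) i j * v j = 0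
        rw [Matrix.sub_apply, Matrix.one_apply_ne h2, hblk i j (by rw [hj]; exact hi)]
        ring
      · rw [hv j hj, mul_zero]
    have hX : (1 - Mf U χ)ᵀ = 1 - Mf U χ := by
      rw [h1K]
      exact Mf_symm U _
    rw [qf_conj hX, hsupp m _ hw, ← qf_conj hX, h1K, hGM, Mf_mul hU', Mf_mul hU']
  refine ⟨Mf U χ, Mf_symm U χ, ?_, hblk, ?_, ?_, ?_⟩
  · rw [Mf_mul hU']
    congr 1
    funext a
    by_cases ha : 4 < e a
    · rw [hχ1 a ha, one_mul]
    · rw [hχ0 a ha, zero_mul]
  · intro m v hv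
    rw [hmain m v hv]
    have h2 : qf (Mf U (fun a => (1 - χ a) * e a * (1 - χ a))) v ≤ qf (Mf U (fun _ => 4)) v := by
      apply qf_Mf_mono
      intro a
      by_cases ha : 4 < e a
      · rw [hχ1 a ha]
        norm_num
      · rw [hχ0 a ha]
        linarith
    refine h2.trans (le_of_eq ?_)
    have h3 := qf_Mf U (fun _ => 4) v
    have h4 := qf_Mf U (fun _ => 1) v
    rw [Mf_one hU, qf_one] at h4
    rw [h3, h4, Finset.mul_sum]
    refine Finset.sum_congr rfl fun a _ => ?_
    ring
  · intro i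
    have h2 := hmain (l i) (Pi.single i 1) (fun j hj => Pi.single_eq_of_ne
      (by rintro rfl; exact hj rfl) 1)
    have h3 : qf (Mf U (fun a => (1 - χ a) * e a * (1 - χ a))) (Pi.single i 1) ≤
        qf (Mf U e) (Pi.single i 1) := by
      apply qf_Mf_mono
      intro a
      by_cases ha : 4 < e a
      · rw [hχ1 a ha]
        linarith
      · rw [hχ0 a ha]
        linarith
    rw [← hGM, ← h2, qf_single, qf_single, hGij, if_pos rfl] at h3
    exact le_of_mul_le_mul_left h3 (by positivity)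
  · unfold ip
    rw [Finset.mul_sum]
    refine Finset.sum_le_sum fun i _ => ?_
    have h2 : ∑ j, Γ i j * Mf U χ i j = (G * Mf U χ) i i / 2 ^ l i := by
      rw [Matrix.mul_apply, Finset.sum_div]
      refine Finset.sum_congr rfl fun j _ => ?_
      have h3 : Mf U χ j i = Mf U χ i j := congrFun (congrFun (Mf_symm U χ) i) j
      rw [h3, hGij]
      by_cases hij : l i = l j
      · rw [if_pos hij]
        field_simp
      · rw [hblk i j hij]
        ring
    have h3 : 4 * Mf U χ i i ≤ (G * Mf U χ) i i := by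
      have h4 : (4 : ℝ) • Mf U χ = Mf U (fun a => 4 * χ a) := by
        unfold Mf
        have h5 : diagonal (fun a => 4 * χ a) = (4 : ℝ) • diagonal χ := by
          rw [← Matrix.diagonal_smul]
          rfl
        rw [h5, Matrix.mul_smul, Matrix.smul_mul]
      have h5 : qf (Mf U (fun a => 4 * χ a)) (Pi.single i 1) ≤
          qf (Mf U (fun a => e a * χ a)) (Pi.single i 1) := by
        apply qf_Mf_mono
        intro a
        by_cases ha : 4 < e a
        · rw [hχ1 a ha]
          linarith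
        · rw [hχ0 a ha]
          linarith
      rw [← h4, ← Mf_mul hU', ← hGM, qf_single, qf_single, Matrix.smul_apply, smul_eq_mul] at h5
      exact h5
    rw [h2, ← mul_div_assoc]
    exact div_le_div_of_nonneg_right h3 (by positivity)

theorem Kc_spec {ι α : Type} [Fintype ι] [DecidableEq ι] [Fintype α] [DecidableEq α]
    (F : (ι → α) → ℝ) (c : ι) : IsTrunc (Gam F c) (lv F c) (Kc F c) := by
  have h : ∃ K, IsTrunc (Gam F c) (lv F c) K := trunc_exists (Gam_psd F c) _
  unfold Kc Kt
  rw [dif_pos h]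
  exact Classical.choose_spec h

end Pool.Agent.BMF
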