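import Pool.Agent.BMF.KeyA

/-!
# BMF ZAlg: the splitting of one vector

Notation: `G = ΓA` is the local matrix, `τ` its trace, `Gt = (1-K)Γ(1-K)`, `D = diagonal (2^(l i) Γ i i)` (entries in `[0,1]`).
`v≥ i = v i` if `n ≤ l i`, else `0`; `v< = v - v≥`; `z = (1-K) v≥`, `b = v - z = v< + K v≥`.
`K` is block diagonal, so `z` and `K v≥` are supported on levels `≥ n`, `v<` on levels `< n`: `∑ b^2 = ∑ v<^2 + ∑ (K v≥)^2`,
`∑ (K v≥)^2 = qf K v≥ ≤ qf K v` (`K` symmetric idempotent, block diagonal).                                                   (0)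
`keyA` gives left side `≤ 2 qf (off G) z / (θ+τ) + 12 ∑ b^2`.
(1) `off G = G - diag G ≤ Γ - diag G = off Γ + diag (Γ i i - G i i)`: `qf (off G) z ≤ qf (off Γ) z + ∑ z i^2 (Γ i i - G i i)`.
(2) `qf (off Γ) z = qf Gt v≥ - ∑ Γ i i z i^2 = qf (off Gt) v≥ + ∑ Gt i i (v≥ i)^2 - qf (1-K)Δ(1-K) v≥`, `Δ = diag Γ`. With `Gt i i ≤ Γ i i`
    (`IsTrunc.diag`): `≤ qf (off Gt) v≥ + qf (Δ - (1-K)Δ(1-K)) v≥`, `Δ - (1-K)Δ(1-K) = KΔ + ΔK - KΔK ≤ KΔ + ΔK`. `Δ i i = 2^(-l i) D i i`; all matrices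
    are block diagonal; for the level part `w` of level `m ≥ n` of `v≥`: `qf (KΔ + ΔK) w = 2^(-m) * 2 ⟨K w, K D w⟩ ≤ 2^(-m) (|K w|^2 + |K D w|^2)
    = 2^(-m) (qf K w + qf (D K D) w)`. As `2/(θ+τ) ≤ 2/τ ≤ 4 * 2^n` (`1 ≤ 2^(n+1) τ`): `(2/(θ+τ)) * this ≤ 4 (qf K v≥ + qf (DKD) v≥)
    ≤ 4 qf K v + 4 qf (D K D) v`. And `qf (off Gt) v≥ = qf (cut l n (off Gt)) v`.
(3) `z i^2 ≤ 2 (v≥ i)^2 + 2 ((K v≥) i)^2`; for `l i ≥ n`: `0 ≤ Γ i i - G i i ≤ Γ i i ≤ 2^(-l i) ≤ 2^(-n) ≤ 2 τ ≤ 2 (θ+τ)`, so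
    `(2/(θ+τ)) ∑ z i^2 (Γ i i - G i i) ≤ 4 ∑_{n ≤ l i} v i^2 (Γ i i - G i i)/(θ+τ) + 8 ∑ (K v≥)^2`.
Total coefficient of `qf K v`: `4 + 8 + 12 = 24`.
-/

namespace Pool.Agent.BMF

open Finset Matrix

section zalgaux
variable {α : Type} [Fintype α] [DecidableEq α]

lemma zalg_qf (M : Matrix α α ℝ) (w : α → ℝ) : qf M w = ∑ i, w i * (M *ᵥ w) i := by
  simp only [qf, Matrix.mulVec, dotProduct, mul_sum]
  exact sum_congr rfl fun i _ => sum_congr rfl fun j _ => by ring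

lemma zalg_dot {K : Matrix α α ℝ} (hs : Kᵀ = K) (hi : K * K = K) (u w : α → ℝ) :
    ∑ i, u i * (K *ᵥ w) i = ∑ i, (K *ᵥ u) i * (K *ᵥ w) i := by
  have h1 : (K *ᵥ u) ⬝ᵥ (K *ᵥ w) = u ⬝ᵥ (K *ᵥ w) := by
    have : K *ᵥ u = u ᵥ* K := by
      conv_lhs => rw [← hs]
      rw [Matrix.mulVec_transpose]
    rw [this, ← Matrix.dotProduct_mulVec, Matrix.mulVec_mulVec, hi]
  simpa [dotProduct] using h1.symm

lemma zalg_sq {K : Matrix α α ℝ} (hs : Kᵀ = K) (hi : K * K = K) (w : α → ℝ) :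
    ∑ i, (K *ᵥ w) i ^ 2 = qf K w := by
  rw [zalg_qf, zalg_dot hs hi]
  exact sum_congr rfl fun i _ => by ring

lemma zalg_supp {K : Matrix α α ℝ} {l : α → ℕ} (hb : ∀ i j, l i ≠ l j → K i j = 0) {n : ℕ}
    (w : α → ℝ) (i : α) :
    (K *ᵥ (fun j => if n ≤ l j then w j else 0)) i = if n ≤ l i then (K *ᵥ w) i else 0 := by
  simp only [Matrix.mulVec, dotProduct]
  split_ifs with h
  · refine sum_congr rfl fun j _ => ?_
    by_cases hj : l i = l j
    · rw [if_pos (by omega)]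
    · rw [hb i j hj]; simp
  · refine sum_eq_zero fun j _ => ?_
    split_ifs with h2
    · rw [hb i j (by omega)]; simp
    · simp

/-- cutting the levels decreases the quadratic form of a block diagonal projection -/
lemma zalg_cut {K : Matrix α α ℝ} {l : α → ℕ} (hs : Kᵀ = K) (hi : K * K = K)
    (hb : ∀ i j, l i ≠ l j → K i j = 0) (n : ℕ) (w : α → ℝ) :
    ∑ i, (K *ᵥ (fun j => if n ≤ l j then w j else 0)) i ^ 2 ≤ qf K w := by
  rw [← zalg_sq hs hi]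
  refine sum_le_sum fun i _ => ?_
  rw [zalg_supp hb]
  split_ifs
  · exact le_rfl
  · rw [zero_pow two_ne_zero]; exact sq_nonneg _

lemma zalg_diag_nonneg {M : Matrix α α ℝ} (h : M.PosSemidef) (i : α) : 0 ≤ M i i := by
  have := qf_nonneg h (Pi.single i 1)
  simpa [qf, Pi.single_apply] using this

lemma zalg_off (M : Matrix α α ℝ) (w : α → ℝ) :
    qf (off M) w = qf M w - ∑ i, M i i * w i ^ 2 := by
  have : qf M w = qf (off M) w + ∑ i, M i i * w i ^ 2 := by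
    simp only [qf, off]
    rw [← sum_add_distrib]
    refine sum_congr rfl fun i _ => ?_
    have : ∀ j, w i * M i j * w j = w i * (if i = j then 0 else M i j) * w j
        + (if i = j then M i i * w i ^ 2 else 0) := by
      intro j
      by_cases h : i = j
      · subst h; simp; ring
      · simp [h]
    rw [sum_congr rfl fun j _ => this j, sum_add_distrib]
    simp
  linarith

end zalgaux

theorem zalg {α : Type} [Fintype α] [DecidableEq α] {Γ G K : Matrix α α ℝ} {l : α → ℕ} {n : ℕ}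
    {θ τ : ℝ} (hΓ : Γ.PosSemidef) (hG : G.PosSemidef) (hΓG : (Γ - G).PosSemidef)
    (hK : IsTrunc Γ l K) (hl : ∀ i, (2 : ℝ) ^ l i * Γ i i ≤ 1) (hτ : τ = ∑ i, G i i)
    (hθ : 0 < θ) (hn : 1 ≤ (2 : ℝ) ^ (n + 1) * τ) (v : α → ℝ) :
    Ex (fun x => (∑ i, v i * x i) ^ 2 * Real.log ((θ + qf G x) / (θ + τ))) ≤
      (2 / (θ + τ)) * qf (cut l n (off ((1 - K) * Γ * (1 - K)))) v
      + 24 * qf K v
      + 4 * qf (Matrix.diagonal (fun i => 2 ^ l i * Γ i i) * K *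
          Matrix.diagonal (fun i => 2 ^ l i * Γ i i)) v
      + 4 * ∑ i, (if n ≤ l i then v i ^ 2 * ((Γ i i - G i i) / (θ + τ)) else 0)
      + 12 * ∑ i, (if n ≤ l i then 0 else v i ^ 2) := by
  have hs := hK.symm
  have hi := hK.idem
  have hb := hK.blk
  set vg : α → ℝ := fun i => if n ≤ l i then v i else 0 with hvg
  set kv : α → ℝ := K *ᵥ vg with hkv
  set z : α → ℝ := fun i => vg i - kv i with hz
  set D : α → ℝ := fun i => 2 ^ l i * Γ i i with hD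
  have hτ0 : 0 < τ := by
    by_contra hc
    push Not at hc
    have : (2 : ℝ) ^ (n + 1) * τ ≤ 0 := mul_nonpos_of_nonneg_of_nonpos (by positivity) hc
    linarith
  have hθτ : 0 < θ + τ := by linarith
  have hΓd : ∀ i, 0 ≤ Γ i i := zalg_diag_nonneg hΓ
  have hGd : ∀ i, 0 ≤ G i i := zalg_diag_nonneg hG
  have hΓGd : ∀ i, 0 ≤ Γ i i - G i i := fun i => by simpa using zalg_diag_nonneg hΓG i
  have hkv0 : ∀ i, ¬ n ≤ l i → kv i = 0 := by
    intro i hi'
    rw [hkv, hvg, zalg_supp hb, if_neg hi']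
  have hkvsq : ∑ i, kv i ^ 2 ≤ qf K v := zalg_cut hs hi hb n v
  -- the key inequality
  have key := keyA hG hθ z (fun i => v i - z i)
  rw [← hτ] at key
  have e0 : (fun x : α → ℝ => (∑ i, (z i + (v i - z i)) * x i) ^ 2 *
      Real.log ((θ + qf G x) / (θ + τ))) =
      (fun x => (∑ i, v i * x i) ^ 2 * Real.log ((θ + qf G x) / (θ + τ))) := by
    funext x
    congr 2
    exact sum_congr rfl fun i _ => by ring
  rw [e0] at key
  refine key.trans ?_
  -- the remainder `b`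
  have hbs : ∑ i, (v i - z i) ^ 2 = ∑ i, kv i ^ 2 + ∑ i, (if n ≤ l i then 0 else v i ^ 2) := by
    rw [← sum_add_distrib]
    refine sum_congr rfl fun i _ => ?_
    simp only [hz, hvg]
    by_cases h : n ≤ l i
    · simp [h]
    · simp [h, hkv0 i h]
  -- `off G` versus `Γ`
  have h1 : qf (off G) z ≤ qf Γ z - ∑ i, Γ i i * z i ^ 2 + ∑ i, (Γ i i - G i i) * z i ^ 2 := by
    rw [zalg_off]
    have := qf_nonneg hΓG z
    rw [qf_sub] at this
    have e : ∑ i, (Γ i i - G i i) * z i ^ 2 = ∑ i, Γ i i * z i ^ 2 - ∑ i, G i i * z i ^ 2 := by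
      rw [← sum_sub_distrib]
      exact sum_congr rfl fun i _ => by ring
    rw [e]; linarith
  -- `qf Γ z = qf Gt vg`
  have hzv : z = (1 - K) *ᵥ vg := by
    rw [Matrix.sub_mulVec, Matrix.one_mulVec]; rfl
  have hs1 : (1 - K)ᵀ = 1 - K := by rw [Matrix.transpose_sub, hs, Matrix.transpose_one]
  have h2 : qf Γ z = qf ((1 - K) * Γ * (1 - K)) vg := by
    have a1 : ∀ (M : Matrix α α ℝ) (w : α → ℝ), qf M w = w ⬝ᵥ (M *ᵥ w) := fun M w => zalg_qf M w
    rw [a1, a1, hzv, ← Matrix.mulVec_mulVec, ← Matrix.mulVec_mulVec]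
    rw [Matrix.dotProduct_mulVec vg (1 - K)]
    congr 1
    conv_lhs => rw [← hs1]
    rw [Matrix.mulVec_transpose]
  have h3 : qf ((1 - K) * Γ * (1 - K)) vg ≤ qf (off ((1 - K) * Γ * (1 - K))) vg
      + ∑ i, Γ i i * vg i ^ 2 := by
    rw [zalg_off]
    have : ∑ i, ((1 - K) * Γ * (1 - K)) i i * vg i ^ 2 ≤ ∑ i, Γ i i * vg i ^ 2 :=
      sum_le_sum fun i _ => mul_le_mul_of_nonneg_right (hK.diag i) (by positivity)
    linarith
  have h4 : ∑ i, Γ i i * vg i ^ 2 - ∑ i, Γ i i * z i ^ 2 ≤ 2 * ∑ i, Γ i i * vg i * kv i := by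
    rw [mul_sum, ← sum_sub_distrib]
    refine sum_le_sum fun i _ => ?_
    have : 0 ≤ Γ i i * kv i ^ 2 := mul_nonneg (hΓd i) (by positivity)
    simp only [hz]; nlinarith
  -- the mixed term
  have h5 : ∑ i, Γ i i * vg i * kv i = ∑ i, (1 / 2 : ℝ) ^ l i * ((K *ᵥ (fun j => if n ≤ l j then D j * v j else 0)) i) * kv i := by
    have := zalg_dot hs hi (fun i => Γ i i * vg i) vg
    rw [← hkv] at this
    rw [this]
    refine sum_congr rfl fun i _ => ?_
    congr 1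
    simp only [Matrix.mulVec, dotProduct, mul_sum]
    refine sum_congr rfl fun j _ => ?_
    by_cases hj : l i = l j
    · rw [hj]
      simp only [hvg, hD]
      have hp : (1 / 2 : ℝ) ^ l j * 2 ^ l j = 1 := by rw [← mul_pow]; norm_num
      split_ifs with h
      · calc K i j * (Γ j j * v j) = ((1 / 2 : ℝ) ^ l j * 2 ^ l j) * (K i j * (Γ j j * v j)) := by
              rw [hp, one_mul]
          _ = _ := by ring
      · simp
    · rw [hb i j hj]; simp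
  have h6 : 2 * ∑ i, Γ i i * vg i * kv i ≤ (1 / 2 : ℝ) ^ n *
      (∑ i, (K *ᵥ (fun j => if n ≤ l j then D j * v j else 0)) i ^ 2 + ∑ i, kv i ^ 2) := by
    rw [h5, mul_sum, ← sum_add_distrib, mul_sum]
    refine sum_le_sum fun i _ => ?_
    set a := (K *ᵥ (fun j => if n ≤ l j then D j * v j else 0)) i with ha
    by_cases h : n ≤ l i
    · have hp : (1 / 2 : ℝ) ^ l i ≤ (1 / 2 : ℝ) ^ n :=
        pow_le_pow_of_le_one (by norm_num) (by norm_num) h
      have hq : (0 : ℝ) ≤ (1 / 2 : ℝ) ^ l i := by positivity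
      calc 2 * ((1 / 2 : ℝ) ^ l i * a * kv i) = (1 / 2 : ℝ) ^ l i * (2 * a * kv i) := by ring
        _ ≤ (1 / 2 : ℝ) ^ l i * (a ^ 2 + kv i ^ 2) :=
            mul_le_mul_of_nonneg_left (by nlinarith [sq_nonneg (a - kv i)]) hq
        _ ≤ (1 / 2 : ℝ) ^ n * (a ^ 2 + kv i ^ 2) :=
            mul_le_mul_of_nonneg_right hp (by positivity)
    · rw [hkv0 i h]
      simp only [mul_zero]
      positivity
  have h7 : ∑ i, (K *ᵥ (fun j => if n ≤ l j then D j * v j else 0)) i ^ 2 ≤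
      qf (Matrix.diagonal D * K * Matrix.diagonal D) v := by
    have := zalg_cut hs hi hb n (fun j => D j * v j)
    refine this.trans (le_of_eq ?_)
    simp only [qf]
    refine sum_congr rfl fun i _ => sum_congr rfl fun j _ => ?_
    rw [Matrix.mul_diagonal, Matrix.diagonal_mul]
    ring
  -- the diagonal term
  have hp2 : (1 / 2 : ℝ) ^ n ≤ 2 * τ := by
    have hp : (1 / 2 : ℝ) ^ n * 2 ^ n = 1 := by rw [← mul_pow]; norm_num
    have hq : (0 : ℝ) ≤ (1 / 2 : ℝ) ^ n := by positivity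
    calc (1 / 2 : ℝ) ^ n = (1 / 2 : ℝ) ^ n * 1 := by ring
      _ ≤ (1 / 2 : ℝ) ^ n * (2 ^ (n + 1) * τ) := mul_le_mul_of_nonneg_left hn hq
      _ = ((1 / 2 : ℝ) ^ n * 2 ^ n) * (2 * τ) := by ring
      _ = 2 * τ := by rw [hp, one_mul]
  have hΓsmall : ∀ i, n ≤ l i → Γ i i ≤ 2 * τ := by
    intro i h
    have hp : (1 / 2 : ℝ) ^ l i * 2 ^ l i = 1 := by rw [← mul_pow]; norm_num
    calc Γ i i = (1 / 2 : ℝ) ^ l i * (2 ^ l i * Γ i i) := by rw [← mul_assoc, hp, one_mul]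
      _ ≤ (1 / 2 : ℝ) ^ l i * 1 := mul_le_mul_of_nonneg_left (hl i) (by positivity)
      _ ≤ (1 / 2 : ℝ) ^ n := by
          rw [mul_one]; exact pow_le_pow_of_le_one (by norm_num) (by norm_num) h
      _ ≤ 2 * τ := hp2
  have h8 : ∑ i, (Γ i i - G i i) * z i ^ 2 ≤
      2 * ((θ + τ) * ∑ i, (if n ≤ l i then v i ^ 2 * ((Γ i i - G i i) / (θ + τ)) else 0))
      + 4 * ((θ + τ) * ∑ i, kv i ^ 2) := by
    rw [mul_sum, mul_sum, mul_sum, mul_sum, ← sum_add_distrib]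
    refine sum_le_sum fun i _ => ?_
    by_cases h : n ≤ l i
    · rw [if_pos h]
      have e1 : (θ + τ) * (v i ^ 2 * ((Γ i i - G i i) / (θ + τ))) = v i ^ 2 * (Γ i i - G i i) := by
        field_simp
      rw [e1]
      have e2 : z i = v i - kv i := by simp only [hz, hvg, if_pos h]
      rw [e2]
      have e3 : (v i - kv i) ^ 2 ≤ 2 * v i ^ 2 + 2 * kv i ^ 2 := by
        nlinarith [sq_nonneg (v i + kv i)]
      have e4 : (Γ i i - G i i) * kv i ^ 2 ≤ (2 * (θ + τ)) * kv i ^ 2 :=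
        mul_le_mul_of_nonneg_right (by linarith [hΓsmall i h, hGd i]) (by positivity)
      calc (Γ i i - G i i) * (v i - kv i) ^ 2 ≤ (Γ i i - G i i) * (2 * v i ^ 2 + 2 * kv i ^ 2) :=
            mul_le_mul_of_nonneg_left e3 (hΓGd i)
        _ = 2 * (v i ^ 2 * (Γ i i - G i i)) + 2 * ((Γ i i - G i i) * kv i ^ 2) := by ring
        _ ≤ 2 * (v i ^ 2 * (Γ i i - G i i)) + 2 * ((2 * (θ + τ)) * kv i ^ 2) := by linarith
        _ = _ := by ring
    · rw [if_neg h]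
      have e2 : z i = 0 := by simp only [hz, hvg, if_neg h, hkv0 i h]; ring
      rw [e2, hkv0 i h]; simp
  -- cut
  have h9 : qf (off ((1 - K) * Γ * (1 - K))) vg =
      qf (cut l n (off ((1 - K) * Γ * (1 - K)))) v := by
    simp only [qf, cut, hvg]
    refine sum_congr rfl fun i _ => sum_congr rfl fun j _ => ?_
    by_cases h : n ≤ l i <;> by_cases h' : n ≤ l j <;> simp [h, h']
  -- conclusion
  have hA : qf (off G) z ≤ qf (cut l n (off ((1 - K) * Γ * (1 - K)))) v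
      + (2 * τ) * (qf (Matrix.diagonal D * K * Matrix.diagonal D) v + ∑ i, kv i ^ 2)
      + (2 * ((θ + τ) * ∑ i, (if n ≤ l i then v i ^ 2 * ((Γ i i - G i i) / (θ + τ)) else 0))
      + 4 * ((θ + τ) * ∑ i, kv i ^ 2)) := by
    have a1 : (1 / 2 : ℝ) ^ n *
        (∑ i, (K *ᵥ (fun j => if n ≤ l j then D j * v j else 0)) i ^ 2 + ∑ i, kv i ^ 2) ≤
        (2 * τ) * (qf (Matrix.diagonal D * K * Matrix.diagonal D) v + ∑ i, kv i ^ 2) := by
      have hS0 : (0 : ℝ) ≤ ∑ i, (K *ᵥ (fun j => if n ≤ l j then D j * v j else 0)) i ^ 2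
          + ∑ i, kv i ^ 2 := by positivity
      exact mul_le_mul hp2 (by linarith) hS0 (by positivity)
    linarith
  have hS : 0 ≤ ∑ i, kv i ^ 2 := by positivity
  have hDKD : 0 ≤ qf (Matrix.diagonal D * K * Matrix.diagonal D) v := le_trans (by positivity) h7
  set X := qf (cut l n (off ((1 - K) * Γ * (1 - K)))) v
  set Y := qf (Matrix.diagonal D * K * Matrix.diagonal D) v
  set W := ∑ i, (if n ≤ l i then v i ^ 2 * ((Γ i i - G i i) / (θ + τ)) else 0)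
  set S := ∑ i, kv i ^ 2
  set R := ∑ i, (if n ≤ l i then (0 : ℝ) else v i ^ 2)
  have hB : 2 * qf (off G) z / (θ + τ) ≤ (2 / (θ + τ)) * X + 4 * (Y + S) + 4 * W + 8 * S := by
    rw [div_le_iff₀ hθτ]
    have e1 : ((2 / (θ + τ)) * X + 4 * (Y + S) + 4 * W + 8 * S) * (θ + τ)
        = 2 * X + (4 * (Y + S) + 4 * W + 8 * S) * (θ + τ) := by
      field_simp
      try ring
    rw [e1]
    have e2 : τ * (Y + S) ≤ (θ + τ) * (Y + S) :=
      mul_le_mul_of_nonneg_right (by linarith) (by linarith)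
    nlinarith
  rw [hbs]
  linarith

end Pool.Agent.BMF
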