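import Pool.Agent.BMF.DrEq
import Pool.Agent.BMF.ZAlg
import Pool.Agent.BMF.Trunc

/-!
# BMF DrBd: the drift bound for one set of blocks

`T` with `Tᶜ` nonempty, `U = Tᶜ`, `c ∈ T` (so `c ∉ U`), `N` larger than all levels `lv F c i`.
For every `A : {j // j ≠ c} → α` with `v_A = (F (ins c i A))_i`:
* if `v_A = 0` the summand of `dr_eq` is `0` and all terms below vanish;
* otherwise pick `i₀` with `F (ins c i₀ A) ≠ 0`; `n := nU F U (ins c i₀ A)` (`= nU F U (ins c i A)` for all `i`, `nU_ins`),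
  `τ := ∑ k, GA k k = tau F U (ins c i A)` (`GA_trace`), `1 ≤ 2^(n+1) τ` (`nU_tau`). Apply `zalg` with `Γ = Gam F c`, `G = GA F c U A`,
  `K = Kc F c` (`Kc_spec`), `l = lv F c` (`lv_le`).
Sum over `A`:
* `∑ A, qf K v_A = ip (Gam F c) K` (`ip_Gam`), same for `D K D` (`Dg F c`);
* `∑ A, ∑ i, [n ≤ l i] v i^2 (Γ i i - GA i i)/(θ+τ)`: `GA_diag`, `sum_ins` gives the summand `c` of `Et θ F T`; the last one gives the summand of `Ht F T`;
* main term: for `B = ins c i A` with `F B ≠ 0`, `2^(n+1)(θ+τ) ≥ 1`, so `pw θ F U B ^ 2 = 1/(2 * 2^n (θ+τ))`. Hence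
  `(2/(θ+τ)) qf (cut l n (off Gt)) v_A = 4 ∑ i k, (pw F)(ins c i A) * (pw F)(ins c k A) * 2^n * cut l n (off Gt) i k`, and summing over `A` by the value
  `n < N` of `nU`: `= 4 ∑ n ∈ range N, ip (Gam (Fn θ F U n) c) (2^n cut l n (off Gt))`.
-/

namespace Pool.Agent.BMF

open Finset Matrix

variable {ι α : Type} [Fintype ι] [DecidableEq ι] [Fintype α] [DecidableEq α]

omit [DecidableEq α] in
private lemma drbd_n {F : (ι → α) → ℝ} {U : Finset ι} (hU : U.Nonempty) {N : ℕ}
    (hN : ∀ c i, lv F c i < N) (B : ι → α) : nU F U B < N := by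
  unfold nU
  rw [dif_pos hU]
  obtain ⟨u, hu⟩ := hU
  exact (Finset.inf'_le _ hu).trans_lt (hN u (B u))

omit [DecidableEq α] in
private lemma drbd_qf (M : Matrix α α ℝ) (w r : ℝ) (v : α → ℝ) :
    qf (fun i k => r * M i k) (fun i => w * v i) = r * w ^ 2 * qf M v := by
  unfold qf
  simp only [mul_sum]
  refine sum_congr rfl fun i _ => sum_congr rfl fun j _ => by ring

omit [DecidableEq α] in
private lemma drbd_qf_zero (M : Matrix α α ℝ) {v : α → ℝ} (hv : ∀ i, v i = 0) :
    qf M v = 0 := by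
  unfold qf
  exact sum_eq_zero fun i _ => sum_eq_zero fun j _ => by rw [hv i, zero_mul, zero_mul]

private lemma drbd_A {F : (ι → α) → ℝ} (hF : mass F ≤ 1) {θ : ℝ} (hθ : 0 < θ) {U : Finset ι}
    (hU : U.Nonempty) {N : ℕ} (hN : ∀ c i, lv F c i < N) {c : ι} (hc : c ∉ U)
    (A : {j // j ≠ c} → α) :
    Ex (fun x => (∑ i, F (ins c i A) * x i) ^ 2 *
        Real.log ((θ + qf (GA F c U A) x) / (θ + ∑ k, GA F c U A k k))) ≤
      4 * ∑ n ∈ range N, qf (fun i k => 2 ^ n * cut (lv F c) n (off (Gt F c)) i k)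
          (fun i => Fn θ F U n (ins c i A))
      + 24 * qf (Kc F c) (fun i => F (ins c i A))
      + 4 * qf (Dg F c * Kc F c * Dg F c) (fun i => F (ins c i A))
      + 4 * ∑ i, F (ins c i A) ^ 2 * (if nU F U (ins c i A) ≤ lv F c (ins c i A c) then
          PU F c U (ins c i A) / (θ + tau F U (ins c i A)) else 0)
      + 12 * ∑ i, F (ins c i A) ^ 2 *
          (if nU F U (ins c i A) ≤ lv F c (ins c i A c) then 0 else 1) := by
  by_cases h0 : ∀ i, F (ins c i A) = 0
  · have e1 : (fun x : α → ℝ => (∑ i, F (ins c i A) * x i) ^ 2 *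
        Real.log ((θ + qf (GA F c U A) x) / (θ + ∑ k, GA F c U A k k))) = fun _ => 0 := by
      funext x
      rw [sum_eq_zero fun i _ => by rw [h0 i, zero_mul]]
      ring
    have e2 : ∀ n, qf (fun i k => 2 ^ n * cut (lv F c) n (off (Gt F c)) i k)
        (fun i => Fn θ F U n (ins c i A)) = 0 := by
      intro n
      refine drbd_qf_zero _ fun i => ?_
      unfold Fn
      rw [h0 i, mul_zero, ite_self]
    rw [e1, sum_eq_zero fun n _ => e2 n, drbd_qf_zero _ h0, drbd_qf_zero _ h0,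
      sum_eq_zero fun i _ => by rw [h0 i, zero_pow two_ne_zero, zero_mul],
      sum_eq_zero fun i _ => by rw [h0 i, zero_pow two_ne_zero, zero_mul]]
    simp [Ex]
  · push Not at h0
    obtain ⟨i₀, hi₀⟩ := h0
    have hn : ∀ i, nU F U (ins c i A) = nU F U (ins c i₀ A) := fun i => nU_ins F hc i i₀ A
    have hτ : ∀ i, tau F U (ins c i A) = ∑ k, GA F c U A k k := fun i =>
      (GA_trace F hc A i).symm
    have h1 := nU_tau hU hi₀
    rw [hτ i₀] at h1
    have h2 := zalg (Gam_psd F c) (GA_psd F c U A) (GA_le F c U A) (Kc_spec F c)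
      (lv_le hF c) rfl hθ h1 (fun i => F (ins c i A))
    have hn1 : nU F U (ins c i₀ A) < N := drbd_n hU hN _
    set n := nU F U (ins c i₀ A) with hndef
    set τ := ∑ k, GA F c U A k k with hτdef
    have hpos : (0 : ℝ) < 2 ^ n := by positivity
    have hτ0 : 0 ≤ τ := by rw [← hτ i₀]; exact tau_nonneg F U _
    have hs : 0 < θ + τ := by linarith
    -- the weight
    have hw : ∀ i, pw θ F U (ins c i A) = Real.sqrt (1 / (2 * (2 ^ n * (θ + τ)))) := by
      intro i
      unfold pw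
      rw [hn i, hτ i]
      refine min_eq_right ?_
      rw [Real.sqrt_le_one, div_le_one (by positivity)]
      have h3 : (2 : ℝ) ^ (n + 1) * τ = 2 * (2 ^ n * τ) := by ring
      rw [h3] at h1
      have h4 : 2 ^ n * τ ≤ 2 ^ n * (θ + τ) := by
        apply mul_le_mul_of_nonneg_left _ hpos.le
        linarith
      linarith
    have hmain : 4 * ∑ n ∈ range N, qf (fun i k => 2 ^ n * cut (lv F c) n (off (Gt F c)) i k)
          (fun i => Fn θ F U n (ins c i A)) =
        (2 / (θ + τ)) * qf (cut (lv F c) n (off (Gt F c))) (fun i => F (ins c i A)) := by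
      rw [sum_eq_single n]
      · have e1 : (fun i => Fn θ F U n (ins c i A)) =
            fun i => Real.sqrt (1 / (2 * (2 ^ n * (θ + τ)))) * F (ins c i A) := by
          funext i
          unfold Fn
          rw [if_pos (hn i), hw i]
        rw [e1, drbd_qf, Real.sq_sqrt (by positivity)]
        field_simp
        ring
      · intro m _ hm
        refine drbd_qf_zero _ fun i => ?_
        unfold Fn
        rw [hn i, if_neg (Ne.symm hm)]
      · intro h
        exact (h (mem_range.2 hn1)).elim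
    have h4 : ∀ i, F (ins c i A) ^ 2 * (if nU F U (ins c i A) ≤ lv F c (ins c i A c) then
          PU F c U (ins c i A) / (θ + tau F U (ins c i A)) else 0) =
        (if n ≤ lv F c i then F (ins c i A) ^ 2 *
          ((Gam F c i i - GA F c U A i i) / (θ + τ)) else 0) := by
      intro i
      rw [hn i, ins_self, GA_diag F hc A i, hτ i]
      split_ifs
      · rfl
      · rw [mul_zero]
    have h5 : ∀ i, F (ins c i A) ^ 2 *
          (if nU F U (ins c i A) ≤ lv F c (ins c i A c) then (0 : ℝ) else 1) =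
        (if n ≤ lv F c i then 0 else F (ins c i A) ^ 2) := by
      intro i
      rw [hn i, ins_self]
      split_ifs
      · rw [mul_zero]
      · rw [mul_one]
    rw [hmain, sum_congr rfl fun i _ => h4 i, sum_congr rfl fun i _ => h5 i]
    exact h2

theorem dr_bound {F : (ι → α) → ℝ} (hF : mass F ≤ 1) {θ : ℝ} (hθ : 0 < θ) {T : Finset ι}
    (hT : Tᶜ.Nonempty) {N : ℕ} (hN : ∀ c i, lv F c i < N) :
    ∑ c ∈ T, Dr θ F c Tᶜ ≤
      4 * ∑ n ∈ range N, Yc θ F T n n
      + 24 * ∑ c ∈ T, ip (Gam F c) (Kc F c)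
      + 4 * ∑ c ∈ T, ip (Gam F c) (Dg F c * Kc F c * Dg F c)
      + 4 * Et θ F T + 12 * Ht F T := by
  have key : ∀ c ∈ T, Dr θ F c Tᶜ ≤
      4 * ∑ n ∈ range N, ip (Gam (Fn θ F Tᶜ n) c)
        (fun i k => 2 ^ n * cut (lv F c) n (off (Gt F c)) i k)
      + 24 * ip (Gam F c) (Kc F c)
      + 4 * ip (Gam F c) (Dg F c * Kc F c * Dg F c)
      + 4 * ∑ B, F B ^ 2 * (if nU F Tᶜ B ≤ lv F c (B c) then
          PU F c Tᶜ B / (θ + tau F Tᶜ B) else 0)
      + 12 * ∑ B, F B ^ 2 * (if nU F Tᶜ B ≤ lv F c (B c) then 0 else 1) := by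
    intro c hc
    have hc' : c ∉ Tᶜ := by
      rw [mem_compl, not_not]
      exact hc
    rw [dr_eq F hc' hθ, ip_Gam, ip_Gam,
      sum_ins c (fun B => F B ^ 2 * (if nU F Tᶜ B ≤ lv F c (B c) then
          PU F c Tᶜ B / (θ + tau F Tᶜ B) else 0)),
      sum_ins c (fun B => F B ^ 2 * (if nU F Tᶜ B ≤ lv F c (B c) then (0 : ℝ) else 1))]
    have e1 : ∑ n ∈ range N, ip (Gam (Fn θ F Tᶜ n) c)
        (fun i k => 2 ^ n * cut (lv F c) n (off (Gt F c)) i k) =
        ∑ A : {j // j ≠ c} → α, ∑ n ∈ range N,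
          qf (fun i k => 2 ^ n * cut (lv F c) n (off (Gt F c)) i k)
          (fun i => Fn θ F Tᶜ n (ins c i A)) := by
      rw [sum_comm]
      exact sum_congr rfl fun n _ => ip_Gam _ _ _
    rw [e1, mul_sum, mul_sum, mul_sum, mul_sum, mul_sum, ← sum_add_distrib, ← sum_add_distrib,
      ← sum_add_distrib, ← sum_add_distrib]
    exact sum_le_sum fun A _ => drbd_A hF hθ hT hN hc' A
  refine (sum_le_sum key).trans (le_of_eq ?_)
  unfold Yc Et Ht
  rw [sum_add_distrib, sum_add_distrib, sum_add_distrib, sum_add_distrib, ← mul_sum, ← mul_sum,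
    ← mul_sum, ← mul_sum, ← mul_sum, sum_comm]

end Pool.Agent.BMF
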