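import Pool.Agent.BMF.Four

/-!
# BMF DrEq: the drift as a sum over the choices of the other variables

Let `c ∉ U`. For `A : {j // j ≠ c} → α` let `v_A i = F (ins c i A)` and
`GA F c U A i j = ∑ A', if (∃ u ∈ subU c U, A u = A' u) then F (ins c i A') * F (ins c j A') else 0`.
`tauA F c U A = ∑ i, GA F c U A i i` (definition: trace) equals `tau F U (ins c i A)` for every `i` (`sum_ins`; `u ∈ U` implies `u ≠ c`).
`dr_eq`: `Lp θ (rev F c x) (subU c U) = ∑ A, ⟨v_A,x⟩^2 log (1 + qf (GA A) x / θ)` because `tau (rev F c x) (subU c U) A = ∑_{A' hits A} ⟨v_A',x⟩^2 = qf (GA A) x`;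
`Lp θ F U = ∑ A, ∑ i, v_A i^2 * log (1 + tauA A / θ) = ∑ A, Ex ⟨v_A,x⟩^2 * log (1 + tauA A/θ)` (`Ex_sq`), and
`log (1 + a/θ) - log (1 + b/θ) = log ((θ + a)/(θ + b))` for `a, b ≥ 0`.
`GA_le`: `Gam F c - GA F c U A = ∑_{A' not hitting A} v_A' v_A'ᵀ` is PSD; `GA` is PSD.
`GA_diag`: `Gam F c i i - GA F c U A i i = PU F c U (ins c i A)`.
`dr_empty`: for `U = ∅` all `tau` vanish and `log 1 = 0`, so `Dr = 0`.
-/

namespace Pool.Agent.BMF

open Finset Matrix

variable {ι α : Type} [Fintype ι] [DecidableEq ι] [Fintype α] [DecidableEq α]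

/-- the local coherence matrix -/
def GA (F : (ι → α) → ℝ) (c : ι) (U : Finset ι) (A : {j // j ≠ c} → α) : Matrix α α ℝ :=
  fun i j => ∑ A' : {j // j ≠ c} → α,
    if ∃ u ∈ subU c U, A u = A' u then F (ins c i A') * F (ins c j A') else 0

lemma GA_trace (F : (ι → α) → ℝ) {c : ι} {U : Finset ι} (hc : c ∉ U) (A : {j // j ≠ c} → α)
    (i : α) : ∑ k, GA F c U A k k = tau F U (ins c i A) := by
  sorry

lemma GA_psd (F : (ι → α) → ℝ) (c : ι) (U : Finset ι) (A : {j // j ≠ c} → α) :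
    (GA F c U A).PosSemidef := by
  sorry

lemma GA_le (F : (ι → α) → ℝ) (c : ι) (U : Finset ι) (A : {j // j ≠ c} → α) :
    (Gam F c - GA F c U A).PosSemidef := by
  sorry

lemma GA_diag (F : (ι → α) → ℝ) {c : ι} {U : Finset ι} (hc : c ∉ U) (A : {j // j ≠ c} → α)
    (i : α) : Gam F c i i - GA F c U A i i = PU F c U (ins c i A) := by
  sorry

theorem dr_eq (F : (ι → α) → ℝ) {c : ι} {U : Finset ι} (hc : c ∉ U) {θ : ℝ} (hθ : 0 < θ) :
    Dr θ F c U = ∑ A : {j // j ≠ c} → α,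
      Ex (fun x => (∑ i, F (ins c i A) * x i) ^ 2 *
        Real.log ((θ + qf (GA F c U A) x) / (θ + ∑ k, GA F c U A k k))) := by
  sorry

theorem dr_empty (F : (ι → α) → ℝ) (c : ι) (θ : ℝ) : Dr θ F c ∅ = 0 := by
  sorry

end Pool.Agent.BMF
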