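import Pool.Agent.BMF.Basic

/-!
# BMF Etype: exclusive masses

Claim: `∑ T, Et θ F T ≤ 2^|ι| * (3 * mass F)`.
Proof. Fix `B` with `F B ≠ 0`, `T`, `c ∈ T`, `U = Tᶜ`, and suppose `nU F U B ≤ lv F c (B c)`. Put `r = PU F c U B`, `s = θ + tau F U B`.
If `U` is empty then `nU = 0`; there `tau = 0` and the bound `r ≤ 2 s` may fail, so treat `U = ∅` separately: see below.
For `U ≠ ∅`: `r ≤ Gam F c (B c) (B c) ≤ 2^(-lv F c (B c)) ≤ 2^(-nU F U B) ≤ 2 tau F U B ≤ 2 s` (`lv_le`, `nU_tau`), so `r / s ≤ 3 r / (s + r)`.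
`s + r = θ + tau F (insert c U) B` (disjoint events: `B'` meets `B` in `U`, or only in `c`). Hence for `U ≠ ∅` the summand is at most
`3 F B^2 * PU F c U B / (θ + tau F (insert c U) B)`. Substitute `U'' = insert c U` (a bijection between the pairs `(U, c)`, `c ∉ U`, and the
pairs `(U'', c)`, `c ∈ U''`): the sum over all `(T, c)` is at most
`3 F B^2 ∑_{U''} ∑_{c ∈ U''} (∑ B' with {u ∈ U'' : B' u = B u} = {c}, F B'^2) / (θ + tau F U'' B) ≤ 3 F B^2 ∑_{U''} 1 = 3 F B^2 2^|ι|`
because the events `{u ∈ U'' : B' u = B u} = {c}` are disjoint for different `c` and contained in the event counted by `tau F U'' B`.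
The statement below only sums over `T ≠ univ` (`Tᶜ` nonempty).
-/

namespace Pool.Agent.BMF

open Finset Matrix

variable {ι α : Type} [Fintype ι] [DecidableEq ι] [Fintype α] [DecidableEq α]

private lemma etype_PU_nonneg (F : (ι → α) → ℝ) (c : ι) (U : Finset ι) (B : ι → α) :
    0 ≤ PU F c U B := by
  unfold PU
  refine sum_nonneg fun B' _ => ?_
  split_ifs
  · positivity
  · exact le_rfl

private lemma etype_PU_le (F : (ι → α) → ℝ) (c : ι) (U : Finset ι) (B : ι → α) :
    PU F c U B ≤ Gam F c (B c) (B c) := by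
  rw [Gam_diag]
  unfold PU
  refine sum_le_sum fun B' _ => ?_
  by_cases h : B' c = B c
  · rw [if_pos h]
    split_ifs
    · exact le_rfl
    · positivity
  · rw [if_neg h, if_neg fun h' => h h'.1]

private lemma etype_tau (F : (ι → α) → ℝ) (c : ι) (U : Finset ι) (B : ι → α) :
    tau F (insert c U) B = tau F U B + PU F c U B := by
  unfold tau PU
  rw [← sum_add_distrib]
  refine sum_congr rfl fun B' _ => ?_
  by_cases h1 : ∃ u ∈ U, B u = B' u
  · have h2 : ∃ u ∈ insert c U, B u = B' u := by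
      obtain ⟨u, hu, h⟩ := h1
      exact ⟨u, mem_insert_of_mem hu, h⟩
    rw [if_pos h1, if_pos h2, if_neg fun h => h.2 h1, add_zero]
  · by_cases h3 : B' c = B c
    · have h2 : ∃ u ∈ insert c U, B u = B' u := ⟨c, mem_insert_self _ _, h3.symm⟩
      rw [if_neg h1, if_pos h2, if_pos ⟨h3, h1⟩, zero_add]
    · have h2 : ¬ ∃ u ∈ insert c U, B u = B' u := by
        rintro ⟨u, hu, h⟩
        rcases mem_insert.1 hu with rfl | hu
        · exact h3 h.symm
        · exact h1 ⟨u, hu, h⟩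
      rw [if_neg h1, if_neg h2, if_neg fun h => h3 h.1, add_zero]

private lemma etype_pt {F : (ι → α) → ℝ} (hF : mass F ≤ 1) {θ : ℝ} (hθ : 0 < θ) {U : Finset ι}
    (hU : U.Nonempty) (c : ι) (B : ι → α) :
    F B ^ 2 * (if nU F U B ≤ lv F c (B c) then PU F c U B / (θ + tau F U B) else 0) ≤
      3 * (F B ^ 2 * (PU F c U B / (θ + tau F (insert c U) B))) := by
  have hr := etype_PU_nonneg F c U B
  have ht := tau_nonneg F U B
  rw [etype_tau]
  have hs : 0 < θ + tau F U B := by linarith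
  have hs' : 0 < θ + (tau F U B + PU F c U B) := by linarith
  have hnn : 0 ≤ PU F c U B / (θ + (tau F U B + PU F c U B)) := by positivity
  by_cases h0 : F B = 0
  · rw [h0]
    simp
  by_cases h1 : nU F U B ≤ lv F c (B c)
  · rw [if_pos h1]
    have h2 := etype_PU_le F c U B
    have h3 := lv_le hF c (B c)
    have h4 := nU_tau hU h0
    have hpos : (0 : ℝ) < 2 ^ nU F U B := by positivity
    have h5 : (2 : ℝ) ^ nU F U B * Gam F c (B c) (B c) ≤ 1 :=
      (mul_le_mul_of_nonneg_right (pow_le_pow_right₀ (by norm_num) h1)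
        (Gam_diag_nonneg F c (B c))).trans h3
    have h6 : (2 : ℝ) ^ nU F U B * Gam F c (B c) (B c) ≤
        2 ^ nU F U B * (2 * tau F U B) := by
      refine h5.trans (h4.trans (le_of_eq ?_))
      ring
    have h7 := le_of_mul_le_mul_left h6 hpos
    have h8 : PU F c U B ≤ 2 * (θ + tau F U B) := by linarith
    have h9 : PU F c U B / (θ + tau F U B) ≤
        3 * (PU F c U B / (θ + (tau F U B + PU F c U B))) := by
      rw [← mul_div_assoc, div_le_div_iff₀ hs hs']
      nlinarith [mul_nonneg hr (sub_nonneg.2 h8)]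
    calc F B ^ 2 * (PU F c U B / (θ + tau F U B))
        ≤ F B ^ 2 * (3 * (PU F c U B / (θ + (tau F U B + PU F c U B)))) :=
          mul_le_mul_of_nonneg_left h9 (sq_nonneg _)
      _ = _ := by ring
  · rw [if_neg h1, mul_zero]
    positivity

private lemma etype_reindex (F : (ι → α) → ℝ) (θ : ℝ) (B : ι → α) :
    ∑ T : Finset ι, ∑ c ∈ T, PU F c Tᶜ B / (θ + tau F (insert c Tᶜ) B) =
      ∑ U : Finset ι, ∑ c ∈ U, PU F c (U.erase c) B / (θ + tau F U B) := by
  rw [Finset.sum_sigma', Finset.sum_sigma']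
  have hinv : ∀ (T : Finset ι) (c : ι), c ∈ T → insert c (insert c Tᶜ)ᶜ = T := by
    intro T c hc
    ext u
    simp only [mem_insert, mem_compl, not_or, not_not]
    constructor
    · rintro (rfl | ⟨_, h⟩)
      · exact hc
      · exact h
    · intro h
      by_cases hu : u = c
      · exact Or.inl hu
      · exact Or.inr ⟨hu, h⟩
  refine Finset.sum_nbij' (fun x => ⟨insert x.2 x.1ᶜ, x.2⟩) (fun x => ⟨insert x.2 x.1ᶜ, x.2⟩)
    ?_ ?_ ?_ ?_ ?_
  · rintro ⟨T, c⟩ _
    exact mem_sigma.2 ⟨mem_univ _, mem_insert_self _ _⟩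
  · rintro ⟨T, c⟩ _
    exact mem_sigma.2 ⟨mem_univ _, mem_insert_self _ _⟩
  · rintro ⟨T, c⟩ h
    exact Sigma.ext (hinv T c (mem_sigma.1 h).2) (heq_of_eq rfl)
  · rintro ⟨T, c⟩ h
    exact Sigma.ext (hinv T c (mem_sigma.1 h).2) (heq_of_eq rfl)
  · rintro ⟨T, c⟩ h
    have hc : c ∉ Tᶜ := by
      rw [mem_compl, not_not]
      exact (mem_sigma.1 h).2
    simp only
    rw [erase_insert hc]

private lemma etype_U (F : (ι → α) → ℝ) (U : Finset ι) (B : ι → α) :
    ∑ c ∈ U, PU F c (U.erase c) B ≤ tau F U B := by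
  unfold PU tau
  rw [sum_comm]
  refine sum_le_sum fun B' _ => ?_
  have hle1 : ∀ c, (if B' c = B c ∧ ¬ ∃ u ∈ U.erase c, B u = B' u then F B' ^ 2 else 0) ≤
      F B' ^ 2 := by
    intro c
    split_ifs
    · exact le_rfl
    · positivity
  by_cases h : ∃ u ∈ U, B u = B' u
  · rw [if_pos h]
    obtain ⟨u, hu, huB⟩ := h
    rw [← Finset.add_sum_erase _ _ hu, sum_eq_zero, add_zero]
    · exact hle1 u
    · intro c hc
      refine if_neg fun h' => h'.2 ⟨u, ?_, huB⟩
      exact mem_erase.2 ⟨(ne_of_mem_erase hc).symm, hu⟩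
  · rw [if_neg h]
    refine le_of_eq (sum_eq_zero fun c hc => ?_)
    exact if_neg fun h' => h ⟨c, hc, h'.1.symm⟩

theorem etype {F : (ι → α) → ℝ} (hF : mass F ≤ 1) {θ : ℝ} (hθ : 0 < θ) :
    ∑ T ∈ (univ : Finset (Finset ι)).filter (fun T => Tᶜ.Nonempty), Et θ F T ≤
      2 ^ Fintype.card ι * (3 * mass F) := by
  have h1 : ∀ T ∈ (univ : Finset (Finset ι)).filter (fun T => Tᶜ.Nonempty), Et θ F T ≤
      ∑ B, 3 * (F B ^ 2 * ∑ c ∈ T, PU F c Tᶜ B / (θ + tau F (insert c Tᶜ) B)) := by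
    intro T hT
    unfold Et
    rw [sum_comm]
    refine sum_le_sum fun B _ => ?_
    rw [mul_sum, mul_sum]
    exact sum_le_sum fun c _ => etype_pt hF hθ (mem_filter.1 hT).2 c B
  have hnn : ∀ (T : Finset ι) (B : ι → α),
      0 ≤ ∑ c ∈ T, PU F c Tᶜ B / (θ + tau F (insert c Tᶜ) B) := by
    intro T B
    refine sum_nonneg fun c _ => div_nonneg (etype_PU_nonneg F c _ B) ?_
    have := tau_nonneg F (insert c Tᶜ) B
    linarith
  calc ∑ T ∈ (univ : Finset (Finset ι)).filter (fun T => Tᶜ.Nonempty), Et θ F T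
      ≤ ∑ T ∈ (univ : Finset (Finset ι)).filter (fun T => Tᶜ.Nonempty),
          ∑ B, 3 * (F B ^ 2 * ∑ c ∈ T, PU F c Tᶜ B / (θ + tau F (insert c Tᶜ) B)) :=
        sum_le_sum h1
    _ ≤ ∑ T : Finset ι,
          ∑ B, 3 * (F B ^ 2 * ∑ c ∈ T, PU F c Tᶜ B / (θ + tau F (insert c Tᶜ) B)) := by
        refine sum_le_sum_of_subset_of_nonneg (filter_subset _ _) fun T _ _ => ?_
        refine sum_nonneg fun B _ => ?_
        have := hnn T B
        positivity
    _ = ∑ B, 3 * (F B ^ 2 * ∑ U : Finset ι, ∑ c ∈ U,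
          PU F c (U.erase c) B / (θ + tau F U B)) := by
        rw [sum_comm]
        refine sum_congr rfl fun B _ => ?_
        rw [← mul_sum, ← mul_sum, etype_reindex]
    _ ≤ ∑ B, 3 * (F B ^ 2 * 2 ^ Fintype.card ι) := by
        refine sum_le_sum fun B _ => ?_
        refine mul_le_mul_of_nonneg_left (mul_le_mul_of_nonneg_left ?_ (sq_nonneg _))
          (by norm_num)
        have h2 : ∀ U : Finset ι, ∑ c ∈ U, PU F c (U.erase c) B / (θ + tau F U B) ≤ 1 := by
          intro U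
          have h3 := tau_nonneg F U B
          rw [← sum_div, div_le_one (by linarith)]
          have := etype_U F U B
          linarith
        refine (sum_le_sum fun U _ => h2 U).trans (le_of_eq ?_)
        rw [sum_const, card_univ, Fintype.card_finset, nsmul_eq_mul, mul_one]
        push_cast
        rfl
    _ = 2 ^ Fintype.card ι * (3 * mass F) := by
        unfold mass
        rw [mul_sum, mul_sum]
        refine sum_congr rfl fun B _ => by ring

end Pool.Agent.BMF
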