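import Pool.Agent.BMF.LemT

/-!
# BMF Fam: multipliers of the `Tᶜ`-labels are free

Proof of `hyp_of_bdd`. Fix sign vectors `x`. For `y : ι → α` call `y' ~ y` if they agree outside `T`. With `S j = signMat (x j)` for
`j ∈ T`, `S j = 1` otherwise, `∏ j, S j (B j) (B' j) = [B = B' outside T] * (∏ j ∈ T, sg (x j (B j))) * (∏ j ∈ T, sg (x j (B' j)))`.
Group the double sum by the restriction `y` of `B` (and `B'`) to `Tᶜ`: `quad (p F) S = ∑ y, p(y)^2 g(y)^2 ≤ ∑ y, g(y)^2` with
`g(y) = ∑ (B = y outside T) F B ∏ j ∈ T, sg (x j (B j))`, and `∑ y, g(y)^2 = average over the signs of the blocks of Tᶜ of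
(ev F x)^2 ≤ 1` (orthogonality of the characters `∏ j ∉ T, sg (x j (y j))`).
(One may avoid the grouping: `∑ y g(y)^2 = average of ev F (x')^2` over `x'` which agree with `x` on `T`; and
`quad (p F) S = ∑_B ∑_B' p B ^ 2 F B F B' ∏ S` because `p B = p B'` whenever the product is nonzero.)
`lemT_bdd`: `lemT` for `p F`; `mass (p F) ≤ mass F ≤ 1` and `negMulLog_le_Hb`; `Gam (p F) j i i ≤ Gam F j i i`, so
`INC (Gam (pF) j) ≤ INC (Gam F j)`.
-/

namespace Pool.Agent.BMF

open Finset Matrix

variable {ι α : Type} [Fintype ι] [DecidableEq ι] [Fintype α] [DecidableEq α]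

/-- restriction to the blocks outside `T` -/
private def rst (T : Finset ι) (B : ι → α) : {j // ¬ j ∈ T} → α := fun j => B j

/-- the character of the blocks of `T` -/
private noncomputable def wT (T : Finset ι) (x : ι → α → Bool) (B : ι → α) : ℝ :=
  ∏ j ∈ T, sg (x j (B j))

/-- the form with the blocks of `T` replaced by signs -/
private noncomputable def gT (T : Finset ι) (x : ι → α → Bool) (H : (ι → α) → ℝ)
    (y : {j // ¬ j ∈ T} → α) : ℝ :=
  ∑ B : ι → α, if rst T B = y then H B * wT T x B else 0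

private lemma prod_split (T : Finset ι) (f : ι → ℝ) :
    ∏ j, f j = (∏ j ∈ T, f j) * ∏ j : {j // ¬ j ∈ T}, f j := by
  rw [← Finset.prod_mul_prod_compl T f, Finset.prod_subtype Tᶜ (fun x => Finset.mem_compl) f]

private lemma prod_S (T : Finset ι) (x : ι → α → Bool) (B B' : ι → α) :
    ∏ j, (if j ∈ T then signMat (x j) else 1 : Matrix α α ℝ) (B j) (B' j) =
      if rst T B = rst T B' then wT T x B * wT T x B' else 0 := by
  rw [prod_split T]
  have e1 : ∏ j ∈ T, (if (j : ι) ∈ T then signMat (x j) else 1 : Matrix α α ℝ)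
      (B j) (B' j) = wT T x B * wT T x B' := by
    unfold wT
    rw [← Finset.prod_mul_distrib]
    refine Finset.prod_congr rfl fun j hj => ?_
    rw [if_pos hj]
    rfl
  have e2 : ∏ j : {j // ¬ j ∈ T}, (if (j : ι) ∈ T then signMat (x j) else 1 : Matrix α α ℝ)
      (B j) (B' j) = if rst T B = rst T B' then 1 else 0 := by
    have h1 : ∀ j : {j // ¬ j ∈ T}, (if (j : ι) ∈ T then signMat (x j) else 1 : Matrix α α ℝ)
        (B j) (B' j) = if B j = B' j then 1 else 0 := by
      intro j
      rw [if_neg j.2, Matrix.one_apply]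
    rw [Finset.prod_congr rfl (fun j _ => h1 j), Finset.prod_boole]
    congr 1
    simp only [Finset.mem_univ, true_implies, eq_iff_iff]
    constructor
    · intro h
      funext j
      exact h j
    · intro h j
      exact congrFun h j
  rw [e1, e2]
  split_ifs <;> simp

private lemma quad_eq (T : Finset ι) (x : ι → α → Bool) (H : (ι → α) → ℝ) :
    quad H (fun j => if j ∈ T then signMat (x j) else 1) = ∑ y, gT T x H y ^ 2 := by
  unfold quad gT
  simp only [prod_S, pow_two, Finset.sum_mul_sum]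
  rw [Finset.sum_comm]
  symm
  rw [Finset.sum_comm]
  refine Finset.sum_congr rfl fun B _ => ?_
  rw [Finset.sum_comm]
  refine Finset.sum_congr rfl fun B' _ => ?_
  have h1 : ∀ y : {j // ¬ j ∈ T} → α, ((if rst T B = y then H B * wT T x B else 0) *
      if rst T B' = y then H B' * wT T x B' else 0) =
      if rst T B = y then (if rst T B' = rst T B then H B * wT T x B * (H B' * wT T x B') else 0)
        else 0 := by
    intro y
    by_cases h : rst T B = y
    · subst h
      rw [if_pos rfl, if_pos rfl]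
      split_ifs <;> simp
    · rw [if_neg h, if_neg h, zero_mul]
  rw [Finset.sum_congr rfl (fun y _ => h1 y), Finset.sum_ite_eq, if_pos (Finset.mem_univ _)]
  by_cases h : rst T B' = rst T B
  · rw [if_pos h, if_pos h]
    ring
  · rw [if_neg h, if_neg h, mul_zero]

private lemma gT_bdd {F : (ι → α) → ℝ} (hF : BddF F) (T : Finset ι) (x : ι → α → Bool) :
    BddF (gT T x F) := by
  intro z
  have h1 := hF (fun j i => if h : j ∈ T then x j i else z ⟨j, h⟩ i)
  have h2 : ev (gT T x F) (fun j i => sg (z j i)) =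
      ev F (fun j i => sg ((fun j i => if h : j ∈ T then x j i else z ⟨j, h⟩ i) j i)) := by
    unfold ev gT
    simp only [Finset.sum_mul]
    rw [Finset.sum_comm]
    refine Finset.sum_congr rfl fun B _ => ?_
    have h3 : ∀ y : {j // ¬ j ∈ T} → α, ((if rst T B = y then F B * wT T x B else 0) *
        ∏ j, sg (z j (y j))) = if rst T B = y then
          F B * wT T x B * ∏ j : {j // ¬ j ∈ T}, sg (z j (rst T B j)) else 0 := by
      intro y
      by_cases h : rst T B = y
      · subst h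
        rw [if_pos rfl, if_pos rfl]
      · rw [if_neg h, if_neg h, zero_mul]
    rw [Finset.sum_congr rfl (fun y _ => h3 y), Finset.sum_ite_eq, if_pos (Finset.mem_univ _),
      mul_assoc]
    congr 1
    rw [prod_split T]
    congr 1
    · unfold wT
      refine Finset.prod_congr rfl fun j hj => ?_
      rw [dif_pos hj]
    · refine Finset.prod_congr rfl fun j _ => ?_
      rw [dif_neg j.2]
      rfl
  rw [h2]
  exact h1

private lemma gT_mul_sq {T : Finset ι} (x : ι → α → Bool) (F p : (ι → α) → ℝ)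
    (hp : ∀ B B' : ι → α, (∀ j, j ∉ T → B j = B' j) → p B = p B') (h1 : ∀ B, |p B| ≤ 1)
    (y : {j // ¬ j ∈ T} → α) : gT T x (fun B => p B * F B) y ^ 2 ≤ gT T x F y ^ 2 := by
  by_cases hy : ∃ B₀ : ι → α, rst T B₀ = y
  · obtain ⟨B₀, hB₀⟩ := hy
    have h2 : gT T x (fun B => p B * F B) y = p B₀ * gT T x F y := by
      unfold gT
      rw [Finset.mul_sum]
      refine Finset.sum_congr rfl fun B _ => ?_
      by_cases h : rst T B = y
      · rw [if_pos h, if_pos h]
        have h3 : p B = p B₀ := by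
          apply hp
          intro j hj
          exact congrFun (h.trans hB₀.symm) ⟨j, hj⟩
        show p B * F B * wT T x B = p B₀ * (F B * wT T x B)
        rw [h3]
        ring
      · rw [if_neg h, if_neg h, mul_zero]
    rw [h2, mul_pow]
    have h3 : p B₀ ^ 2 ≤ 1 := by
      rw [← sq_abs]
      exact pow_le_one₀ (abs_nonneg _) (h1 B₀)
    exact mul_le_of_le_one_left (sq_nonneg _) h3
  · have h2 : ∀ H : (ι → α) → ℝ, gT T x H y = 0 := by
      intro H
      unfold gT
      refine Finset.sum_eq_zero fun B _ => ?_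
      rw [if_neg (fun h => hy ⟨B, h⟩)]
    rw [h2, h2]

theorem hyp_of_bdd {T : Finset ι} {F : (ι → α) → ℝ} (hF : BddF F) (p : (ι → α) → ℝ)
    (hp : ∀ B B' : ι → α, (∀ j, j ∉ T → B j = B' j) → p B = p B') (h1 : ∀ B, |p B| ≤ 1) :
    Hyp T (fun B => p B * F B) := by
  intro x
  rw [quad_eq]
  exact (Finset.sum_le_sum fun y _ => gT_mul_sq x F p hp h1 y).trans (mass_le_one (gT_bdd hF T x))

private lemma sq_mul_le {a b : ℝ} (h : |a| ≤ 1) : (a * b) * (a * b) ≤ b * b := by
  have h3 : a ^ 2 ≤ 1 := by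
    rw [← sq_abs]
    exact pow_le_one₀ (abs_nonneg _) h
  nlinarith [sq_nonneg b]

lemma Gam_mul_diag_le {F : (ι → α) → ℝ} (p : (ι → α) → ℝ) (h1 : ∀ B, |p B| ≤ 1) (c : ι) (i : α) :
    Gam (fun B => p B * F B) c i i ≤ Gam F c i i :=
  Finset.sum_le_sum fun _ _ => sq_mul_le (h1 _)

theorem lemT_bdd {T : Finset ι} {F : (ι → α) → ℝ} (hF : BddF F) (p : (ι → α) → ℝ)
    (hp : ∀ B B' : ι → α, (∀ j, j ∉ T → B j = B' j) → p B = p B') (h1 : ∀ B, |p B| ≤ 1)
    (Q : ι → Matrix α α ℝ) (hQ : ∀ j ∈ T, Ctr (Q j)) :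
    ∑ j ∈ T, ip (Gam (fun B => p B * F B) j) (off (Q j)) ≤
      11 * Hb (mass F) + (1 / 6) * ∑ j ∈ T, INC (Gam F j) (Q j) := by
  have h2 := lemT (hyp_of_bdd hF p hp h1) Q hQ
  have h3 : mass (fun B => p B * F B) ≤ mass F := by
    refine Finset.sum_le_sum fun B _ => ?_
    have := sq_mul_le (b := F B) (h1 B)
    nlinarith
  have h4 := negMulLog_le_Hb (mass_nonneg (fun B => p B * F B)) h3 (mass_le_one hF)
  have h5 : ∑ j ∈ T, INC (Gam (fun B => p B * F B) j) (Q j) ≤ ∑ j ∈ T, INC (Gam F j) (Q j) := by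
    refine Finset.sum_le_sum fun j _ => Finset.sum_le_sum fun i _ => ?_
    exact mul_le_mul_of_nonneg_right (Gam_mul_diag_le p h1 j i)
      (Finset.sum_nonneg fun k _ => sq_nonneg _)
  linarith

/-- the case of the trivial multiplier -/
theorem lemT_one {F : (ι → α) → ℝ} (hF : BddF F) (T : Finset ι)
    (Q : ι → Matrix α α ℝ) (hQ : ∀ j ∈ T, Ctr (Q j)) :
    ∑ j ∈ T, ip (Gam F j) (off (Q j)) ≤
      11 * Hb (mass F) + (1 / 6) * ∑ j ∈ T, INC (Gam F j) (Q j) := by
  have h := lemT_bdd (T := T) hF (fun _ => 1) (fun _ _ _ => rfl) (fun _ => by simp) Q hQ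
  simpa using h

end Pool.Agent.BMF
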