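import Pool.Agent.BMF.Basic

/-!
# BMF Four: moments of random signs

`Ex g` is the average over all sign vectors. Proofs: linearity of the finite sum and
`∑ x : α → Bool, sg (x i) * sg (x j) = if i = j then 2^|α| else 0`; four factors: for a symmetric matrix `G`
`Ex (⟨v,x⟩^2 qf G x) = ∑ i j k l, v i v j G k l E[x i x j x k x l]` and the expectation is `1` if the indices pair up, else `0`:
`= ∑ i, v i^2 * ∑ k, G k k` (pairing `i=j`, `k=l`) `+ 2 ∑ i ≠ j, v i v j G i j` (pairings `k=i,l=j` and `k=j,l=i`, `i ≠ j`).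
A convenient way: write `⟨v,x⟩^2 = ∑ v^2 + ∑_{i≠j} v_i v_j x_i x_j`, `qf G x = ∑ G i i + ∑_{k≠l} G k l x_k x_l`, mixed terms have mean zero, and
`E[x_i x_j x_k x_l] = [k=i][l=j] + [k=j][l=i]` for `i ≠ j`, `k ≠ l` (flip the sign of a coordinate which occurs once).
-/

namespace Pool.Agent.BMF

open Finset Matrix

variable {α : Type} [Fintype α] [DecidableEq α]

lemma Ex_add (f g : (α → ℝ) → ℝ) : Ex (fun x => f x + g x) = Ex f + Ex g := by
  sorry

lemma Ex_sub (f g : (α → ℝ) → ℝ) : Ex (fun x => f x - g x) = Ex f - Ex g := by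
  sorry

lemma Ex_mul_left (r : ℝ) (g : (α → ℝ) → ℝ) : Ex (fun x => r * g x) = r * Ex g := by
  sorry

lemma Ex_const (r : ℝ) : Ex (fun _ : α → ℝ => r) = r := by
  sorry

lemma Ex_sum {β : Type} (s : Finset β) (g : β → (α → ℝ) → ℝ) :
    Ex (fun x => ∑ b ∈ s, g b x) = ∑ b ∈ s, Ex (g b) := by
  sorry

/-- monotonicity: it suffices to compare at sign vectors -/
lemma Ex_mono {f g : (α → ℝ) → ℝ} (h : ∀ x : α → Bool, f (fun i => sg (x i)) ≤ g (fun i => sg (x i))) :
    Ex f ≤ Ex g := by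
  sorry

theorem Ex_sq (v : α → ℝ) : Ex (fun x => (∑ i, v i * x i) ^ 2) = ∑ i, v i ^ 2 := by
  sorry

theorem Ex_qf (G : Matrix α α ℝ) : Ex (fun x => qf G x) = ∑ i, G i i := by
  sorry

theorem Ex_four (v : α → ℝ) {G : Matrix α α ℝ} (hG : Gᵀ = G) :
    Ex (fun x => (∑ i, v i * x i) ^ 2 * qf G x) =
      (∑ i, v i ^ 2) * (∑ i, G i i) + 2 * qf (off G) v := by
  sorry

end Pool.Agent.BMF
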