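import Pool.Agent.BMF.Basic

/-!
# BMF Hot: hot variables

Claim: `∑ T (Tᶜ ≠ ∅), Ht F T ≤ 2^|ι| * mass F`.
Proof. Fix `B` and write `λ c = lv F c (B c)`. For `Tᶜ ≠ ∅`, `c ∈ T` is counted iff `λ c < nU F Tᶜ B`, i.e. every `u` with `λ u ≤ λ c` lies in `T`
(`Finset.lt_inf'_iff`). The number of such `T` is at most `2^(|ι| - #{u : λ u ≤ λ c})`. So it suffices that
`∑ c, (1/2)^#{u : λ u ≤ λ c} ≤ 1`                                                                (*)
`kraft`: for every finite set `s` and `λ : ι → ℕ`: `∑ c ∈ s, (1/2)^#{u ∈ s : λ u ≤ λ c} ≤ 1 - (1/2)^|s|`. Induction on `|s|`: remove an element `c*` with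
maximal `λ`; its own term is `(1/2)^|s|`; for the others the exponent does not increase when `c*` is removed. 
-/

namespace Pool.Agent.BMF

open Finset Matrix

theorem kraft {ι : Type} [DecidableEq ι] (s : Finset ι) (lam : ι → ℕ) :
    ∑ c ∈ s, (1 / 2 : ℝ) ^ (s.filter (fun u => lam u ≤ lam c)).card ≤ 1 - (1 / 2) ^ s.card := by
  induction hn : s.card generalizing s with
  | zero =>
    rw [Finset.card_eq_zero.1 hn]
    simp
  | succ n ih =>
    have hs : s.Nonempty := by
      rw [← Finset.card_pos, hn]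
      omega
    obtain ⟨m, hm, hmax⟩ := Finset.exists_max_image s lam hs
    have h1 : (s.erase m).card = n := by
      rw [Finset.card_erase_of_mem hm, hn]
      rfl
    have h2 := ih (s.erase m) h1
    rw [← Finset.add_sum_erase s _ hm]
    have h3 : (s.filter (fun u => lam u ≤ lam m)).card = n + 1 := by
      rw [Finset.filter_true_of_mem hmax, hn]
    rw [h3]
    have h4 : ∑ c ∈ s.erase m, (1 / 2 : ℝ) ^ (s.filter (fun u => lam u ≤ lam c)).card ≤
        ∑ c ∈ s.erase m, (1 / 2 : ℝ) ^ ((s.erase m).filter (fun u => lam u ≤ lam c)).card := by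
      refine Finset.sum_le_sum fun c _ => ?_
      refine pow_le_pow_of_le_one (by norm_num) (by norm_num) ?_
      exact Finset.card_le_card (Finset.filter_subset_filter _ (Finset.erase_subset _ _))
    have h5 : (1 / 2 : ℝ) ^ n = 2 * (1 / 2) ^ (n + 1) := by
      rw [pow_succ]
      ring
    linarith

variable {ι α : Type} [Fintype ι] [DecidableEq ι] [Fintype α] [DecidableEq α]

private theorem hot_nU {F : (ι → α) → ℝ} {T : Finset ι} (hT : Tᶜ.Nonempty) {B : ι → α} {c : ι}
    (h : ¬ nU F Tᶜ B ≤ lv F c (B c)) :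
    univ.filter (fun u => lv F u (B u) ≤ lv F c (B c)) ⊆ T := by
  intro u hu
  by_contra huT
  apply h
  unfold nU
  rw [dif_pos hT]
  refine (Finset.inf'_le (fun u => lv F u (B u)) (Finset.mem_compl.2 huT)).trans ?_
  exact (Finset.mem_filter.1 hu).2

theorem hot (F : (ι → α) → ℝ) :
    ∑ T ∈ (univ : Finset (Finset ι)).filter (fun T => Tᶜ.Nonempty), Ht F T ≤
      2 ^ Fintype.card ι * mass F := by
  classical
  let g : Finset ι → ι → (ι → α) → ℝ := fun T c B =>
    if univ.filter (fun u => lv F u (B u) ≤ lv F c (B c)) ⊆ T then 1 else 0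
  have hg0 : ∀ T c B, 0 ≤ g T c B := by
    intro T c B
    simp only [g]
    split_ifs <;> norm_num
  have h1 : ∀ T ∈ (univ : Finset (Finset ι)).filter (fun T => Tᶜ.Nonempty), Ht F T ≤
      ∑ c, ∑ B, F B ^ 2 * g T c B := by
    intro T hT
    have hT' := (Finset.mem_filter.1 hT).2
    unfold Ht
    refine le_trans ?_ (Finset.sum_le_sum_of_subset_of_nonneg (Finset.subset_univ T) (fun c _ _ =>
      Finset.sum_nonneg fun B _ => mul_nonneg (sq_nonneg _) (hg0 T c B)))
    refine Finset.sum_le_sum fun c _ => Finset.sum_le_sum fun B _ => ?_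
    refine mul_le_mul_of_nonneg_left ?_ (sq_nonneg _)
    by_cases h : nU F Tᶜ B ≤ lv F c (B c)
    · rw [if_pos h]
      exact hg0 T c B
    · rw [if_neg h]
      simp only [g]
      rw [if_pos (hot_nU hT' h)]
  refine (Finset.sum_le_sum h1).trans ?_
  have h2 : ∑ T ∈ (univ : Finset (Finset ι)).filter (fun T => Tᶜ.Nonempty), ∑ c, ∑ B, F B ^ 2 * g T c B ≤
      ∑ T : Finset ι, ∑ c, ∑ B, F B ^ 2 * g T c B :=
    Finset.sum_le_sum_of_subset_of_nonneg (Finset.filter_subset _ _) (fun T _ _ =>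
      Finset.sum_nonneg fun c _ => Finset.sum_nonneg fun B _ => mul_nonneg (sq_nonneg _) (hg0 T c B))
  refine h2.trans ?_
  have h3 : ∑ T : Finset ι, ∑ c, ∑ B, F B ^ 2 * g T c B = ∑ B, F B ^ 2 * ∑ c, ∑ T : Finset ι, g T c B := by
    rw [Finset.sum_comm]
    have h4 : ∀ c, ∑ T : Finset ι, ∑ B, F B ^ 2 * g T c B = ∑ B, F B ^ 2 * ∑ T : Finset ι, g T c B := by
      intro c
      rw [Finset.sum_comm]
      exact Finset.sum_congr rfl fun B _ => (Finset.mul_sum _ _ _).symm
    rw [Finset.sum_congr rfl fun c _ => h4 c, Finset.sum_comm]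
    exact Finset.sum_congr rfl fun B _ => (Finset.mul_sum _ _ _).symm
  rw [h3]
  unfold mass
  rw [Finset.mul_sum]
  refine Finset.sum_le_sum fun B _ => ?_
  rw [mul_comm ((2 : ℝ) ^ Fintype.card ι)]
  refine mul_le_mul_of_nonneg_left ?_ (sq_nonneg _)
  have h5 : ∀ c, ∑ T : Finset ι, g T c B = 2 ^ Fintype.card ι *
      (1 / 2 : ℝ) ^ (univ.filter (fun u => lv F u (B u) ≤ lv F c (B c))).card := by
    intro c
    set A : Finset ι := univ.filter (fun u => lv F u (B u) ≤ lv F c (B c)) with hA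
    have h6 : ∑ T : Finset ι, g T c B = ((univ.filter (fun T : Finset ι => A ⊆ T)).card : ℝ) := by
      simp only [g]
      rw [Finset.sum_ite, Finset.sum_const_zero, add_zero, Finset.sum_const, nsmul_eq_mul, mul_one]
    have h7 : univ.filter (fun T : Finset ι => A ⊆ T) = Finset.Icc A univ := by
      ext T
      simp [Finset.mem_Icc]
    rw [h6, h7, Finset.card_Icc_finset (Finset.subset_univ A), Finset.card_univ]
    have h8 : A.card ≤ Fintype.card ι := Finset.card_le_univ A
    push_cast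
    rw [one_div, inv_pow, ← div_eq_mul_inv, eq_div_iff (by positivity), ← pow_add,
      Nat.sub_add_cancel h8]
  rw [Finset.sum_congr rfl fun c _ => h5 c, ← Finset.mul_sum]
  have h9 := kraft (univ : Finset ι) (fun u => lv F u (B u))
  have h10 : (0 : ℝ) ≤ (1 / 2) ^ (univ : Finset ι).card := by positivity
  have h11 := mul_le_mul_of_nonneg_left (h9.trans (sub_le_self 1 h10))
    (show (0 : ℝ) ≤ 2 ^ Fintype.card ι by positivity)
  rw [mul_one] at h11
  exact h11

end Pool.Agent.BMF
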