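import Pool.Agent.BMF.Basic

/-!
# BMF Hull: the hypothesis extends to all correlation matrices

Proof. Induction on a finset `T' ⊆ T`: for all `S` with `S j ∈ Cor α` for `j ∈ T'`, `S j ∈ Set.range signMat` for `j ∈ T \ T'`
and `S j = 1` for `j ∉ T` one has `quad F S ≤ 1`. For `T' = ∅` this is `Hyp T F` (choose the sign vectors).
Step: the map `M ↦ quad F (Function.update S c M)` is a continuous affine (indeed linear) function of `M`
(each summand contains the factor `S c` exactly once: `Finset.prod_update_of_mem` / `Finset.mul_prod_erase`), so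
`{M | quad F (Function.update S c M) ≤ 1}` is closed and convex; it contains `Set.range signMat`, hence
`closure (convexHull ..)` (`convexHull_min`, `closure_minimal`).
-/

namespace Pool.Agent.BMF

open Finset Matrix

private theorem hull_upd {ι α : Type} [Fintype ι] [DecidableEq ι] [Fintype α] [DecidableEq α]
    (F : (ι → α) → ℝ) (S : ι → Matrix α α ℝ) (c : ι) (M : Matrix α α ℝ) :
    quad F (Function.update S c M) =
      ∑ B, ∑ B', F B * F B' * (M (B c) (B' c) * ∏ j ∈ univ.erase c, S j (B j) (B' j)) := by
  unfold quad
  refine Finset.sum_congr rfl fun B _ => Finset.sum_congr rfl fun B' _ => ?_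
  rw [← Finset.mul_prod_erase univ _ (Finset.mem_univ c), Function.update_self]
  congr 2
  refine Finset.prod_congr rfl fun j hj => ?_
  rw [Function.update_of_ne (Finset.ne_of_mem_erase hj)]

private theorem hull_step {ι α : Type} [Fintype ι] [DecidableEq ι] [Fintype α] [DecidableEq α]
    (F : (ι → α) → ℝ) (S : ι → Matrix α α ℝ) (c : ι)
    (h : ∀ x : α → Bool, quad F (Function.update S c (signMat x)) ≤ 1) {M : Matrix α α ℝ}
    (hM : M ∈ Cor α) : quad F (Function.update S c M) ≤ 1 := by
  have hsub : Set.range (signMat (α := α)) ⊆
      {M : Matrix α α ℝ | quad F (Function.update S c M) ≤ 1} := by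
    rintro _ ⟨x, rfl⟩
    exact h x
  have hconv : Convex ℝ {M : Matrix α α ℝ | quad F (Function.update S c M) ≤ 1} := by
    intro M hM N hN a b ha hb hab
    have h1 : quad F (Function.update S c (a • M + b • N)) =
        a * quad F (Function.update S c M) + b * quad F (Function.update S c N) := by
      rw [hull_upd, hull_upd, hull_upd, Finset.mul_sum, Finset.mul_sum, ← Finset.sum_add_distrib]
      refine Finset.sum_congr rfl fun B _ => ?_
      rw [Finset.mul_sum, Finset.mul_sum, ← Finset.sum_add_distrib]
      refine Finset.sum_congr rfl fun B' _ => ?_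
      rw [Matrix.add_apply, Matrix.smul_apply, Matrix.smul_apply, smul_eq_mul, smul_eq_mul]
      ring
    have hM' : quad F (Function.update S c M) ≤ 1 := hM
    have hN' : quad F (Function.update S c N) ≤ 1 := hN
    show quad F (Function.update S c (a • M + b • N)) ≤ 1
    rw [h1]
    nlinarith
  have hclosed : IsClosed {M : Matrix α α ℝ | quad F (Function.update S c M) ≤ 1} := by
    refine isClosed_le ?_ continuous_const
    simp_rw [hull_upd]
    refine continuous_finsetSum _ fun B _ => continuous_finsetSum _ fun B' _ => ?_
    exact continuous_const.mul ((continuous_id.matrix_elem _ _).mul continuous_const)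
  exact closure_minimal (convexHull_min hsub hconv) hclosed hM

theorem hull_quad {ι α : Type} [Fintype ι] [DecidableEq ι] [Fintype α] [DecidableEq α]
    {T : Finset ι} {F : (ι → α) → ℝ} (h : Hyp T F) (S : ι → Matrix α α ℝ)
    (hS : ∀ j ∈ T, S j ∈ Cor α) (hS' : ∀ j, j ∉ T → S j = 1) : quad F S ≤ 1 := by
  have key : ∀ T' : Finset ι, T' ⊆ T → ∀ S : ι → Matrix α α ℝ, (∀ j ∈ T', S j ∈ Cor α) →
      (∀ j ∈ T, j ∉ T' → ∃ x, S j = signMat x) → (∀ j, j ∉ T → S j = 1) → quad F S ≤ 1 := by
    intro T'
    induction T' using Finset.induction_on with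
    | empty =>
      intro _ S _ h2 h3
      have h4 : ∀ j, ∃ x : α → Bool, j ∈ T → S j = signMat x := by
        intro j
        by_cases hj : j ∈ T
        · obtain ⟨x, hx⟩ := h2 j hj (Finset.notMem_empty j)
          exact ⟨x, fun _ => hx⟩
        · exact ⟨fun _ => true, fun h => absurd h hj⟩
      choose x hx using h4
      have h5 : S = fun j => if j ∈ T then signMat (x j) else 1 := by
        funext j
        by_cases hj : j ∈ T
        · rw [if_pos hj, hx j hj]
        · rw [if_neg hj, h3 j hj]
      rw [h5]
      exact h x
    | insert c T' hc ih =>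
      intro hT S h1 h2 h3
      have hcT : c ∈ T := hT (Finset.mem_insert_self c T')
      have h4 := hull_step F S c (fun x => ih (fun j hj => hT (Finset.mem_insert_of_mem hj))
        (Function.update S c (signMat x)) (fun j hj => by
          have hjc : j ≠ c := fun e => hc (e ▸ hj)
          rw [Function.update_of_ne hjc]
          exact h1 j (Finset.mem_insert_of_mem hj)) (fun j hj hj' => by
          by_cases hjc : j = c
          · subst hjc
            exact ⟨x, Function.update_self _ _ _⟩
          · rw [Function.update_of_ne hjc]
            exact h2 j hj fun e => (Finset.mem_insert.1 e).elim hjc hj') (fun j hj => by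
          have hjc : j ≠ c := fun e => hj (e ▸ hcT)
          rw [Function.update_of_ne hjc]
          exact h3 j hj)) (h1 c (Finset.mem_insert_self c T'))
      rwa [Function.update_eq_self] at h4
  exact key T (Finset.Subset.refl T) S hS (fun j hj hj' => absurd hj hj') hS'

end Pool.Agent.BMF
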