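import Pool.Agent.BMF.Step
import Pool.Agent.BMF.Base

/-!
# BMF Induct: induction on the number of blocks, main theorem for coefficient tensors

`Hb V = V + negMulLog V` (also for `V = 0`). `g n V = (1/2) (V log (1/θ) - 2 negMulLog V) - 24000 h_n (V + negMulLog V)`, `h_n = ∑ j ∈ range n, 1/(j+2)`, is
convex in `V ≥ 0` (`Real.concaveOn_negMulLog`).
* `induct`, `n = 0`: `base`. Step `card ι = n + 2`: each `{j // j ≠ c}` has `n + 1` elements, `bdd_rev`, `mass_rev` and Jensen for the finite average `Ex`: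
  `Ex (Lbar θ (rev F c x)) ≥ Ex (g n (mass (rev F c x))) ≥ g n (mass F)`; `step_bdd`: `(n+2) Lbar ≥ (n+2) g n (mass F) - 24000 Hb (mass F)`.
* `bm_main`: `k = card ι ≥ 1`, `V = mass F > 0` so some `Gam F c i i > 0` and `M2 > 0`. `θ = k M2`. `upper`: `Lbar ≤ V log 2`. `induct` with `n = k - 1`:
  `V ((1/2) log (1/θ) - v - 24000 h (1 + v)) ≤ V log 2`, `v = log (1/V)`, `h = ∑_{j=2}^k 1/j ≤ log k`. Hence
  `log (1/θ) ≤ 2 v + log 4 + 48000 (1+v) log k`, i.e. `θ ≥ (V^2/4) exp (-48000 (1+v) log k)`.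
-/

namespace Pool.Agent.BMF

open Finset Matrix

private lemma induct_Hb (V : ℝ) : Hb V = V + Real.negMulLog V := by
  unfold Hb Real.negMulLog
  rw [one_div, Real.log_inv]
  ring

private lemma induct_jensen {α : Type} [Fintype α] [DecidableEq α] (m : (α → ℝ) → ℝ)
    (hm : ∀ x, 0 ≤ m x) : Ex (fun x => Real.negMulLog (m x)) ≤ Real.negMulLog (Ex m) := by
  unfold Ex
  have hc : (Fintype.card (α → Bool) : ℝ) = 2 ^ Fintype.card α := by
    simp
  have h := Real.concaveOn_negMulLog.le_map_sum (t := (univ : Finset (α → Bool)))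
    (w := fun _ => ((2 : ℝ) ^ Fintype.card α)⁻¹) (p := fun x => m (fun i => sg (x i)))
    (fun _ _ => by positivity) (by
      rw [Finset.sum_const, Finset.card_univ, nsmul_eq_mul, hc]
      exact mul_inv_cancel₀ (by positivity)) (fun x _ => hm _)
  simp only [smul_eq_mul, ← Finset.mul_sum] at h
  rw [div_eq_inv_mul, div_eq_inv_mul]
  exact h

private lemma induct_avg {ι α : Type} [Fintype ι] [DecidableEq ι] [Fintype α] [DecidableEq α]
    {θ : ℝ} (a b : ℝ) (hb : 0 ≤ b) {F : (ι → α) → ℝ} (c : ι)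
    (h : ∀ x : α → Bool, a * mass (rev F c (fun i => sg (x i))) -
      b * Real.negMulLog (mass (rev F c (fun i => sg (x i)))) ≤
      Lbar θ (rev F c (fun i => sg (x i)))) :
    a * mass F - b * Real.negMulLog (mass F) ≤ Ex (fun x => Lbar θ (rev F c x)) := by
  have h1 : Ex (fun x => a * mass (rev F c x) - b * Real.negMulLog (mass (rev F c x))) ≤
      Ex (fun x => Lbar θ (rev F c x)) := Ex_mono h
  refine le_trans ?_ h1
  rw [Ex_sub, Ex_mul_left, Ex_mul_left, mass_rev]
  have h2 := induct_jensen (fun x => mass (rev F c x)) (fun x => mass_nonneg _)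
  rw [mass_rev] at h2
  have h3 := mul_le_mul_of_nonneg_left h2 hb
  linarith

theorem induct {θ : ℝ} (hθ : 0 < θ) (n : ℕ) : ∀ (ι α : Type) [Fintype ι] [DecidableEq ι] [Fintype α]
    [DecidableEq α], Fintype.card ι = n + 1 → ∀ F : (ι → α) → ℝ, BddF F →
    (1 / 2) * (mass F * Real.log (1 / θ) - 2 * Real.negMulLog (mass F)) -
      24000 * (∑ j ∈ range n, (1 : ℝ) / (j + 2)) * (mass F + Real.negMulLog (mass F)) ≤
      Lbar θ F := by
  induction n with
  | zero =>
    intro ι α _ _ _ _ hι F hF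
    have h := base hι hF hθ
    simpa using h
  | succ n ih =>
    intro ι α _ _ _ _ hι F hF
    have : Nonempty ι := Fintype.card_pos_iff.1 (by omega)
    have hh : 0 ≤ ∑ j ∈ range n, (1 : ℝ) / (j + 2) :=
      Finset.sum_nonneg fun j _ => by positivity
    have h1 : ∀ c : ι, ((1 / 2) * Real.log (1 / θ) -
        24000 * ∑ j ∈ range n, (1 : ℝ) / (j + 2)) * mass F -
        (1 + 24000 * ∑ j ∈ range n, (1 : ℝ) / (j + 2)) * Real.negMulLog (mass F) ≤
        Ex (fun x => Lbar θ (rev F c x)) := by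
      intro c
      refine induct_avg _ _ (by positivity) c fun x => ?_
      have hc : Fintype.card {j // j ≠ c} = n + 1 := by
        rw [Fintype.card_subtype_compl, hι]
        simp
      have h2 := ih {j // j ≠ c} α hc (rev F c (fun i => sg (x i))) (bdd_rev hF c x)
      refine le_trans (le_of_eq ?_) h2
      ring
    have h2 := Finset.sum_le_sum fun c (_ : c ∈ (univ : Finset ι)) => h1 c
    rw [Finset.sum_const, Finset.card_univ, nsmul_eq_mul] at h2
    have h3 := h2.trans (step_bdd hF hθ)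
    rw [induct_Hb, hι] at h3
    push_cast at h3
    have hn : (0 : ℝ) < (n : ℝ) + 1 + 1 := by positivity
    rw [Finset.sum_range_succ]
    have h4 : (((1 / 2) * Real.log (1 / θ) -
        24000 * ∑ j ∈ range n, (1 : ℝ) / (j + 2)) * mass F -
        (1 + 24000 * ∑ j ∈ range n, (1 : ℝ) / (j + 2)) * Real.negMulLog (mass F)) -
        24000 * (mass F + Real.negMulLog (mass F)) / ((n : ℝ) + 1 + 1) ≤ Lbar θ F := by
      rw [sub_le_iff_le_add]
      have h5 : 24000 * (mass F + Real.negMulLog (mass F)) =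
          ((n : ℝ) + 1 + 1) * (24000 * (mass F + Real.negMulLog (mass F)) /
            ((n : ℝ) + 1 + 1)) := by
        field_simp
      rw [h5, ← mul_add] at h3
      exact le_of_mul_le_mul_left h3 hn
    refine le_trans (le_of_eq ?_) h4
    have h6 : (n : ℝ) + 1 + 1 = (n : ℝ) + 2 := by ring
    rw [h6]
    have h7 : (n : ℝ) + 2 ≠ 0 := by positivity
    field_simp
    ring

private lemma induct_harm (n : ℕ) : ∑ j ∈ range n, (1 : ℝ) / (j + 2) ≤ Real.log (n + 1) := by
  induction n with
  | zero => simp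
  | succ n ih =>
    rw [Finset.sum_range_succ]
    have h1 : (0 : ℝ) < (n : ℝ) + 1 := by positivity
    have h2 : (0 : ℝ) < (n : ℝ) + 2 := by positivity
    have h3 := Real.log_le_sub_one_of_pos (div_pos h1 h2)
    rw [Real.log_div h1.ne' h2.ne'] at h3
    have h4 : ((n : ℝ) + 1) / (n + 2) - 1 = -(1 / (n + 2)) := by
      field_simp
      ring
    have h5 : ((n + 1 : ℕ) : ℝ) + 1 = n + 2 := by
      push_cast
      ring
    rw [h5]
    linarith

theorem bm_main {ι α : Type} [Fintype ι] [DecidableEq ι] [Fintype α] [DecidableEq α] [Nonempty ι]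
    {F : (ι → α) → ℝ} (hF : BddF F) {M2 : ℝ} (h : ∀ c i, Gam F c i i ≤ M2) (hV : 0 < mass F) :
    mass F ^ 2 / (4 * Fintype.card ι) *
      Real.exp (-(48000 * (1 + Real.log (1 / mass F)) * Real.log (Fintype.card ι))) ≤ M2 := by
  obtain ⟨n, hn⟩ : ∃ n, Fintype.card ι = n + 1 :=
    Nat.exists_eq_succ_of_ne_zero Fintype.card_ne_zero
  have hM2 : 0 < M2 := by
    by_contra hneg
    have c : ι := Classical.arbitrary ι
    have h1 : mass F ≤ 0 := by
      rw [← Gam_trace F c]
      exact Finset.sum_nonpos fun i _ => (h c i).trans (not_lt.1 hneg)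
    linarith
  have hk : (0 : ℝ) < Fintype.card ι := by
    exact_mod_cast Fintype.card_pos
  set k : ℝ := (Fintype.card ι : ℝ) with hkdef
  have hθ : 0 < k * M2 := mul_pos hk hM2
  have hup := upper h hθ
  rw [← hkdef, div_self hθ.ne'] at hup
  have hind := induct hθ n ι α hn F hF
  have hlog : ∑ j ∈ range n, (1 : ℝ) / (j + 2) ≤ Real.log k := by
    have h1 := induct_harm n
    rw [hkdef, hn]
    push_cast
    exact h1
  have hv : 0 ≤ Real.log (1 / mass F) :=
    Real.log_nonneg (by rw [le_div_iff₀ hV]; simpa using mass_le_one hF)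
  set v : ℝ := Real.log (1 / mass F) with hvdef
  have hneg : Real.negMulLog (mass F) = mass F * v := by
    rw [hvdef, one_div, Real.log_inv, Real.negMulLog]
    ring
  rw [hneg] at hind
  have h2 : (1 / 2) * Real.log (1 / (k * M2)) - v -
      24000 * (∑ j ∈ range n, (1 : ℝ) / (j + 2)) * (1 + v) ≤ Real.log 2 := by
    have h3 := hind.trans hup
    have h4 : (1 : ℝ) + 1 = 2 := by norm_num
    rw [h4] at h3
    have h5 : (1 / 2) * (mass F * Real.log (1 / (k * M2)) - 2 * (mass F * v)) -
      24000 * (∑ j ∈ range n, (1 : ℝ) / (j + 2)) * (mass F + mass F * v) =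
      mass F * ((1 / 2) * Real.log (1 / (k * M2)) - v -
      24000 * (∑ j ∈ range n, (1 : ℝ) / (j + 2)) * (1 + v)) := by ring
    rw [h5] at h3
    exact le_of_mul_le_mul_left h3 hV
  have h3 : (∑ j ∈ range n, (1 : ℝ) / (j + 2)) * (1 + v) ≤ Real.log k * (1 + v) :=
    mul_le_mul_of_nonneg_right hlog (by linarith)
  have h4 : -(2 * v) - 2 * Real.log 2 - 48000 * (1 + v) * Real.log k ≤
      Real.log (k * M2) := by
    have h4 : Real.log (1 / (k * M2)) = -Real.log (k * M2) := by
      rw [one_div, Real.log_inv]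
    rw [h4] at h2
    nlinarith
  have h5 : mass F ^ 2 / 4 * Real.exp (-(48000 * (1 + v) * Real.log k)) ≤ k * M2 := by
    rw [← Real.exp_log hθ]
    refine le_trans (le_of_eq ?_) (Real.exp_le_exp.2 h4)
    have h6 : -(2 * v) - 2 * Real.log 2 - 48000 * (1 + v) * Real.log k =
        2 * Real.log (mass F) + -(2 * Real.log 2) + -(48000 * (1 + v) * Real.log k) := by
      rw [hvdef, one_div, Real.log_inv]
      ring
    rw [h6, Real.exp_add, Real.exp_add]
    congr 1
    rw [Real.exp_neg]
    have h7 : Real.exp (2 * Real.log (mass F)) = mass F ^ 2 := by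
      rw [two_mul, Real.exp_add, Real.exp_log hV]
      ring
    have h8 : Real.exp (2 * Real.log 2) = 4 := by
      rw [two_mul, Real.exp_add, Real.exp_log (by norm_num)]
      norm_num
    rw [h7, h8]
    ring
  have h6 : mass F ^ 2 / (4 * k) * Real.exp (-(48000 * (1 + v) * Real.log k)) =
      (mass F ^ 2 / 4 * Real.exp (-(48000 * (1 + v) * Real.log k))) / k := by
    field_simp
  rw [h6, div_le_iff₀ hk]
  linarith

end Pool.Agent.BMF
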