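import Pool.Agent.BMF.Basic

/-!
# BMF Jens: Jensen's inequality in the product eigenbasis

Proof. For every `j` the spectral theorem gives a real orthogonal matrix `O j` and numbers `d j : α → ℝ` with
`X j = O j * diagonal (d j) * (O j)ᵀ`, i.e. `X j a b = ∑ e, O j a e * d j e * O j b e` and `∑ e, O j a e * O j b e = if a = b then 1 else 0`,
`∑ a, O j a e * O j a e' = if e = e' then 1 else 0`. The bound `h1` at the eigenvectors gives `|d j e| ≤ 1/2`.
Put `F' b = ∑ B, F B * ∏ j, O j (B j) (b j)`. For arbitrary functions `φ j : α → ℝ`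
`quad F (fun j => O j * diagonal (φ j) * (O j)ᵀ) = ∑ b, F' b ^ 2 * ∏ j, φ j (b j)`      (*)
(expand `F' b ^ 2`, exchange sums, `Finset.prod_univ_sum` for `∑ b, ∏ j, g j (b j) = ∏ j, ∑ e, g j e`).
By `mass_quad` and (*) with `φ = 1`: `∑ b, F' b ^ 2 = mass F`. By `ip_Gam_quad` and (*):
`ip (Gam F c) (X c) = ∑ b, F' b ^ 2 * d c (b c)` and `ip (Gam F c) (X c * X c) = ∑ b, F' b ^ 2 * d c (b c) ^ 2`;
`quad F (1 + X) = ∑ b, F' b ^ 2 * ∏ j, (1 + d j (b j))`.
If `mass F = 0` everything is `0`. Otherwise let `e = mass F > 0`, `p b = F' b ^ 2 / e` (probability weights). By weighted AM-GM /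
Jensen for `exp` (`Real.inner_le_nnorm_mul_nnorm` not needed; use `Real.exp` convexity `convexOn_exp.map_sum_le` or
`t ≥ 1 + ln t`): `1 ≥ ∑ F'^2 ∏ (1 + d) ≥ e * exp (∑ p b * ∑ j, log (1 + d j (b j)))`, so
`∑ b, F' b ^ 2 * ∑ j, log (1 + d j (b j)) ≤ - e * log e`. Finally `log (1 + t) ≥ t - t ^ 2` for `|t| ≤ 1/2`.
A direct way to the Jensen step: for every `b`, `L b := ∏ (1 + d)`, `log (L b) + log e ≤ e * L b - 1` (from `log y ≤ y - 1`
with `y = e * L b`); multiply by `p b` and sum: `∑ p log L + log e ≤ e ∑ p L - 1 = ∑ F'^2 L - 1 ≤ 0`.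
-/

namespace Pool.Agent.BMF

open Finset Matrix

private lemma log_lower {t : ℝ} (h : |t| ≤ 1 / 2) : t - t ^ 2 ≤ Real.log (1 + t) := by
  obtain ⟨h1, h2⟩ := abs_le.1 h
  rcases le_total 0 t with h0 | h0
  · have h3 := Real.one_sub_inv_le_log_of_pos (show 0 < 1 + t by linarith)
    have h4 : t - t ^ 2 ≤ 1 - (1 + t)⁻¹ := by
      have e : 1 - (1 + t)⁻¹ - (t - t ^ 2) = t ^ 3 * (1 + t)⁻¹ := by
        have : 1 + t ≠ 0 := by linarith
        field_simp
        ring
      have : 0 ≤ t ^ 3 * (1 + t)⁻¹ := by positivity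
      linarith
    linarith
  · obtain ⟨x, rfl⟩ : ∃ x, t = -x := ⟨-t, by ring⟩
    have hx0 : 0 ≤ x := by linarith
    have hx1 : x ≤ 1 / 2 := by linarith
    have h3 := Real.abs_log_sub_add_sum_range_le (x := x) (by rw [abs_of_nonneg hx0]; linarith) 4
    rw [abs_of_nonneg hx0] at h3
    have h4 := (abs_le.1 h3).1
    simp only [Finset.sum_range_succ, Finset.sum_range_zero] at h4
    norm_num at h4
    have h5 : x ^ 5 / (1 - x) ≤ 2 * x ^ 5 := by
      rw [div_le_iff₀ (by linarith)]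
      have : 0 ≤ x ^ 5 := by positivity
      nlinarith
    have h6 : x ^ 3 / 3 + x ^ 4 / 4 + 2 * x ^ 5 ≤ x ^ 2 / 2 := by
      have e : x ^ 2 / 2 - (x ^ 3 / 3 + x ^ 4 / 4 + 2 * x ^ 5) =
        x ^ 2 * (1 / 2 - x / 3 - x ^ 2 / 4 - 2 * x ^ 3) := by ring
      have h7 : x ^ 2 ≤ 1 / 4 := by nlinarith
      have h8 : x ^ 3 ≤ 1 / 8 := by
        have : x ^ 3 = x ^ 2 * x := by ring
        nlinarith
      have : 0 ≤ x ^ 2 * (1 / 2 - x / 3 - x ^ 2 / 4 - 2 * x ^ 3) :=
        mul_nonneg (by positivity) (by linarith)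
      linarith
    have e : (1 : ℝ) + -x = 1 - x := by ring
    rw [e, neg_sq]
    linarith

private lemma spec {α : Type} [Fintype α] [DecidableEq α] (X : Matrix α α ℝ) (hs : Xᵀ = X) :
    ∃ (O : Matrix α α ℝ) (d : α → ℝ), O * Oᵀ = 1 ∧ Oᵀ * O = 1 ∧ X = O * diagonal d * Oᵀ := by
  have hX : X.IsHermitian := by
    rw [Matrix.IsHermitian, Matrix.conjTranspose_eq_transpose_of_trivial]
    exact hs
  have hst : star (hX.eigenvectorUnitary : Matrix α α ℝ) =
      (hX.eigenvectorUnitary : Matrix α α ℝ)ᵀ := by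
    rw [Matrix.star_eq_conjTranspose, Matrix.conjTranspose_eq_transpose_of_trivial]
  refine ⟨hX.eigenvectorUnitary, hX.eigenvalues, ?_, ?_, ?_⟩
  · rw [← hst]
    exact Unitary.coe_mul_star_self _
  · rw [← hst]
    exact Unitary.coe_star_mul_self _
  · have h := hX.spectral_theorem
    rw [← hst]
    exact h

private lemma spec_apply {α : Type} [Fintype α] [DecidableEq α] (O : Matrix α α ℝ) (d : α → ℝ)
    (a b : α) : (O * diagonal d * Oᵀ) a b = ∑ e, O a e * d e * O b e := by
  rw [Matrix.mul_apply]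
  refine sum_congr rfl fun e _ => ?_
  rw [Matrix.mul_diagonal, Matrix.transpose_apply]

private lemma quad_spec {ι α : Type} [Fintype ι] [DecidableEq ι] [Fintype α] [DecidableEq α]
    (F : (ι → α) → ℝ) (O : ι → Matrix α α ℝ) (φ : ι → α → ℝ) :
    quad F (fun j => O j * diagonal (φ j) * (O j)ᵀ) =
      ∑ b : ι → α, (∑ B, F B * ∏ j, O j (B j) (b j)) ^ 2 * ∏ j, φ j (b j) := by
  have hprod : ∀ B B' : ι → α, ∏ j, (O j * diagonal (φ j) * (O j)ᵀ) (B j) (B' j) =
      ∑ b : ι → α, (∏ j, φ j (b j)) * ((∏ j, O j (B j) (b j)) * (∏ j, O j (B' j) (b j))) := by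
    intro B B'
    have h := Finset.prod_univ_sum (fun _ : ι => (univ : Finset α))
      (fun j e => O j (B j) e * φ j e * O j (B' j) e)
    rw [Fintype.piFinset_univ] at h
    have e : ∏ j, (O j * diagonal (φ j) * (O j)ᵀ) (B j) (B' j) =
        ∏ j, ∑ e, O j (B j) e * φ j e * O j (B' j) e :=
      prod_congr rfl fun j _ => spec_apply _ _ _ _
    rw [e, h]
    refine sum_congr rfl fun b _ => ?_
    rw [prod_mul_distrib, prod_mul_distrib]
    ring
  unfold quad
  simp_rw [hprod, mul_sum]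
  have e1 : ∀ B : ι → α, ∑ B' : ι → α, ∑ b : ι → α, F B * F B' *
      ((∏ j, φ j (b j)) * ((∏ j, O j (B j) (b j)) * (∏ j, O j (B' j) (b j)))) =
      ∑ b : ι → α, ∑ B' : ι → α, F B * F B' *
      ((∏ j, φ j (b j)) * ((∏ j, O j (B j) (b j)) * (∏ j, O j (B' j) (b j)))) :=
    fun B => sum_comm
  simp_rw [e1]
  rw [sum_comm]
  refine sum_congr rfl fun b _ => ?_
  rw [sq, sum_mul_sum, sum_mul]
  refine sum_congr rfl fun B _ => ?_
  rw [sum_mul]
  refine sum_congr rfl fun B' _ => ?_
  ring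

theorem jensen_quad {ι α : Type} [Fintype ι] [DecidableEq ι] [Fintype α] [DecidableEq α]
    (F : (ι → α) → ℝ) (X : ι → Matrix α α ℝ) (hs : ∀ j, (X j)ᵀ = X j)
    (h1 : ∀ j v, |qf (X j) v| ≤ (1 / 2) * ∑ i, v i ^ 2)
    (hq : quad F (fun j => 1 + X j) ≤ 1) :
    ∑ j, ip (Gam F j) (X j) ≤ Real.negMulLog (mass F) + ∑ j, ip (Gam F j) (X j * X j) := by
  choose O d hO1 hO2 hX using fun j => spec (X j) (hs j)
  -- eigenvalues
  have hd : ∀ j e, |d j e| ≤ 1 / 2 := by
    intro j e
    have h3 := h1 j (fun a => O j a e)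
    have e1 : ∑ a, O j a e ^ 2 = 1 := by
      have h4 := congrFun (congrFun (hO2 j) e) e
      rw [Matrix.mul_apply, Matrix.one_apply_eq] at h4
      rw [← h4]
      refine sum_congr rfl fun a _ => ?_
      rw [Matrix.transpose_apply, sq]
    have e2 : qf (X j) (fun a => O j a e) = d j e := by
      have h4 : (O j)ᵀ * X j * O j = diagonal (d j) := by
        have h5 : (O j)ᵀ * (O j * diagonal (d j) * (O j)ᵀ) * O j =
            ((O j)ᵀ * O j) * diagonal (d j) * ((O j)ᵀ * O j) := by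
          simp only [Matrix.mul_assoc]
        rw [hO2, Matrix.one_mul, Matrix.mul_one] at h5
        rw [← h5, ← hX]
      have h6 := congrFun (congrFun h4 e) e
      rw [Matrix.diagonal_apply_eq, Matrix.mul_apply] at h6
      rw [← h6]
      unfold qf
      rw [sum_comm]
      refine sum_congr rfl fun b _ => ?_
      rw [Matrix.mul_apply, sum_mul]
      refine sum_congr rfl fun a _ => ?_
      rw [Matrix.transpose_apply]
    rw [e1, e2, mul_one] at h3
    exact h3
  set F' : (ι → α) → ℝ := fun b => ∑ B, F B * ∏ j, O j (B j) (b j) with hF'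
  have hone : ∀ j, (1 : Matrix α α ℝ) = O j * diagonal (fun _ => 1) * (O j)ᵀ := by
    intro j
    have e0 : (diagonal (fun _ : α => (1 : ℝ))) = 1 := Matrix.diagonal_one
    rw [e0, Matrix.mul_one, hO1]
  have hmass : mass F = ∑ b, F' b ^ 2 := by
    rw [mass_quad]
    have e1 : (fun _ : ι => (1 : Matrix α α ℝ)) =
        fun j => O j * diagonal ((fun _ _ => 1 : ι → α → ℝ) j) * (O j)ᵀ := funext hone
    rw [e1, quad_spec]
    refine sum_congr rfl fun b _ => ?_
    rw [prod_const_one, mul_one]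
  have hip : ∀ (c : ι) (φ : α → ℝ), ip (Gam F c) (O c * diagonal φ * (O c)ᵀ) =
      ∑ b, F' b ^ 2 * φ (b c) := by
    intro c φ
    rw [ip_Gam_quad]
    have e1 : (fun j => if j = c then O c * diagonal φ * (O c)ᵀ else 1) =
        fun j => O j * diagonal ((fun j => if j = c then φ else fun _ => 1 : ι → α → ℝ) j) *
          (O j)ᵀ := by
      funext j
      by_cases hj : j = c
      · subst hj
        simp
      · simp only [if_neg hj]
        exact hone j
    rw [e1, quad_spec]
    refine sum_congr rfl fun b _ => ?_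
    congr 1
    rw [prod_eq_single c]
    · simp
    · intro j _ hj
      simp [hj]
    · intro h
      exact absurd (mem_univ c) h
  have hipX : ∀ c, ip (Gam F c) (X c) = ∑ b, F' b ^ 2 * d c (b c) := by
    intro c
    rw [hX c]
    exact hip c (d c)
  have hipXX : ∀ c, ip (Gam F c) (X c * X c) = ∑ b, F' b ^ 2 * (d c (b c)) ^ 2 := by
    intro c
    have e1 : X c * X c = O c * diagonal (fun e => d c e ^ 2) * (O c)ᵀ := by
      have h5 : (O c * diagonal (d c) * (O c)ᵀ) * (O c * diagonal (d c) * (O c)ᵀ) =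
          O c * (diagonal (d c) * ((O c)ᵀ * O c) * diagonal (d c)) * (O c)ᵀ := by
        simp only [Matrix.mul_assoc]
      rw [hO2, Matrix.mul_one, Matrix.diagonal_mul_diagonal] at h5
      rw [hX c, h5]
      congr 2
      congr 1
      funext e
      rw [sq]
    rw [e1]
    exact hip c _
  have hquad : quad F (fun j => 1 + X j) = ∑ b, F' b ^ 2 * ∏ j, (1 + d j (b j)) := by
    have e1 : (fun j => 1 + X j) =
        fun j => O j * diagonal ((fun j e => 1 + d j e : ι → α → ℝ) j) * (O j)ᵀ := by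
      funext j
      have e2 : diagonal (fun e => 1 + d j e) = 1 + diagonal (d j) := by
        rw [← Matrix.diagonal_one, Matrix.diagonal_add]
      simp only
      rw [e2, Matrix.mul_add, Matrix.add_mul, Matrix.mul_one, hO1, ← hX]
    rw [e1, quad_spec]
  rw [hquad] at hq
  simp_rw [hipX, hipXX]
  have hpos : ∀ b : ι → α, 0 < ∏ j, (1 + d j (b j)) := fun b =>
    prod_pos fun j _ => by linarith [(abs_le.1 (hd j (b j))).1]
  -- the main inequality
  have hlog : ∀ b : ι → α, ∑ j, (d j (b j) - d j (b j) ^ 2) ≤ Real.log (∏ j, (1 + d j (b j))) := by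
    intro b
    rw [Real.log_prod (fun j _ => by linarith [(abs_le.1 (hd j (b j))).1])]
    exact sum_le_sum fun j _ => log_lower (hd j (b j))
  have hgoal : ∑ b, F' b ^ 2 * ∑ j, (d j (b j) - d j (b j) ^ 2) ≤ Real.negMulLog (mass F) := by
    rcases eq_or_ne (mass F) 0 with he | he
    · rw [he, Real.negMulLog_zero]
      have h0 : ∀ b, F' b ^ 2 = 0 := by
        intro b
        have h3 := hmass
        rw [he] at h3
        exact (sum_eq_zero_iff_of_nonneg fun b _ => sq_nonneg (F' b)).1 h3.symm b (mem_univ b)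
      apply le_of_eq
      exact sum_eq_zero fun b _ => by rw [h0, zero_mul]
    · have hepos : 0 < mass F := by
        rcases (mass_nonneg F).lt_or_eq with h3 | h3
        · exact h3
        · exact absurd h3.symm he
      have h4 : ∀ b, F' b ^ 2 * ∑ j, (d j (b j) - d j (b j) ^ 2) ≤
          mass F * (F' b ^ 2 * ∏ j, (1 + d j (b j))) - F' b ^ 2 - F' b ^ 2 * Real.log (mass F) := by
        intro b
        have h5 := Real.log_le_sub_one_of_pos (mul_pos hepos (hpos b))
        rw [Real.log_mul hepos.ne' (hpos b).ne'] at h5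
        have h6 := hlog b
        have h7 : ∑ j, (d j (b j) - d j (b j) ^ 2) ≤
            mass F * ∏ j, (1 + d j (b j)) - 1 - Real.log (mass F) := by linarith
        have h8 := mul_le_mul_of_nonneg_left h7 (sq_nonneg (F' b))
        linarith
      have h9 := sum_le_sum fun b (_ : b ∈ (univ : Finset (ι → α))) => h4 b
      rw [sum_sub_distrib, sum_sub_distrib, ← mul_sum, ← sum_mul, ← hmass] at h9
      have h10 : mass F * ∑ b, F' b ^ 2 * ∏ j, (1 + d j (b j)) ≤ mass F * 1 :=
        mul_le_mul_of_nonneg_left hq hepos.le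
      rw [Real.negMulLog]
      linarith
  have e1 : ∑ b, F' b ^ 2 * ∑ j, (d j (b j) - d j (b j) ^ 2) =
      ∑ j, ∑ b, F' b ^ 2 * d j (b j) - ∑ j, ∑ b, F' b ^ 2 * d j (b j) ^ 2 := by
    rw [← sum_sub_distrib]
    simp_rw [mul_sum]
    rw [sum_comm]
    refine sum_congr rfl fun j _ => ?_
    rw [← sum_sub_distrib]
    refine sum_congr rfl fun b _ => ?_
    ring
  rw [e1] at hgoal
  linarith

end Pool.Agent.BMF
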