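import Pool.Agent.BMF.Fam
import Pool.Agent.BMF.Trunc

/-!
# BMF Kb: the mass of the truncated directions

`K c` is a projection, so `Ctr (Kc F c)` (symmetric idempotent). `ip Γ K = ∑ Γ i i K i i + ip Γ (off K)` (`ip_eq_diag_off`) and
`lemT_one` with `Q = K`, `INC Γ K ≤ ∑ Γ i i K i i` (`INC_le_diag`): with `k = ∑ c ∈ T, ip Γ K`,
`k ≤ 11 Hb + (7/6) ∑ c ∑ i, Γ i i K i i`. By `lv_le` `Γ i i ≤ 2 ^ (- lv i)`, so `∑ i, Γ i i K i i ≤ ∑ i, K i i / 2 ^ lv i ≤ ip Γ K / 4`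
(`IsTrunc.tr`). Hence `k (1 - 7/24) ≤ 11 Hb`, `k ≤ 16 Hb`.
`kb2`: `Q = D K D`, `D` diagonal with entries in `[0,1]` (`lv_le`): `Ctr Q` because `1 - D K D = (1 - D D) + D (1 - K) D`;
`∑ i, Γ i i (D K D) i i = ∑ i, Γ i i (D i)^2 K i i ≤ ∑ i, Γ i i K i i ≤ ip Γ K / 4`, so the sum is
`≤ 11 Hb + (7/6) * 16/4 Hb ≤ 16 Hb`.
-/

namespace Pool.Agent.BMF

open Finset Matrix

variable {ι α : Type} [Fintype ι] [DecidableEq ι] [Fintype α] [DecidableEq α]

omit [DecidableEq α] in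
private lemma kb_psd {P : Matrix α α ℝ} (hs : Pᵀ = P) (hi : P * P = P) : P.PosSemidef := by
  have h := Matrix.posSemidef_conjTranspose_mul_self P
  rw [Matrix.conjTranspose_eq_transpose_of_trivial, hs, hi] at h
  exact h

lemma ctr_Kc (F : (ι → α) → ℝ) (c : ι) : Ctr (Kc F c) := by
  have h := Kc_spec F c
  refine ⟨kb_psd h.symm h.idem, kb_psd ?_ ?_⟩
  · rw [Matrix.transpose_sub, Matrix.transpose_one, h.symm]
  · have h1 := h.idem
    have h2 : (1 - Kc F c) * (1 - Kc F c) = 1 - Kc F c - (Kc F c - Kc F c * Kc F c) := by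
      noncomm_ring
    rw [h2, h1, sub_self, sub_zero]

private lemma kb_dg {F : (ι → α) → ℝ} (hF : BddF F) (c : ι) :
    ∑ i, Gam F c i i * Kc F c i i ≤ ip (Gam F c) (Kc F c) / 4 := by
  have h := (Kc_spec F c).tr
  have h1 : ∑ i, Gam F c i i * Kc F c i i ≤ ∑ i, Kc F c i i / 2 ^ lv F c i := by
    refine sum_le_sum fun i _ => ?_
    have h2 := (ctr_diag (ctr_Kc F c) i).1
    have h3 := lv_le (mass_le_one hF) c i
    rw [le_div_iff₀ (by positivity)]
    calc Gam F c i i * Kc F c i i * 2 ^ lv F c i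
        = (2 ^ lv F c i * Gam F c i i) * Kc F c i i := by ring
      _ ≤ 1 * Kc F c i i := mul_le_mul_of_nonneg_right h3 h2
      _ = Kc F c i i := one_mul _
  linarith

theorem kb1 {F : (ι → α) → ℝ} (hF : BddF F) (T : Finset ι) :
    ∑ c ∈ T, ip (Gam F c) (Kc F c) ≤ 16 * Hb (mass F) := by
  have h1 := lemT_one hF T (Kc F) (fun j _ => ctr_Kc F j)
  have hH := Hb_nonneg (mass_nonneg F) (mass_le_one hF)
  have h2 : ∑ j ∈ T, INC (Gam F j) (Kc F j) ≤ ∑ j ∈ T, ∑ i, Gam F j i i * Kc F j i i :=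
    sum_le_sum fun j _ => INC_le_diag (fun i => Gam_diag_nonneg F j i) (ctr_Kc F j)
  have h3 : ∑ j ∈ T, ∑ i, Gam F j i i * Kc F j i i ≤ ∑ j ∈ T, ip (Gam F j) (Kc F j) / 4 :=
    sum_le_sum fun j _ => kb_dg hF j
  have h4 : ∑ j ∈ T, ip (Gam F j) (Kc F j) =
      (∑ j ∈ T, ∑ i, Gam F j i i * Kc F j i i) + ∑ j ∈ T, ip (Gam F j) (off (Kc F j)) := by
    rw [← sum_add_distrib]
    exact sum_congr rfl fun j _ => ip_eq_diag_off _ _
  rw [← sum_div] at h3
  linarith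

private lemma kb_ctr2 {F : (ι → α) → ℝ} (hF : BddF F) (c : ι) :
    Ctr (Dg F c * Kc F c * Dg F c) := by
  have hK := ctr_Kc F c
  have hs : (Dg F c)ᴴ = Dg F c := by
    rw [Matrix.conjTranspose_eq_transpose_of_trivial]
    exact Matrix.diagonal_transpose _
  have hd0 : ∀ i, 0 ≤ (2 : ℝ) ^ lv F c i * Gam F c i i := fun i =>
    mul_nonneg (by positivity) (Gam_diag_nonneg F c i)
  have hd1 : ∀ i, (2 : ℝ) ^ lv F c i * Gam F c i i ≤ 1 := fun i => lv_le (mass_le_one hF) c i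
  constructor
  · have h := hK.1.conjTranspose_mul_mul_same (Dg F c)
    rwa [hs] at h
  · have h1 : (1 : Matrix α α ℝ) - Dg F c * Kc F c * Dg F c =
        (1 - Dg F c * Dg F c) + Dg F c * (1 - Kc F c) * Dg F c := by
      noncomm_ring
    have h2 := hK.2.conjTranspose_mul_mul_same (Dg F c)
    rw [hs] at h2
    have h3 : (1 - Dg F c * Dg F c).PosSemidef := by
      have h4 : (1 - Dg F c * Dg F c : Matrix α α ℝ) = Matrix.diagonal fun i =>
          1 - (2 ^ lv F c i * Gam F c i i) * (2 ^ lv F c i * Gam F c i i) := by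
        unfold Dg
        rw [Matrix.diagonal_mul_diagonal, ← Matrix.diagonal_one, Matrix.diagonal_sub]
      rw [h4]
      refine Matrix.PosSemidef.diagonal fun i => ?_
      have := mul_le_one₀ (hd1 i) (hd0 i) (hd1 i)
      show 0 ≤ 1 - _
      linarith
    rw [h1]
    exact h3.add h2

private lemma kb_diag2 {F : (ι → α) → ℝ} (hF : BddF F) (c : ι) :
    ∑ i, Gam F c i i * (Dg F c * Kc F c * Dg F c) i i ≤ ∑ i, Gam F c i i * Kc F c i i := by
  refine sum_le_sum fun i _ => mul_le_mul_of_nonneg_left ?_ (Gam_diag_nonneg F c i)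
  have hd0 : 0 ≤ (2 : ℝ) ^ lv F c i * Gam F c i i :=
    mul_nonneg (by positivity) (Gam_diag_nonneg F c i)
  have hd1 : (2 : ℝ) ^ lv F c i * Gam F c i i ≤ 1 := lv_le (mass_le_one hF) c i
  have h1 : (Dg F c * Kc F c * Dg F c) i i =
      (2 ^ lv F c i * Gam F c i i) * (2 ^ lv F c i * Gam F c i i) * Kc F c i i := by
    unfold Dg
    rw [Matrix.mul_diagonal, Matrix.diagonal_mul]
    ring
  rw [h1]
  calc (2 ^ lv F c i * Gam F c i i) * (2 ^ lv F c i * Gam F c i i) * Kc F c i i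
      ≤ 1 * Kc F c i i := mul_le_mul_of_nonneg_right (mul_le_one₀ hd1 hd0 hd1)
        (ctr_diag (ctr_Kc F c) i).1
    _ = Kc F c i i := one_mul _

theorem kb2 {F : (ι → α) → ℝ} (hF : BddF F) (T : Finset ι) :
    ∑ c ∈ T, ip (Gam F c) (Dg F c * Kc F c * Dg F c) ≤ 16 * Hb (mass F) := by
  have h1 := lemT_one hF T (fun c => Dg F c * Kc F c * Dg F c) (fun j _ => kb_ctr2 hF j)
  have hH := Hb_nonneg (mass_nonneg F) (mass_le_one hF)
  have hk := kb1 hF T
  have h2 : ∑ j ∈ T, INC (Gam F j) (Dg F j * Kc F j * Dg F j) ≤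
      ∑ j ∈ T, ∑ i, Gam F j i i * (Dg F j * Kc F j * Dg F j) i i :=
    sum_le_sum fun j _ => INC_le_diag (fun i => Gam_diag_nonneg F j i) (kb_ctr2 hF j)
  have h3 : ∑ j ∈ T, ∑ i, Gam F j i i * (Dg F j * Kc F j * Dg F j) i i ≤
      ∑ j ∈ T, ip (Gam F j) (Kc F j) / 4 :=
    sum_le_sum fun j _ => (kb_diag2 hF j).trans (kb_dg hF j)
  have h4 : ∑ j ∈ T, ip (Gam F j) (Dg F j * Kc F j * Dg F j) =
      (∑ j ∈ T, ∑ i, Gam F j i i * (Dg F j * Kc F j * Dg F j) i i) +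
        ∑ j ∈ T, ip (Gam F j) (off (Dg F j * Kc F j * Dg F j)) := by
    rw [← sum_add_distrib]
    exact sum_congr rfl fun j _ => ip_eq_diag_off _ _
  rw [← sum_div] at h3
  linarith

end Pool.Agent.BMF
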