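import Pool.Agent.BMF.Defs

/-!
# BMF Key: the pointwise inequality

`(z + b)^2 ln R ≤ z^2 (R - 1) + 3 b^2 (1 + R)` for `R > 0` and real `z, b`.
Proof. With `L = ln R` the difference right - left is the quadratic form `(R - 1 - L) z^2 - 2 L z b + (3 + 3R - L) b^2` with
`R - 1 - L ≥ 0` and `3 + 3 R - L ≥ 0`, so it suffices that `L^2 ≤ (R - 1 - L)(3 + 3R - L)` (discriminant).
Write `R = exp L`. Put `g(L) = (e^L - 1 - L)(3 + 3 e^L - L) - L^2 ≥ 0`, `g(0) = 0`.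
* `L ≥ 0`: `e^L - 1 - L ≥ L^2/2` and `3 + 3 e^L - L ≥ 6 + 2 L ≥ 2`.
* `L < 0`, `u = -L > 0`: `e^{-u} - 1 + u ≥ u^2/2 - u^3/6` for all `u ≥ 0` and `3 + 3 e^{-u} + u ≥ 3 + u`; for `0 ≤ u ≤ 1`
  `3 + 3 e^{-u} + u ≥ 6 - 2 u ≥ 4` and `(u^2/2 - u^3/6) * (6 - 2u) = u^2 (3 - 2 u + u^2/3) ≥ u^2`;
  for `u ≥ 1`: `e^{-u} - 1 + u ≥ u - 1 + e^{-u}`, `(u - 1 + e^{-u})(3 + u + 3 e^{-u}) - u^2 = 2 u - 3 + e^{-u} (4 u ) + 3 e^{-2u} + ...`:
  exactly `(u - 1)(3 + u) + e^{-u}(3(u-1) + 3 + u) + 3 e^{-2u} - u^2 = 2u - 3 + 4 u e^{-u} + 3 e^{-2u}`, which is `≥ 0` for `u ≥ 3/2` at once, and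
  for `1 ≤ u ≤ 3/2` because `4 u e^{-u} ≥ 4 e^{-1} > 1` at `u = 1` and `u e^{-u} ≥ (3/2) e^{-3/2} > 1/3` on the interval, `2u - 3 ≥ -1`:
  `2u - 3 + 4 u e^{-u} ≥ -1 + 4/3 > 0`.
-/

namespace Pool.Agent.BMF

theorem key_exp_neg {u : ℝ} (h0 : 0 ≤ u) (h1 : u ≤ 1) :
    1 - u + u ^ 2 / 2 - 2 * u ^ 3 / 9 ≤ Real.exp (-u) := by
  have h := Real.exp_bound (x := -u) (by rw [abs_neg, abs_of_nonneg h0]; exact h1)
    (n := 3) (by norm_num)
  rw [abs_neg, abs_of_nonneg h0] at h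
  have h2 := (abs_le.1 h).1
  simp only [Finset.sum_range_succ, Finset.sum_range_zero, Nat.factorial] at h2
  norm_num at h2
  nlinarith [h2]

theorem key_exp_three_half : (22 : ℝ) / 100 < Real.exp (-(3 / 2)) := by
  have h1 : Real.exp (3 / 2) < 454 / 100 := by
    refine lt_of_pow_lt_pow_left₀ 2 (by norm_num) ?_
    rw [← Real.exp_nat_mul]
    have h2 : ((2 : ℕ) : ℝ) * (3 / 2) = ((3 : ℕ) : ℝ) * 1 := by norm_num
    rw [h2, Real.exp_nat_mul]
    have h3 := Real.exp_one_lt_d9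
    have h4 : Real.exp 1 ^ 3 < 2.7182818286 ^ 3 :=
      pow_lt_pow_left₀ h3 (Real.exp_pos 1).le (by norm_num)
    refine h4.trans ?_
    norm_num
  rw [Real.exp_neg, lt_inv_comm₀ (by norm_num) (Real.exp_pos _)]
  refine h1.trans ?_
  norm_num

theorem key_disc (L : ℝ) :
    L ^ 2 ≤ (Real.exp L - 1 - L) * (3 + 3 * Real.exp L - L) := by
  rcases le_or_gt 0 L with h | h
  · have h1 := Real.quadratic_le_exp_of_nonneg h
    have h2 : L ^ 2 / 2 ≤ Real.exp L - 1 - L := by linarith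
    have h3 : 2 ≤ 3 + 3 * Real.exp L - L := by nlinarith [sq_nonneg L]
    nlinarith [mul_le_mul h2 h3 (by norm_num) (by nlinarith [sq_nonneg L])]
  · obtain ⟨u, rfl⟩ : ∃ u, L = -u := ⟨-L, by ring⟩
    have hu : 0 < u := by linarith
    have hE := Real.exp_pos (-u)
    rcases le_or_gt u 1 with h1 | h1
    · have h2 := key_exp_neg hu.le h1
      have h3 : 1 - u ≤ Real.exp (-u) := by
        have := Real.add_one_le_exp (-u)
        linarith
      have h4 : u ^ 2 / 2 - 2 * u ^ 3 / 9 ≤ Real.exp (-u) - 1 - -u := by linarith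
      have h5 : 6 - 2 * u ≤ 3 + 3 * Real.exp (-u) - -u := by linarith
      have h6 : 0 ≤ u ^ 2 / 2 - 2 * u ^ 3 / 9 := by
        have : u ^ 2 / 2 - 2 * u ^ 3 / 9 = u ^ 2 * (1 / 2 - 2 * u / 9) := by ring
        rw [this]
        exact mul_nonneg (sq_nonneg u) (by linarith)
      have h7 := mul_le_mul h4 h5 (by linarith) (by linarith)
      refine le_trans ?_ h7
      have h8 : (u ^ 2 / 2 - 2 * u ^ 3 / 9) * (6 - 2 * u) - (-u) ^ 2 =
          u ^ 2 * (2 - 7 * u / 3 + 4 * u ^ 2 / 9) := by ring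
      have h9 : 0 ≤ 2 - 7 * u / 3 + 4 * u ^ 2 / 9 := by nlinarith [sq_nonneg (u - 1)]
      have h10 := mul_nonneg (sq_nonneg u) h9
      linarith
    · have h2 : (Real.exp (-u) - 1 - -u) * (3 + 3 * Real.exp (-u) - -u) - (-u) ^ 2 =
          3 * Real.exp (-u) ^ 2 + 4 * u * Real.exp (-u) + 2 * u - 3 := by ring
      rcases le_or_gt (3 / 2) u with h3 | h3
      · have h4 : 0 ≤ 4 * u * Real.exp (-u) := by positivity
        have h5 : 0 ≤ 3 * Real.exp (-u) ^ 2 := by positivity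
        linarith
      · have h4 : (22 : ℝ) / 100 < Real.exp (-u) :=
          key_exp_three_half.trans_le (Real.exp_le_exp.2 (by linarith))
        have h5 : Real.exp (-u) ≤ u * Real.exp (-u) := by nlinarith
        have h6 : (22 / 100 : ℝ) ^ 2 ≤ Real.exp (-u) ^ 2 :=
          pow_le_pow_left₀ (by norm_num) h4.le 2
        nlinarith

theorem key (R z b : ℝ) (hR : 0 < R) :
    (z + b) ^ 2 * Real.log R ≤ z ^ 2 * (R - 1) + 3 * b ^ 2 * (1 + R) := by
  obtain ⟨L, rfl⟩ : ∃ L, R = Real.exp L := ⟨Real.log R, (Real.exp_log hR).symm⟩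
  rw [Real.log_exp]
  have h1 := key_disc L
  have h2 : 0 ≤ Real.exp L - 1 - L := by linarith [Real.add_one_le_exp L]
  have h3 : 0 ≤ 3 + 3 * Real.exp L - L := by
    linarith [Real.add_one_le_exp L, Real.exp_pos L]
  suffices h : 0 ≤ (Real.exp L - 1 - L) * z ^ 2 - 2 * L * z * b +
      (3 + 3 * Real.exp L - L) * b ^ 2 by nlinarith [h]
  generalize Real.exp L - 1 - L = A at h1 h2 ⊢
  generalize 3 + 3 * Real.exp L - L = C at h1 h3 ⊢
  rcases h2.eq_or_lt with h | h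
  · rw [← h, zero_mul] at h1
    have hL : L = 0 := by
      have := le_antisymm h1 (sq_nonneg L)
      exact pow_eq_zero_iff (two_ne_zero) |>.1 this
    rw [← h, hL]
    have := mul_nonneg h3 (sq_nonneg b)
    linarith
  · have h4 : 0 ≤ A * (A * z ^ 2 - 2 * L * z * b + C * b ^ 2) := by
      have h5 : A * (A * z ^ 2 - 2 * L * z * b + C * b ^ 2) =
          (A * z - L * b) ^ 2 + (A * C - L ^ 2) * b ^ 2 := by ring
      rw [h5]
      have := mul_nonneg (sub_nonneg.2 h1) (sq_nonneg b)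
      have := sq_nonneg (A * z - L * b)
      linarith
    exact nonneg_of_mul_nonneg_right h4 h

end Pool.Agent.BMF
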