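import Pool.Agent.BMF.Key
import Pool.Agent.BMF.Four

/-!
# BMF KeyA: the averaged key inequality

Proof. `t = ∑ i, G i i ≥ 0`, `R x = (θ + qf G x) / (θ + t) > 0` (`qf G x ≥ 0`). `key` with `z = ∑ z i x i`, `b = ∑ b i x i` at every sign vector
(`Ex_mono`): left side `≤ Ex (⟨z,x⟩^2 (R x - 1)) + 3 Ex (⟨b,x⟩^2 (1 + R x))`.
`R x - 1 = (qf G x - t)/(θ + t)`, so by `Ex_four`, `Ex_sq` the first term is `2 qf (off G) z / (θ + t)`.
`Ex (⟨b,x⟩^2 (1 + R x)) = ∑ b^2 + (θ ∑ b^2 + t ∑ b^2 + 2 qf (off G) b)/(θ + t) = 2 ∑ b^2 + 2 qf (off G) b/(θ+t) ≤ 4 ∑ b^2` because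
`qf (off G) b ≤ qf G b ≤ t ∑ b^2` (a PSD matrix is at most its trace: `|G i j| ≤ √(G i i G j j)`, Cauchy-Schwarz).
-/

namespace Pool.Agent.BMF

open Finset Matrix

private theorem keyA_two {α : Type} [Fintype α] [DecidableEq α] {G : Matrix α α ℝ}
    (hG : G.PosSemidef) (b : α → ℝ) (i j : α) :
    b i * G i j * b j ≤ (b i ^ 2 * G j j + b j ^ 2 * G i i) / 2 := by
  have hs : Gᵀ = G := ((psd_iff G).1 hG).1
  have hij : G j i = G i j := by
    have := congrFun (congrFun hs i) j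
    rw [Matrix.transpose_apply] at this
    exact this
  have h := qf_nonneg hG (fun k => (if k = j then b i else 0) - (if k = i then b j else 0))
  have e : qf G (fun k => (if k = j then b i else 0) - (if k = i then b j else 0)) =
      b i * G j j * b i - b i * G j i * b j - (b j * G i j * b i - b j * G i i * b j) := by
    unfold qf
    simp only [sub_mul, mul_sub, ite_mul, mul_ite, zero_mul, mul_zero, Finset.sum_sub_distrib,
      Finset.sum_ite_eq', Finset.mem_univ, if_true]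
    ring
  rw [e, hij] at h
  nlinarith

private theorem keyA_diag {α : Type} [Fintype α] [DecidableEq α] {G : Matrix α α ℝ}
    (hG : G.PosSemidef) (i : α) : 0 ≤ G i i := hG.diag_nonneg

private theorem keyA_off {α : Type} [Fintype α] [DecidableEq α] {G : Matrix α α ℝ}
    (hG : G.PosSemidef) (b : α → ℝ) : qf (off G) b ≤ (∑ i, G i i) * ∑ i, b i ^ 2 := by
  have h1 : qf (off G) b ≤ ∑ i, ∑ j, (b i ^ 2 * G j j + b j ^ 2 * G i i) / 2 := by
    unfold qf
    refine Finset.sum_le_sum fun i _ => Finset.sum_le_sum fun j _ => ?_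
    unfold off
    by_cases hij : i = j
    · rw [if_pos hij, mul_zero, zero_mul]
      have h1 := keyA_diag hG i
      have h2 := keyA_diag hG j
      positivity
    · rw [if_neg hij]
      exact keyA_two hG b i j
  refine h1.trans (le_of_eq ?_)
  have h2 : ∑ i, ∑ j, b i ^ 2 * G j j = (∑ i, b i ^ 2) * ∑ i, G i i := by
    rw [Finset.sum_mul_sum]
  have h3 : ∑ i, ∑ j, b j ^ 2 * G i i = (∑ i, b i ^ 2) * ∑ i, G i i := by
    rw [Finset.sum_comm, Finset.sum_mul_sum]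
  have h4 : ∑ i, ∑ j, (b i ^ 2 * G j j + b j ^ 2 * G i i) / 2 =
      (∑ i, ∑ j, b i ^ 2 * G j j + ∑ i, ∑ j, b j ^ 2 * G i i) / 2 := by
    rw [← Finset.sum_add_distrib, Finset.sum_div]
    refine Finset.sum_congr rfl fun i _ => ?_
    rw [← Finset.sum_add_distrib, Finset.sum_div]
  rw [h4, h2, h3]
  ring

theorem keyA {α : Type} [Fintype α] [DecidableEq α] {G : Matrix α α ℝ} (hG : G.PosSemidef)
    {θ : ℝ} (hθ : 0 < θ) (z b : α → ℝ) :
    Ex (fun x => (∑ i, (z i + b i) * x i) ^ 2 *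
        Real.log ((θ + qf G x) / (θ + ∑ i, G i i))) ≤
      2 * qf (off G) z / (θ + ∑ i, G i i) + 12 * ∑ i, b i ^ 2 := by
  have hs : Gᵀ = G := ((psd_iff G).1 hG).1
  have ht : 0 ≤ ∑ i, G i i := Finset.sum_nonneg fun i _ => keyA_diag hG i
  have hoff := keyA_off hG b
  obtain ⟨t, htdef⟩ : ∃ t, t = ∑ i, G i i := ⟨_, rfl⟩
  rw [← htdef] at ht hoff ⊢
  have hpos : 0 < θ + t := by linarith
  obtain ⟨c, hc⟩ : ∃ c : ℝ, c = (θ + t)⁻¹ := ⟨_, rfl⟩
  have hc0 : 0 < c := by rw [hc]; positivity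
  have hc1 : c * (θ + t) = 1 := by rw [hc]; exact inv_mul_cancel₀ hpos.ne'
  have h1 : Ex (fun x => (∑ i, (z i + b i) * x i) ^ 2 * Real.log ((θ + qf G x) / (θ + t))) ≤
      Ex (fun x => (c * ((∑ i, z i * x i) ^ 2 * qf G x) - c * t * (∑ i, z i * x i) ^ 2) +
        ((3 + 3 * c * θ) * (∑ i, b i * x i) ^ 2 +
          3 * c * ((∑ i, b i * x i) ^ 2 * qf G x))) := by
    apply Ex_mono
    intro x
    obtain ⟨y, hy⟩ : ∃ y : α → ℝ, y = fun i => sg (x i) := ⟨_, rfl⟩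
    rw [← hy]
    have hq : 0 ≤ qf G y := qf_nonneg hG y
    have hR : 0 < (θ + qf G y) / (θ + t) := by positivity
    have e1 : ∑ i, (z i + b i) * y i = ∑ i, z i * y i + ∑ i, b i * y i := by
      rw [← Finset.sum_add_distrib]
      exact Finset.sum_congr rfl fun i _ => by ring
    have h2 := key ((θ + qf G y) / (θ + t)) (∑ i, z i * y i) (∑ i, b i * y i) hR
    rw [e1]
    refine h2.trans (le_of_eq ?_)
    rw [div_eq_mul_inv, ← hc]
    linear_combination ((∑ i, z i * y i) ^ 2) * hc1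
  refine h1.trans ?_
  rw [Ex_add, Ex_sub, Ex_add, Ex_mul_left, Ex_mul_left, Ex_mul_left, Ex_mul_left, Ex_four z hs,
    Ex_four b hs, Ex_sq, Ex_sq, ← htdef]
  have hb0 : 0 ≤ ∑ i, b i ^ 2 := Finset.sum_nonneg fun i _ => sq_nonneg _
  have h3 : c * qf (off G) b ≤ ∑ i, b i ^ 2 := by
    have h4 : c * qf (off G) b ≤ c * (t * ∑ i, b i ^ 2) := mul_le_mul_of_nonneg_left hoff hc0.le
    have h5 : c * t ≤ 1 := by nlinarith
    have h6 : c * (t * ∑ i, b i ^ 2) = (c * t) * ∑ i, b i ^ 2 := by ring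
    have h7 : (c * t) * ∑ i, b i ^ 2 ≤ 1 * ∑ i, b i ^ 2 := mul_le_mul_of_nonneg_right h5 hb0
    linarith
  rw [div_eq_mul_inv, ← hc]
  have h8 : c * ((∑ i, z i ^ 2) * t + 2 * qf (off G) z) - c * t * ∑ i, z i ^ 2 +
      ((3 + 3 * c * θ) * ∑ i, b i ^ 2 + 3 * c * ((∑ i, b i ^ 2) * t + 2 * qf (off G) b)) =
      2 * qf (off G) z * c + (6 * ∑ i, b i ^ 2 + 6 * (c * qf (off G) b)) := by
    linear_combination (3 * ∑ i, b i ^ 2) * hc1
  rw [h8]
  linarith

end Pool.Agent.BMF
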