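import Pool.Agent.BMF.Tilt
import Pool.Agent.BMF.Hull
import Pool.Agent.BMF.Jens
import Pool.Agent.BMF.Contr

/-!
# BMF LemT: the coherence lemma

Proof. Fix `F`, `T`. For families `Q` with `Ctr (Q j)` for all `j ∈ T` let
`Φ Q = ∑ j ∈ T, ip (Gam F j) (off (Q j)) - (1/6) ∑ j ∈ T, INC (Gam F j) (Q j)`, and `S = sSup` of all values of `Φ`. The set of values is
nonempty (contains `0`, from `Q = 0`) and bounded above (`|(Q j) a b| ≤ 1` by `ctr_abs`, so `Φ ≤ ∑ j ∑ a b |Gam F j a b|`), so `0 ≤ S`.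
Constants: `κ = 1/8`, `β1 = exp (-κ) κ`, `β = exp (-κ) sinh κ`, `β3 = β - β1 = exp (-κ) (sinh κ - κ)`. Numerically
`β1 = .11031`, `β = .11060`, `β ^ 2 = .01223`, `β3 = .00029`; one needs only
(N1) `β ^ 2 (1 + 1/6) + β3 / 6 ≤ β1 / 6`, (N2) `1 ≤ 11 (β1 - β ^ 2 - β3)`, (N3) `β ≤ 1/2`.
Take any admissible `Q`. Let `X j = 0` for `j ∉ T` and for `j ∈ T`: `X j a b = if a = b then 0 else exp (-κ) sinh (κ * Q j a b)`
`= β1 * off (Q j) + β3 * off (Q3 j)` with `Q3 j a b = (sinh (κ Q) - κ Q) / (sinh κ - κ)`, `Ctr (Q3 j)` by `ctr_sinh3`.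
1. `|qf (X j) v| ≤ (β1 + β3) ∑ v^2 = β ∑ v^2 ≤ (1/2) ∑ v^2` by `off_qf`.
2. `1 + X j ∈ Cor α` for `j ∈ T` (`tilt_mem`), so `quad F (fun j => 1 + X j) ≤ 1` by `hull_quad`, and `jensen_quad` gives
   `∑ j ∈ T, ip (Gam F j) (X j) ≤ negMulLog (mass F) + ∑ j ∈ T, ip (Gam F j) (X j * X j)`.
3. Left side `= β1 ∑ ip (off Q) + β3 ∑ ip (off Q3)`, and `- ∑ ip (off Q3) = ∑ ip (off (1 - Q3)) ≤ S + (1/6) ∑ INC (1 - Q3) ≤ S + (1/6) ∑ INC Q`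
   (`ip_off_one_sub`, `INC_one_sub`, `INC_mono` with `sinh3_abs`).
4. `ip (X X) = ∑ i, G i i (X X) i i + ip (off (X X))`, `(X X) i i = ∑ k, X i k ^ 2 ≤ β ^ 2 ∑ k (off Q i k)^2` (as `|sinh (κ q)| ≤ |q| sinh κ`
   for `|q| ≤ 1`), so the first part is `≤ β ^ 2 INC Q`. For the second: `(1/β²) X X` is admissible (`ctr_sq`), and
   `INC ((1/β²) X X) ≤ (1/β²) ∑ G i i ∑ X i k ^ 2 ≤ INC Q` (`INC_sq`), so `∑ ip (off (X X)) ≤ β ^ 2 (S + (1/6) ∑ INC Q)`.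
5. Together `β1 ∑ ip (off Q) ≤ negMulLog (mass F) + β ^ 2 I + β ^ 2 (S + I/6) + β3 (S + I/6)`, `I = ∑ INC Q ≥ 0`. Subtract `β1 I / 6` and use (N1):
   `β1 Φ Q ≤ negMulLog (mass F) + (β ^ 2 + β3) S`. Taking the supremum: `(β1 - β ^ 2 - β3) S ≤ negMulLog (mass F)`, so
   `Φ Q ≤ S ≤ 11 negMulLog (mass F)` by (N2) (`S ≥ 0`; `negMulLog (mass F) ≥ 0` follows).
For (N1)-(N3) use bounds like `Real.exp_bound'`/`Real.add_one_le_exp` and the Taylor bounds of `sinh` (`sinh κ = (exp κ - exp (-κ))/2`).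
-/

namespace Pool.Agent.BMF

open Finset Matrix

theorem lemT {ι α : Type} [Fintype ι] [DecidableEq ι] [Fintype α] [DecidableEq α]
    {T : Finset ι} {F : (ι → α) → ℝ} (h : Hyp T F) (Q : ι → Matrix α α ℝ)
    (hQ : ∀ j ∈ T, Ctr (Q j)) :
    ∑ j ∈ T, ip (Gam F j) (off (Q j)) ≤
      11 * Real.negMulLog (mass F) + (1 / 6) * ∑ j ∈ T, INC (Gam F j) (Q j) := by
  sorry

end Pool.Agent.BMF
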