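import Pool.Agent.BMF.Basic
import Pool.Agent.Helper11.Cube
import Pool.Agent.Helper11.AAQuantities
import Pool.Agent.Helper11.AADefs

/-!
# BMF ToCube: functions on the cube and coefficient tensors

`f : (Fin n → ℤˣ) → ℝ`, `π : Fin n → Fin k` assigns to every variable its block. `f` is block-multilinear if `f^(S) ≠ 0` only when `S` contains
exactly one variable of each block. Its tensor is `toForm f π B = f^(image B)` if `π (B b) = b` for all `b`, else `0`.
The maps `B ↦ univ.image B` (from `{B | ∀ b, π (B b) = b}`) and `S ↦ (b ↦ the element of S in block b)` are inverse bijections onto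
`{S | ∀ b, #(S ∩ block b) = 1}`; `∏ b, g (B b) = ∏ i ∈ univ.image B, g i` (`B` is injective).
* `toForm_bdd`: for Boolean `x : Fin k → Fin n → Bool` put `y i = 1` if `x (π i) i` else `-1`; then `ev (toForm f π) (sg x) = ∑ S, f^(S) ∏ i ∈ S, y i = f y`
  (Fourier inversion, see `Helper11/Cube.lean`: `Pool.Agent.Helper11.Cube`, definitions `chi`, `ex`, `coef`; `coef = fourierCoeff`).
* `toForm_mass`: Parseval, `f^(∅) = 0` because `k ≥ 1`.
* `toForm_Gam`: `Gam (toForm f π) c i i = ∑_{B c = i} ... ≤ ∑_{S ∋ i} f^(S)^2 = ‖D_i f‖_2^2 ≤ M(f)^2` (`derivNorm`, `Real.sq_sqrt`, `le_ciSup`).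
-/

namespace Pool.Agent.BMF

open Finset Matrix Pool.Agent.Helper11.AA

/-- every monomial of `f` has exactly one variable in each block -/
def BlockMultilinear {n k : ℕ} (f : (Fin n → ℤˣ) → ℝ) (π : Fin n → Fin k) : Prop :=
  ∀ S : Finset (Fin n), fourierCoeff f S ≠ 0 → ∀ b : Fin k, (S.filter (fun i => π i = b)).card = 1

/-- the coefficient tensor -/
noncomputable def toForm {n k : ℕ} (f : (Fin n → ℤˣ) → ℝ) (π : Fin n → Fin k) :
    (Fin k → Fin n) → ℝ :=
  fun B => if ∀ b, π (B b) = b then fourierCoeff f (univ.image B) else 0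

private lemma toCube_inj {n k : ℕ} {π : Fin n → Fin k} {B : Fin k → Fin n}
    (hB : ∀ b, π (B b) = b) : Function.Injective B := by
  intro b b' h
  rw [← hB b, ← hB b', h]

private lemma toCube_filter {n k : ℕ} {π : Fin n → Fin k} {B : Fin k → Fin n}
    (hB : ∀ b, π (B b) = b) (b : Fin k) :
    (univ.image B).filter (fun i => π i = b) = {B b} := by
  ext i
  simp only [Finset.mem_filter, Finset.mem_image, Finset.mem_univ, true_and,
    Finset.mem_singleton]
  constructor
  · rintro ⟨⟨b', rfl⟩, h⟩
    rw [← h, hB b']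
  · rintro rfl
    exact ⟨⟨b, rfl⟩, hB b⟩

private lemma toCube_sum {n k : ℕ} (π : Fin n → Fin k) (g : Finset (Fin n) → ℝ) :
    ∑ B : Fin k → Fin n, (if ∀ b, π (B b) = b then g (univ.image B) else 0) =
      ∑ S : Finset (Fin n),
        (if ∀ b : Fin k, (S.filter (fun i => π i = b)).card = 1 then g S else 0) := by
  rw [← Finset.sum_filter, ← Finset.sum_filter]
  refine Finset.sum_bij (fun B _ => univ.image B) ?_ ?_ ?_ ?_
  · intro B hB
    have hB' : ∀ b, π (B b) = b := by simpa using hB
    simp only [Finset.mem_filter, Finset.mem_univ, true_and]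
    intro b
    rw [toCube_filter hB' b, Finset.card_singleton]
  · intro B hB B' hB' h
    have h1 : ∀ b, π (B b) = b := by simpa using hB
    have h2 : ∀ b, π (B' b) = b := by simpa using hB'
    funext b
    have h3 : B b ∈ univ.image B' := by
      rw [← h]
      exact Finset.mem_image_of_mem _ (Finset.mem_univ b)
    obtain ⟨b', -, hb'⟩ := Finset.mem_image.1 h3
    have h4 : b' = b := by rw [← h2 b', hb', h1 b]
    rw [← hb', h4]
  · intro S hS
    have h1 : ∀ b : Fin k, (S.filter (fun i => π i = b)).card = 1 := by simpa using hS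
    have h2 : ∀ b : Fin k, ∃ i, S.filter (fun i => π i = b) = {i} :=
      fun b => Finset.card_eq_one.1 (h1 b)
    choose B hB using h2
    have h3 : ∀ b, B b ∈ S ∧ π (B b) = b := by
      intro b
      have : B b ∈ S.filter (fun i => π i = b) := by
        rw [hB b]
        exact Finset.mem_singleton_self _
      simpa using this
    refine ⟨B, by simpa using fun b => (h3 b).2, ?_⟩
    ext i
    simp only [Finset.mem_image, Finset.mem_univ, true_and]
    constructor
    · rintro ⟨b, rfl⟩
      exact (h3 b).1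
    · intro hi
      refine ⟨π i, ?_⟩
      have h4 : i ∈ S.filter (fun j => π j = π i) := by
        simpa using hi
      rw [hB (π i), Finset.mem_singleton] at h4
      exact h4.symm
  · intro B _
    rfl

private lemma toCube_good {n k : ℕ} {f : (Fin n → ℤˣ) → ℝ} {π : Fin n → Fin k}
    (hf : BlockMultilinear f π) (h : Finset (Fin n) → ℝ → ℝ) (h0 : ∀ S, h S 0 = 0) :
    ∑ S : Finset (Fin n), (if ∀ b : Fin k, (S.filter (fun i => π i = b)).card = 1 then
      h S (fourierCoeff f S) else 0) = ∑ S : Finset (Fin n), h S (fourierCoeff f S) := by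
  refine Finset.sum_congr rfl fun S _ => ?_
  by_cases hS : fourierCoeff f S = 0
  · rw [hS, h0]
    simp
  · rw [if_pos (hf S hS)]

lemma toForm_bdd {n k : ℕ} {f : (Fin n → ℤˣ) → ℝ} {π : Fin n → Fin k}
    (hf : BlockMultilinear f π) (h1 : ∀ x, |f x| ≤ 1) : BddF (toForm f π) := by
  intro x
  have h2 : ev (toForm f π) (fun j i => sg (x j i)) =
      f (fun i => if x (π i) i then 1 else -1) := by
    set y : Fin n → ℤˣ := fun i => if x (π i) i then 1 else -1 with hy
    have h3 : ev (toForm f π) (fun j i => sg (x j i)) = ∑ B : Fin k → Fin n,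
        (if ∀ b, π (B b) = b then fourierCoeff f (univ.image B) *
          Pool.Agent.Helper11.Cube.chi (univ.image B) y else 0) := by
      unfold ev toForm
      refine Finset.sum_congr rfl fun B _ => ?_
      by_cases hB : ∀ b, π (B b) = b
      · rw [if_pos hB, if_pos hB]
        congr 1
        unfold Pool.Agent.Helper11.Cube.chi
        rw [Finset.prod_image fun a _ b _ h => toCube_inj hB h]
        refine Finset.prod_congr rfl fun j _ => ?_
        rw [hy]
        simp only [hB j]
        cases x j (B j) <;> simp [sg]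
      · rw [if_neg hB, if_neg hB, zero_mul]
    rw [h3, toCube_sum π (fun S => fourierCoeff f S * Pool.Agent.Helper11.Cube.chi S y),
      toCube_good hf (fun S r => r * Pool.Agent.Helper11.Cube.chi S y) (fun S => zero_mul _)]
    exact (Pool.Agent.Helper11.Cube.inversion f y).symm
  rw [h2]
  exact h1 _

lemma toForm_mass {n k : ℕ} (hk : 1 ≤ k) {f : (Fin n → ℤˣ) → ℝ} {π : Fin n → Fin k}
    (hf : BlockMultilinear f π) : mass (toForm f π) = variance f := by
  have h0 : fourierCoeff f ∅ = 0 := by
    by_contra h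
    have := hf ∅ h ⟨0, hk⟩
    simp at this
  have h1 : mass (toForm f π) = ∑ B : Fin k → Fin n,
      (if ∀ b, π (B b) = b then fourierCoeff f (univ.image B) ^ 2 else 0) := by
    unfold mass toForm
    refine Finset.sum_congr rfl fun B _ => ?_
    split_ifs
    · rfl
    · ring
  rw [h1, toCube_sum π (fun S => fourierCoeff f S ^ 2),
    toCube_good hf (fun _ r => r ^ 2) (fun _ => by ring), variance_eq_sum,
    ← Finset.add_sum_erase univ _ (Finset.mem_univ (∅ : Finset (Fin n))), h0]
  have h2 : ∑ S ∈ (univ : Finset (Finset (Fin n))).erase ∅, fourierCoeff f S ^ 2 =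
      ∑ S ∈ (univ : Finset (Finset (Fin n))).erase ∅,
        Pool.Agent.Helper11.Cube.coef f S ^ 2 := rfl
  rw [h2]
  ring

lemma toForm_Gam {n k : ℕ} (f : (Fin n → ℤˣ) → ℝ) (π : Fin n → Fin k) (c : Fin k) (i : Fin n) :
    Gam (toForm f π) c i i ≤ maxDerivNorm f ^ 2 := by
  refine le_trans ?_ (pow_le_pow_left₀ (derivNorm_nonneg f i) (derivNorm_le f i) 2)
  rw [derivNorm_sq, ex_deriv_sq, Gam_diag, Finset.sum_filter]
  have h1 : ∀ B : Fin k → Fin n, (if B c = i then toForm f π B ^ 2 else 0) ≤
      (if ∀ b, π (B b) = b then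
        (if i ∈ univ.image B then fourierCoeff f (univ.image B) ^ 2 else 0) else 0) := by
    intro B
    unfold toForm
    by_cases hB : ∀ b, π (B b) = b
    · rw [if_pos hB, if_pos hB]
      by_cases hi : B c = i
      · rw [if_pos hi, if_pos (by rw [← hi]; exact Finset.mem_image_of_mem _ (Finset.mem_univ c))]
      · rw [if_neg hi]
        split_ifs
        · exact sq_nonneg _
        · exact le_rfl
    · rw [if_neg hB, if_neg hB]
      simp
  refine (Finset.sum_le_sum fun B _ => h1 B).trans ?_
  rw [toCube_sum π (fun S => if i ∈ S then fourierCoeff f S ^ 2 else 0)]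
  refine Finset.sum_le_sum fun S _ => ?_
  have h2 : fourierCoeff f S = Pool.Agent.Helper11.Cube.coef f S := rfl
  rw [h2]
  split_ifs
  · exact le_rfl
  · exact le_rfl
  · exact sq_nonneg _
  · exact le_rfl

end Pool.Agent.BMF
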