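import Pool.Agent.BMF.Induct
import Pool.Agent.BMF.ToCube
import Pool.Agent.Helper11.AADefs

/-!
# BMF Main: the theorem for functions on the cube

Apply `bm_main` to `toForm (f / s) π`, `s = supNorm f > 0` (if `s = 0` then `variance f = 0`), `M2 = (maxDerivNorm f / s)^2`, `V = variance f / s^2`
(the scaling lemmas `variance_div`, `maxDerivNorm_div` can be copied from `Pool/Agent/Results/MP_f992e4_an/QuasiPolynomial.lean`), and take
square roots: `V / (2 √k) * exp (- 24000 (1 + log (1/V)) log k) ≤ M(f) / s`.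
-/

namespace Pool.Agent.BMF

open Finset Matrix Pool.Agent.Helper11.AA

lemma main_variance_div {n : ℕ} (f : (Fin n → ℤˣ) → ℝ) (s : ℝ) :
    variance (fun x => f x / s) = variance f / s ^ 2 := by
  unfold variance
  have h1 : ∀ x, (f x / s) ^ 2 = f x ^ 2 / s ^ 2 := fun x => div_pow _ _ _
  simp_rw [h1, ← Finset.sum_div]
  ring

lemma main_maxDerivNorm_div {n : ℕ} (f : (Fin n → ℤˣ) → ℝ) {s : ℝ} (hs : 0 < s) :
    maxDerivNorm (fun x => f x / s) = maxDerivNorm f / s := by
  unfold maxDerivNorm
  have h1 : ∀ j : Fin n, derivNorm j (fun x => f x / s) = derivNorm j f * s⁻¹ := by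
    intro j
    unfold derivNorm
    have h2 : ∀ x, discreteDeriv j (fun x => f x / s) x ^ 2 = discreteDeriv j f x ^ 2 / s ^ 2 := by
      intro x; unfold discreteDeriv; rw [← sub_div]; ring
    simp_rw [h2, ← Finset.sum_div]
    rw [div_right_comm, Real.sqrt_div', Real.sqrt_sq hs.le]
    · rfl
    · positivity
  simp_rw [h1]
  rw [← Real.iSup_mul_of_nonneg (inv_nonneg.mpr hs.le)]
  rfl

theorem bm_cube {n k : ℕ} (hk : 1 ≤ k) {f : (Fin n → ℤˣ) → ℝ} {π : Fin n → Fin k}
    (hf : BlockMultilinear f π) (hV : 0 < variance f) :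
    variance f / (2 * Real.sqrt k * supNorm f) *
        Real.exp (-(24000 * (1 + Real.log (supNorm f ^ 2 / variance f)) * Real.log k)) ≤
      maxDerivNorm f := by
  have hs : 0 < supNorm f := by
    rcases (supNorm_nonneg f).lt_or_eq with h | h
    · exact h
    · exfalso
      have h0 : ∀ x, f x = 0 := by
        intro x
        have := le_supNorm f x
        rw [← h] at this
        exact abs_nonpos_iff.mp this
      have : variance f = 0 := by
        unfold variance; simp [h0]
      linarith
  obtain ⟨s, hsdef⟩ : ∃ s, s = supNorm f := ⟨_, rfl⟩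
  obtain ⟨g, hg⟩ : ∃ g : (Fin n → ℤˣ) → ℝ, g = fun x => f x / s := ⟨_, rfl⟩
  rw [← hsdef] at hs ⊢
  have hgf : BlockMultilinear g π := by
    intro S hS
    apply hf S
    intro h0
    apply hS
    have h1 : Pool.Agent.Helper11.AA.fourierCoeff g S =
        Pool.Agent.Helper11.AA.fourierCoeff f S / s := by
      unfold Pool.Agent.Helper11.AA.fourierCoeff
      rw [hg, div_right_comm, Finset.sum_div, Finset.sum_div, Finset.sum_div]
      refine Finset.sum_congr rfl fun x _ => ?_
      ring
    rw [h1, h0, zero_div]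
  have hg1 : ∀ x, |g x| ≤ 1 := by
    intro x
    rw [hg]
    simp only [abs_div, abs_of_pos hs]
    rw [div_le_one hs, hsdef]
    exact le_supNorm f x
  have hvg : variance g = variance f / s ^ 2 := by rw [hg]; exact main_variance_div f s
  have hMg : maxDerivNorm g = maxDerivNorm f / s := by rw [hg]; exact main_maxDerivNorm_div f hs
  have hvg0 : 0 < variance g := by rw [hvg]; positivity
  have hne : Nonempty (Fin k) := ⟨⟨0, hk⟩⟩
  have hmass := toForm_mass hk hgf
  have h1 := bm_main (F := toForm g π) (toForm_bdd hgf hg1) (toForm_Gam g π)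
    (by rw [hmass]; exact hvg0)
  rw [hmass, Fintype.card_fin] at h1
  have hk0 : (0 : ℝ) < k := by exact_mod_cast hk
  have hM0 : 0 ≤ maxDerivNorm g := maxDerivNorm_nonneg g
  have h2 : (variance g / (2 * Real.sqrt k) *
      Real.exp (-(24000 * (1 + Real.log (1 / variance g)) * Real.log k))) ^ 2 ≤
      maxDerivNorm g ^ 2 := by
    refine le_of_eq_of_le ?_ h1
    rw [mul_pow, div_pow, mul_pow, Real.sq_sqrt hk0.le, ← Real.exp_nat_mul]
    congr 1
    · norm_num
    · congr 1
      push_cast
      ring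
  have h3 := abs_le_of_sq_le_sq h2 hM0
  have h4 := (le_abs_self _).trans h3
  rw [hMg, le_div_iff₀ hs] at h4
  refine le_of_eq_of_le ?_ h4
  have h5 : 1 / variance g = s ^ 2 / variance f := by
    rw [hvg, one_div_div]
  rw [h5, hvg]
  have hsk : Real.sqrt k ≠ 0 := (Real.sqrt_pos.2 hk0).ne'
  field_simp

end Pool.Agent.BMF
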