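import Pool.Agent.BMF.Sgn

/-!
# BMF Riesz: finite Riesz products

Proof. Put `r = √κ` and for `ξ : L → Bool` let `z i ξ = ∏ l, (1 + (r * R i l * sg (ξ l)) * I) : ℂ` and
`m i ξ = exp (-κ/2) * (z i ξ).im`. Then `‖z i ξ‖ ^ 2 = ∏ l, (1 + κ * R i l ^ 2) ≤ exp (κ * ∑ l, R i l ^ 2) ≤ exp κ`, so `|m i ξ| ≤ 1`.
By `sgn_mem` the matrix `M ξ = fun i j => if i = j then 1 else m i ξ * m j ξ` lies in the convex hull, hence so does the average
`2 ^ (-|L|) ∑ ξ, M ξ`. Its entries for `i ≠ j`: with `(Im a)(Im b) = (1/2) Re (a * conj b - a * b)` and independence of the signs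
(`∑ ξ, ∏ l, g l (ξ l) = ∏ l, ∑ b, g l b`),
`avg z i * conj (z j) = ∏ l, avg_b (1 + r R_il b I)(1 - r R_jl b I) = ∏ l, (1 + κ R_il R_jl)` and
`avg z i * z j = ∏ l, (1 - κ R_il R_jl)`, both real. Hence entry `= exp (-κ) / 2 * (∏ (1 + κ R R) - ∏ (1 - κ R R))`.
-/

namespace Pool.Agent.BMF

open Finset Matrix

/-- the product of the factors `1 + a l * (sign) * I` -/
private noncomputable def rieszP {L : Type} [Fintype L] (a : L → ℝ) (ξ : L → Bool) : ℂ :=
  ∏ l, (1 + ((a l * sg (ξ l) : ℝ) : ℂ) * Complex.I)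

private lemma riesz_conj {L : Type} [Fintype L] (a : L → ℝ) (ξ : L → Bool) :
    (starRingEnd ℂ) (rieszP a ξ) = rieszP (fun l => - a l) ξ := by
  unfold rieszP
  rw [map_prod]
  refine Finset.prod_congr rfl fun l _ => ?_
  rw [map_add, map_mul, Complex.conj_ofReal, Complex.conj_I, map_one]
  push_cast
  ring

private lemma riesz_norm {L : Type} [Fintype L] (a : L → ℝ) (ξ : L → Bool) :
    ‖rieszP a ξ‖ ^ 2 = ∏ l, (1 + a l ^ 2) := by
  unfold rieszP
  rw [norm_prod, ← Finset.prod_pow]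
  refine Finset.prod_congr rfl fun l _ => ?_
  rw [← Complex.normSq_eq_norm_sq, Complex.normSq_apply]
  have h := sg_sq (ξ l)
  simp only [Complex.add_re, Complex.one_re, Complex.mul_re, Complex.ofReal_re, Complex.I_re,
    mul_zero, Complex.ofReal_im, Complex.I_im, mul_one, sub_self, add_zero, Complex.add_im,
    Complex.one_im, Complex.mul_im, zero_add]
  linear_combination (a l) ^ 2 * h

private lemma riesz_avg {L : Type} [Fintype L] [DecidableEq L] (a b : L → ℝ) :
    ∑ ξ : L → Bool, rieszP a ξ * rieszP b ξ =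
      (((2 : ℝ) ^ Fintype.card L * ∏ l, (1 - a l * b l) : ℝ) : ℂ) := by
  have key : ∀ g : L → Bool → ℂ, ∑ ξ : L → Bool, ∏ l, g l (ξ l) = ∏ l, ∑ b, g l b := by
    intro g
    rw [Finset.prod_univ_sum, Fintype.piFinset_univ]
  obtain ⟨g, hg⟩ : ∃ g : L → Bool → ℂ, ∀ l c, g l c =
      (1 + ((a l * sg c : ℝ) : ℂ) * Complex.I) * (1 + ((b l * sg c : ℝ) : ℂ) * Complex.I) :=
    ⟨fun l c => _, fun _ _ => rfl⟩
  have h1 : ∀ ξ : L → Bool, rieszP a ξ * rieszP b ξ = ∏ l, g l (ξ l) := by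
    intro ξ
    unfold rieszP
    rw [← Finset.prod_mul_distrib]
    exact Finset.prod_congr rfl fun l _ => (hg l (ξ l)).symm
  rw [Finset.sum_congr rfl fun ξ _ => h1 ξ, key g]
  have h2 : ∀ l : L, ∑ c : Bool, g l c = 2 * (((1 - a l * b l : ℝ)) : ℂ) := by
    intro l
    rw [Fintype.sum_bool, hg, hg]
    simp only [sg, if_true, Bool.false_eq_true, if_false]
    push_cast
    linear_combination (2 * (a l : ℂ) * (b l : ℂ)) * Complex.I_sq
  rw [Finset.prod_congr rfl fun l _ => h2 l, Finset.prod_mul_distrib, Finset.prod_const,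
    Finset.card_univ]
  push_cast
  rfl

private lemma riesz_im (a b : ℂ) :
    a.im * b.im = (1 / 2) * (a * (starRingEnd ℂ) b - a * b).re := by
  simp only [Complex.sub_re, Complex.mul_re, Complex.conj_re, Complex.conj_im]
  ring

theorem riesz_mem {α : Type} [Fintype α] [DecidableEq α] {L : Type} [Fintype L] (R : α → L → ℝ)
    {κ : ℝ} (hκ : 0 ≤ κ) (hR : ∀ i, ∑ l, R i l ^ 2 ≤ 1) :
    (fun i j => if i = j then (1 : ℝ) else Real.exp (-κ) / 2 *
        (∏ l, (1 + κ * R i l * R j l) - ∏ l, (1 - κ * R i l * R j l)) : Matrix α α ℝ) ∈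
      convexHull ℝ (Set.range (signMat (α := α))) := by
  classical
  set r : ℝ := Real.sqrt κ with hr
  have hr2 : r * r = κ := Real.mul_self_sqrt hκ
  set z : α → (L → Bool) → ℂ := fun i ξ => rieszP (fun l => r * R i l) ξ with hz
  set m : (L → Bool) → α → ℝ := fun ξ i => Real.exp (-κ / 2) * (z i ξ).im with hm
  -- the bound
  have hm1 : ∀ ξ i, |m ξ i| ≤ 1 := by
    intro ξ i
    have h1 : ‖z i ξ‖ ^ 2 ≤ Real.exp κ := by
      have h2 : ‖z i ξ‖ ^ 2 = ∏ l, (1 + (r * R i l) ^ 2) := riesz_norm _ ξ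
      rw [h2]
      have h3 : ∏ l, (1 + (r * R i l) ^ 2) ≤ ∏ l, Real.exp (κ * R i l ^ 2) := by
        refine Finset.prod_le_prod (fun l _ => by positivity) fun l _ => ?_
        have h4 : (r * R i l) ^ 2 = κ * R i l ^ 2 := by rw [← hr2]; ring
        rw [h4, add_comm]
        exact Real.add_one_le_exp _
      refine h3.trans ?_
      rw [← Real.exp_sum, ← Finset.mul_sum]
      apply Real.exp_le_exp.2
      have h5 := mul_le_mul_of_nonneg_left (hR i) hκ
      rwa [mul_one] at h5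
    have h6 : ‖z i ξ‖ ≤ Real.exp (κ / 2) := by
      have h7 : Real.exp κ = Real.exp (κ / 2) ^ 2 := by
        rw [← Real.exp_nat_mul]
        congr 1
        push_cast
        ring
      rw [h7] at h1
      exact le_of_sq_le_sq h1 (Real.exp_pos _).le
    have h8 : |(z i ξ).im| ≤ Real.exp (κ / 2) := (Complex.abs_im_le_norm _).trans h6
    have h9 : |m ξ i| = Real.exp (-κ / 2) * |(z i ξ).im| := by
      rw [hm]
      simp only [abs_mul, Real.abs_exp]
    rw [h9]
    calc Real.exp (-κ / 2) * |(z i ξ).im| ≤ Real.exp (-κ / 2) * Real.exp (κ / 2) :=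
          mul_le_mul_of_nonneg_left h8 (Real.exp_pos _).le
      _ = 1 := by
          rw [← Real.exp_add]
          have : -κ / 2 + κ / 2 = 0 := by ring
          rw [this, Real.exp_zero]
  -- the average
  set Mx : (L → Bool) → Matrix α α ℝ := fun ξ i j =>
    if i = j then (1 : ℝ) else m ξ i * m ξ j with hMx
  have hmem : ∑ ξ : L → Bool, ((2 : ℝ) ^ Fintype.card L)⁻¹ • Mx ξ ∈
        convexHull ℝ (Set.range (signMat (α := α))) := by
    refine (convex_convexHull ℝ _).sum_mem (fun ξ _ => by positivity) ?_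
      (fun ξ _ => sgn_mem (m ξ) (hm1 ξ))
    rw [Finset.sum_const, Finset.card_univ, Fintype.card_fun, Fintype.card_bool]
    rw [nsmul_eq_mul]
    push_cast
    exact mul_inv_cancel₀ (by positivity)
  suffices h : (fun i j => if i = j then (1 : ℝ) else Real.exp (-κ) / 2 *
      (∏ l, (1 + κ * R i l * R j l) - ∏ l, (1 - κ * R i l * R j l)) : Matrix α α ℝ) =
        ∑ ξ : L → Bool, ((2 : ℝ) ^ Fintype.card L)⁻¹ • Mx ξ by
    rw [h]
    exact hmem
  apply Matrix.ext
  intro i j
  rw [Matrix.sum_apply]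
  simp only [Matrix.smul_apply, smul_eq_mul, hMx]
  by_cases hij : i = j
  · simp only [hij, if_true]
    rw [Finset.sum_const, Finset.card_univ, Fintype.card_fun, Fintype.card_bool]
    rw [nsmul_eq_mul]
    push_cast
    rw [mul_one, mul_inv_cancel₀ (by positivity)]
  · simp only [hij, if_false]
    have hP : ∑ ξ : L → Bool, (z i ξ).im * (z j ξ).im = (2 : ℝ) ^ Fintype.card L *
        ((1 / 2) * (∏ l, (1 + κ * R i l * R j l) - ∏ l, (1 - κ * R i l * R j l))) := by
      have h1 : ∑ ξ : L → Bool, (z i ξ).im * (z j ξ).im =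
          (1 / 2) * (∑ ξ : L → Bool, z i ξ * (starRingEnd ℂ) (z j ξ) -
            ∑ ξ : L → Bool, z i ξ * z j ξ).re := by
        rw [← Finset.sum_sub_distrib, Complex.re_sum, Finset.mul_sum]
        exact Finset.sum_congr rfl fun ξ _ => riesz_im _ _
      rw [h1]
      have h2 : ∑ ξ : L → Bool, z i ξ * (starRingEnd ℂ) (z j ξ) =
          (((2 : ℝ) ^ Fintype.card L * ∏ l, (1 - (r * R i l) * (-(r * R j l))) : ℝ) : ℂ) := by
        rw [← riesz_avg (fun l => r * R i l) (fun l => -(r * R j l))]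
        exact Finset.sum_congr rfl fun ξ _ => by rw [hz]; simp only [riesz_conj]
      have h3 : ∑ ξ : L → Bool, z i ξ * z j ξ =
          (((2 : ℝ) ^ Fintype.card L * ∏ l, (1 - (r * R i l) * (r * R j l)) : ℝ) : ℂ) :=
        riesz_avg (fun l => r * R i l) (fun l => r * R j l)
      rw [h2, h3, ← Complex.ofReal_sub, Complex.ofReal_re]
      have h4 : ∏ l, (1 - (r * R i l) * (-(r * R j l))) = ∏ l, (1 + κ * R i l * R j l) := by
        refine Finset.prod_congr rfl fun l _ => ?_
        rw [← hr2]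
        ring
      have h5 : ∏ l, (1 - (r * R i l) * (r * R j l)) = ∏ l, (1 - κ * R i l * R j l) := by
        refine Finset.prod_congr rfl fun l _ => ?_
        rw [← hr2]
        ring
      rw [h4, h5]
      ring
    have h6 : ∑ ξ : L → Bool, ((2 : ℝ) ^ Fintype.card L)⁻¹ * (m ξ i * m ξ j) =
        ((2 : ℝ) ^ Fintype.card L)⁻¹ * (Real.exp (-κ) * ∑ ξ : L → Bool, (z i ξ).im * (z j ξ).im) := by
      rw [← Finset.mul_sum, Finset.mul_sum (a := Real.exp (-κ))]
      congr 1
      refine Finset.sum_congr rfl fun ξ _ => ?_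
      have h7 : Real.exp (-κ) = Real.exp (-κ / 2) * Real.exp (-κ / 2) := by
        rw [← Real.exp_add]
        congr 1
        ring
      rw [hm, h7]
      ring
    rw [h6, hP]
    have h8 : (2 : ℝ) ^ Fintype.card L ≠ 0 := by positivity
    field_simp

end Pool.Agent.BMF
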