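import Pool.Agent.BMF.Basic

/-!
# BMF Sgn: independent signs with prescribed means

Proof. Weights `w x = ∏ i, (1 + sg (x i) * m i) / 2`, `x : α → Bool`; they are nonnegative, their sum is
`∏ i, ∑ b, (1 + sg b * m i) / 2 = 1` (`Finset.prod_univ_sum` or `Fintype.piFinset`), and
`∑ x, w x * (sg (x i) * sg (x j)) = m i * m j` for `i ≠ j` and `= 1` for `i = j` (multiply factor `i` and factor `j` separately;
`∑ b, sg b * (1 + sg b * m) / 2 = m`). So the matrix equals `∑ x, w x • signMat x`, a convex combination
(`Convex.sum_mem (convex_convexHull ..)` with `subset_convexHull`).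
-/

namespace Pool.Agent.BMF

open Finset Matrix

private theorem sgn_sum_prod {α : Type} [Fintype α] [DecidableEq α] (f : α → Bool → ℝ) :
    ∑ x : α → Bool, ∏ l, f l (x l) = ∏ l, ∑ b : Bool, f l b := by
  rw [Finset.prod_univ_sum]
  rw [Fintype.piFinset_univ]

theorem sgn_mem {α : Type} [Fintype α] [DecidableEq α] (m : α → ℝ) (hm : ∀ i, |m i| ≤ 1) :
    (fun i j => if i = j then (1 : ℝ) else m i * m j : Matrix α α ℝ) ∈
      convexHull ℝ (Set.range (signMat (α := α))) := by
  have hw : ∀ x : α → Bool, 0 ≤ ∏ l, (1 + sg (x l) * m l) / 2 := by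
    intro x
    refine Finset.prod_nonneg fun l _ => ?_
    have h1 := abs_le.1 (hm l)
    cases x l <;> simp [sg] <;> linarith
  have hsum : ∑ x : α → Bool, ∏ l, (1 + sg (x l) * m l) / 2 = 1 := by
    rw [sgn_sum_prod fun l b => (1 + sg b * m l) / 2]
    refine Finset.prod_eq_one fun l _ => ?_
    simp [sg]
    ring
  have hmat : (fun i j => if i = j then (1 : ℝ) else m i * m j : Matrix α α ℝ) =
      ∑ x : α → Bool, (∏ l, (1 + sg (x l) * m l) / 2) • signMat x := by
    ext i j
    rw [Matrix.sum_apply]
    by_cases hij : i = j
    · subst hij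
      simp only [if_true]
      refine hsum.symm.trans (Finset.sum_congr rfl fun x _ => ?_)
      rw [Matrix.smul_apply, smul_eq_mul]
      change _ = _ * (sg (x i) * sg (x i))
      rw [sg_sq, mul_one]
    · simp only [if_neg hij]
      have h1 : ∀ x : α → Bool, ((∏ l, (1 + sg (x l) * m l) / 2) • signMat x) i j =
          ∏ l, ((1 + sg (x l) * m l) / 2 * ((if l = i then sg (x l) else 1) *
            (if l = j then sg (x l) else 1))) := by
        intro x
        rw [Matrix.smul_apply, smul_eq_mul, Finset.prod_mul_distrib, Finset.prod_mul_distrib,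
          Finset.prod_ite_eq' Finset.univ i, Finset.prod_ite_eq' Finset.univ j,
          if_pos (Finset.mem_univ i), if_pos (Finset.mem_univ j)]
        rfl
      rw [Finset.sum_congr rfl fun x _ => h1 x,
        sgn_sum_prod fun l b => ((1 + sg b * m l) / 2 * ((if l = i then sg b else 1) *
            (if l = j then sg b else 1)))]
      have h2 : ∀ l, ∑ b : Bool, ((1 + sg b * m l) / 2 * ((if l = i then sg b else 1) *
            (if l = j then sg b else 1))) = (if l = i then m l else 1) *
            (if l = j then m l else 1) := by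
        intro l
        rw [Fintype.sum_bool]
        by_cases h3 : l = i
        · have h4 : l ≠ j := fun h5 => hij (h3.symm.trans h5)
          rw [if_pos h3, if_pos h3, if_neg h4, if_neg h4, if_pos h3, if_neg h4]
          simp [sg]
          ring
        · by_cases h4 : l = j
          · rw [if_neg h3, if_neg h3, if_pos h4, if_pos h4, if_pos h4, if_neg h3]
            simp [sg]
            ring
          · rw [if_neg h3, if_neg h4, if_neg h3, if_neg h4, if_neg h3, if_neg h4]
            simp [sg]
            ring
      rw [Finset.prod_congr rfl fun l _ => h2 l, Finset.prod_mul_distrib,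
        Finset.prod_ite_eq' Finset.univ i, Finset.prod_ite_eq' Finset.univ j,
          if_pos (Finset.mem_univ i), if_pos (Finset.mem_univ j)]
  rw [hmat]
  exact (convex_convexHull ℝ _).sum_mem (fun x _ => hw x) hsum
    (fun x _ => subset_convexHull ℝ _ ⟨x, rfl⟩)

end Pool.Agent.BMF
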