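import Pool.Agent.BMF.Yb
import Pool.Agent.BMF.DrBd
import Pool.Agent.BMF.Etype
import Pool.Agent.BMF.Hot

/-!
# BMF Static: the static theorem

Proof. Choose `N` larger than all levels. For `T` with `Tᶜ ≠ ∅` `dr_bound` with `yb`, `kb1`, `kb2` gives
`∑ c ∈ T, Dr ≤ 4 * 2660 Hb + 24 * 16 Hb + 4 * 16 Hb + 4 Et + 12 Ht`; for `T = univ` the drift is `0` (`dr_empty`). Sum over `T` (`2^|ι|` sets),
`etype`, `hot`, `le_Hb`: `≤ 2^|ι| (10640 + 384 + 64 + 12 + 12) Hb = 2^|ι| * 11112 Hb`.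
-/

namespace Pool.Agent.BMF

open Finset Matrix

variable {ι α : Type} [Fintype ι] [DecidableEq ι] [Fintype α] [DecidableEq α]

theorem static {F : (ι → α) → ℝ} (hF : BddF F) {θ : ℝ} (hθ : 0 < θ) :
    ∑ T : Finset ι, ∑ c ∈ T, Dr θ F c Tᶜ ≤ 2 ^ Fintype.card ι * (12000 * Hb (mass F)) := by
  classical
  have hm1 := mass_le_one hF
  have hm0 := mass_nonneg F
  have hH0 := Hb_nonneg hm0 hm1
  have hH1 := le_Hb hm0 hm1
  have hN : ∀ c i, lv F c i < (∑ c : ι, ∑ i : α, lv F c i) + 1 := by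
    intro c i
    have h1 : lv F c i ≤ ∑ i : α, lv F c i :=
      Finset.single_le_sum (f := fun i => lv F c i) (fun _ _ => Nat.zero_le _) (Finset.mem_univ i)
    have h2 : ∑ i : α, lv F c i ≤ ∑ c : ι, ∑ i : α, lv F c i :=
      Finset.single_le_sum (f := fun c => ∑ i : α, lv F c i) (fun _ _ => Nat.zero_le _)
        (Finset.mem_univ c)
    omega
  have h1 : ∑ T : Finset ι, ∑ c ∈ T, Dr θ F c Tᶜ =
      ∑ T ∈ (univ : Finset (Finset ι)).filter (fun T => Tᶜ.Nonempty), ∑ c ∈ T, Dr θ F c Tᶜ := by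
    rw [Finset.sum_filter]
    refine Finset.sum_congr rfl fun T _ => ?_
    by_cases hT : Tᶜ.Nonempty
    · rw [if_pos hT]
    · rw [if_neg hT]
      rw [Finset.not_nonempty_iff_eq_empty] at hT
      rw [hT]
      exact Finset.sum_eq_zero fun c _ => dr_empty F c θ
  rw [h1]
  have h2 : ∀ T ∈ (univ : Finset (Finset ι)).filter (fun T => Tᶜ.Nonempty), ∑ c ∈ T, Dr θ F c Tᶜ ≤
      11088 * Hb (mass F) + (4 * Et θ F T + 12 * Ht F T) := by
    intro T hT
    have hT' := (Finset.mem_filter.1 hT).2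
    have h3 := dr_bound hm1 hθ hT' hN
    have h4 := yb hF hθ T ((∑ c : ι, ∑ i : α, lv F c i) + 1)
    have h5 := kb1 hF T
    have h6 := kb2 hF T
    linarith
  refine (Finset.sum_le_sum h2).trans ?_
  rw [Finset.sum_add_distrib, Finset.sum_const, nsmul_eq_mul, Finset.sum_add_distrib]
  simp only [← Finset.mul_sum]
  have h3 := etype hm1 hθ
  have h4 := hot F
  have h5 : ((((univ : Finset (Finset ι)).filter (fun T => Tᶜ.Nonempty)).card : ℕ) : ℝ) ≤
      2 ^ Fintype.card ι := by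
    have h6 := Finset.card_filter_le (univ : Finset (Finset ι)) (fun T => Tᶜ.Nonempty)
    rw [Finset.card_univ, Fintype.card_finset] at h6
    exact_mod_cast h6
  have h6 := mul_le_mul_of_nonneg_right h5 (show 0 ≤ 11088 * Hb (mass F) by linarith)
  have h7 : (2 : ℝ) ^ Fintype.card ι * mass F ≤ 2 ^ Fintype.card ι * Hb (mass F) :=
    mul_le_mul_of_nonneg_left hH1 (by positivity)
  have h8 : 0 ≤ (2 : ℝ) ^ Fintype.card ι * Hb (mass F) := mul_nonneg (by positivity) hH0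
  linarith

end Pool.Agent.BMF
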