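import Pool.Agent.BMF.Static

/-!
# BMF Step: revealing one block

* `bdd_rev`: `ev (rev F c x) y = ev F (y with x in block c)` (`sum_ins`, product over `j ≠ c`: `Fintype.prod_eq_mul_prod_compl` or
  `Equiv`-free: `∏ j, g j = g c * ∏ j : {j // j ≠ c}, g j`).
* `mass_rev`: `Ex_sq` and `sum_ins`.
* `step`: the map `U ↦ subU c U` is a bijection from `{U | c ∉ U}` onto all finsets of `{j // j ≠ c}` and `card {j // j ≠ c} = |ι| - 1`, so
  `Ex (Lbar θ (rev F c x)) = (∑_{U ∌ c} Ex (Lp θ (rev F c x) (subU c U))) / 2^(|ι|-1) = (∑_{U ∌ c} (Dr θ F c U + Lp θ F U)) / 2^(|ι|-1)`.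
  And `Lbar θ F = (∑_{U ∌ c} (Lp θ F U + Lp θ F (insert c U))) / 2^|ι| ≥ (∑_{U ∌ c} Lp θ F U) / 2^(|ι|-1)` since `Lp θ F` is monotone in `U`
  (`tau F U B ≤ tau F (insert c U) B`, `log` monotone).
* `step_avg`: sum over `c`; pairs `(c, U)` with `c ∉ U` correspond to pairs `(T, c)` with `c ∈ T`, `T = Uᶜ`.
* `step_bdd`: `static`, `2^|ι| / 2^(|ι|-1) = 2`.
-/

namespace Pool.Agent.BMF

open Finset Matrix

variable {ι α : Type} [Fintype ι] [DecidableEq ι] [Fintype α] [DecidableEq α]

private lemma step_prod (c : ι) (g : ι → ℝ) :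
    ∏ j, g j = g c * ∏ j : {j // j ≠ c}, g j := by
  rw [Fintype.prod_eq_mul_prod_compl c]
  congr 1
  exact Finset.prod_subtype _ (fun x => by simp) _

private lemma step_ev (F : (ι → α) → ℝ) (c : ι) (x : α → ℝ) (y : {j // j ≠ c} → α → ℝ) :
    ev (rev F c x) y = ev F (fun j => if h : j = c then x else y ⟨j, h⟩) := by
  unfold ev
  rw [sum_ins c]
  refine Finset.sum_congr rfl fun A _ => ?_
  unfold rev
  rw [Finset.sum_mul]
  refine Finset.sum_congr rfl fun i _ => ?_
  rw [step_prod c]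
  simp only [ins_self, dite_true]
  rw [mul_assoc]
  congr 2
  refine Finset.prod_congr rfl fun j _ => ?_
  rw [ins_ne c i A j.2, dif_neg j.2]

lemma bdd_rev {F : (ι → α) → ℝ} (hF : BddF F) (c : ι) (x : α → Bool) :
    BddF (rev F c (fun i => sg (x i))) := by
  intro y
  rw [step_ev]
  have h := hF (fun j => if h : j = c then x else y ⟨j, h⟩)
  convert h using 4 with j i
  funext i
  by_cases h : j = c
  · simp [h]
  · simp [h]

lemma mass_rev (F : (ι → α) → ℝ) (c : ι) : Ex (fun x => mass (rev F c x)) = mass F := by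
  unfold mass
  rw [sum_ins c, Ex_sum univ (fun A x => rev F c x A ^ 2)]
  refine Finset.sum_congr rfl fun A _ => ?_
  exact Ex_sq (fun i => F (ins c i A))

private lemma step_sub (c : ι) (g : Finset {j // j ≠ c} → ℝ) :
    ∑ U', g U' = ∑ U ∈ (univ : Finset (Finset ι)).filter (fun U => c ∉ U), g (subU c U) := by
  refine Finset.sum_bij' (fun U' _ => U'.map (Function.Embedding.subtype _))
    (fun U _ => subU c U) ?_ ?_ ?_ ?_ ?_
  · intro U' _
    simp
  · intro U _
    exact Finset.mem_univ _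
  · intro U' _
    ext j
    simpa [subU] using fun _ => j.2
  · intro U hU
    have hc : c ∉ U := by simpa using hU
    ext j
    simp only [subU, Finset.mem_map, Finset.mem_subtype, Function.Embedding.subtype_apply]
    constructor
    · rintro ⟨a, ha, rfl⟩
      exact ha
    · intro hj
      exact ⟨⟨j, fun e => hc (e ▸ hj)⟩, hj, rfl⟩
  · intro U' _
    congr 1
    ext j
    simpa [subU] using fun _ => j.2

private lemma step_split (c : ι) (f : Finset ι → ℝ) :
    ∑ U, f U = ∑ U ∈ (univ : Finset (Finset ι)).filter (fun U => c ∉ U),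
      (f U + f (insert c U)) := by
  rw [Finset.sum_add_distrib, ← Finset.sum_filter_add_sum_filter_not univ (fun U => c ∉ U) f]
  congr 1
  symm
  refine Finset.sum_bij' (fun U _ => insert c U) (fun U _ => U.erase c) ?_ ?_ ?_ ?_ ?_
  · intro U _
    simp
  · intro U _
    simp
  · intro U hU
    have hc : c ∉ U := by simpa using hU
    exact Finset.erase_insert hc
  · intro U hU
    have hc : c ∈ U := by simpa using hU
    exact Finset.insert_erase hc
  · intro U _
    rfl

private lemma step_tau (F : (ι → α) → ℝ) (c : ι) (U : Finset ι) (B : ι → α) :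
    tau F U B ≤ tau F (insert c U) B := by
  unfold tau
  refine Finset.sum_le_sum fun B' _ => ?_
  by_cases h : ∃ u ∈ U, B u = B' u
  · obtain ⟨u, hu, he⟩ := h
    rw [if_pos ⟨u, hu, he⟩, if_pos ⟨u, Finset.mem_insert_of_mem hu, he⟩]
  · rw [if_neg h]
    split_ifs
    · exact sq_nonneg _
    · exact le_rfl

private lemma step_Lp (F : (ι → α) → ℝ) (c : ι) (U : Finset ι) {θ : ℝ} (hθ : 0 < θ) :
    Lp θ F U ≤ Lp θ F (insert c U) := by
  unfold Lp
  refine Finset.sum_le_sum fun B _ => mul_le_mul_of_nonneg_left ?_ (sq_nonneg _)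
  refine Real.log_le_log ?_ ?_
  · have := div_nonneg (tau_nonneg F U B) hθ.le
    linarith
  · have := div_le_div_of_nonneg_right (step_tau F c U B) hθ.le
    linarith

theorem step (F : (ι → α) → ℝ) (c : ι) {θ : ℝ} (hθ : 0 < θ) :
    Ex (fun x => Lbar θ (rev F c x)) ≤ Lbar θ F +
      (∑ U ∈ (univ : Finset (Finset ι)).filter (fun U => c ∉ U), Dr θ F c U) /
        2 ^ (Fintype.card ι - 1) := by
  have hcard : Fintype.card {j // j ≠ c} = Fintype.card ι - 1 := by
    rw [Fintype.card_subtype_compl]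
    simp
  obtain ⟨n, hn⟩ : ∃ n, Fintype.card ι = n + 1 :=
    Nat.exists_eq_succ_of_ne_zero (haveI : Nonempty ι := ⟨c⟩; Fintype.card_ne_zero)
  have h1 : (fun x : α → ℝ => Lbar θ (rev F c x)) = fun x =>
      ((2 : ℝ) ^ (Fintype.card ι - 1))⁻¹ *
        ∑ U ∈ (univ : Finset (Finset ι)).filter (fun U => c ∉ U),
          Lp θ (rev F c x) (subU c U) := by
    funext x
    unfold Lbar
    rw [step_sub c, hcard, div_eq_inv_mul]
  rw [h1, Ex_mul_left, Ex_sum _ (fun U x => Lp θ (rev F c x) (subU c U))]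
  have h2 : ∑ U ∈ (univ : Finset (Finset ι)).filter (fun U => c ∉ U),
      Ex (fun x => Lp θ (rev F c x) (subU c U)) =
      ∑ U ∈ (univ : Finset (Finset ι)).filter (fun U => c ∉ U), Dr θ F c U +
      ∑ U ∈ (univ : Finset (Finset ι)).filter (fun U => c ∉ U), Lp θ F U := by
    rw [← Finset.sum_add_distrib]
    refine Finset.sum_congr rfl fun U _ => ?_
    unfold Dr
    ring
  rw [h2]
  have h3 : (2 : ℝ) * ∑ U ∈ (univ : Finset (Finset ι)).filter (fun U => c ∉ U), Lp θ F U ≤
      ∑ U, Lp θ F U := by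
    rw [step_split c, Finset.mul_sum]
    refine Finset.sum_le_sum fun U _ => ?_
    have := step_Lp F c U hθ
    linarith
  unfold Lbar
  rw [hn, Nat.add_sub_cancel, mul_add, add_comm, pow_succ]
  have hp : (0 : ℝ) < 2 ^ n := by positivity
  have h4 : ((2 : ℝ) ^ n)⁻¹ * ∑ U ∈ (univ : Finset (Finset ι)).filter (fun U => c ∉ U),
      Lp θ F U ≤ (∑ U, Lp θ F U) / (2 ^ n * 2) := by
    rw [le_div_iff₀ (by positivity)]
    calc _ = (2 : ℝ) * ∑ U ∈ (univ : Finset (Finset ι)).filter (fun U => c ∉ U), Lp θ F U := by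
          field_simp
      _ ≤ _ := h3
  have h5 : ((2 : ℝ) ^ n)⁻¹ * ∑ U ∈ (univ : Finset (Finset ι)).filter (fun U => c ∉ U),
      Dr θ F c U = (∑ U ∈ (univ : Finset (Finset ι)).filter (fun U => c ∉ U), Dr θ F c U) /
        2 ^ n := by
    rw [div_eq_inv_mul]
  rw [h5]
  linarith

theorem step_avg (F : (ι → α) → ℝ) {θ : ℝ} (hθ : 0 < θ) :
    ∑ c, Ex (fun x => Lbar θ (rev F c x)) ≤ Fintype.card ι * Lbar θ F +
      (∑ T : Finset ι, ∑ c ∈ T, Dr θ F c Tᶜ) / 2 ^ (Fintype.card ι - 1) := by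
  refine (Finset.sum_le_sum fun c _ => step F c hθ).trans ?_
  rw [Finset.sum_add_distrib, Finset.sum_const, Finset.card_univ, nsmul_eq_mul,
    ← Finset.sum_div]
  refine add_le_add le_rfl (le_of_eq ?_)
  congr 1
  have h1 : ∀ c : ι, ∑ U ∈ (univ : Finset (Finset ι)).filter (fun U => c ∉ U), Dr θ F c U =
      ∑ T : Finset ι, if c ∈ T then Dr θ F c Tᶜ else 0 := by
    intro c
    rw [Finset.sum_filter]
    refine Finset.sum_bij' (fun U _ => Uᶜ) (fun T _ => Tᶜ) ?_ ?_ ?_ ?_ ?_
    · intro U _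
      exact Finset.mem_univ _
    · intro U _
      exact Finset.mem_univ _
    · intro U _
      exact compl_compl U
    · intro U _
      exact compl_compl U
    · intro U _
      simp [compl_compl]
  rw [Finset.sum_congr rfl fun c _ => h1 c, Finset.sum_comm]
  refine Finset.sum_congr rfl fun T _ => ?_
  rw [← Finset.sum_filter]
  refine Finset.sum_congr ?_ fun _ _ => rfl
  ext c
  simp

theorem step_bdd [Nonempty ι] {F : (ι → α) → ℝ} (hF : BddF F) {θ : ℝ} (hθ : 0 < θ) :
    ∑ c, Ex (fun x => Lbar θ (rev F c x)) ≤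
      Fintype.card ι * Lbar θ F + 24000 * Hb (mass F) := by
  refine (step_avg F hθ).trans (add_le_add le_rfl ?_)
  obtain ⟨n, hn⟩ : ∃ n, Fintype.card ι = n + 1 :=
    Nat.exists_eq_succ_of_ne_zero Fintype.card_ne_zero
  have h := static hF hθ
  rw [hn] at h ⊢
  rw [Nat.add_sub_cancel, div_le_iff₀ (by positivity)]
  refine h.trans (le_of_eq ?_)
  rw [pow_succ]
  ring

end Pool.Agent.BMF
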