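import Pool.Agent.BMF.Riesz

/-!
# BMF Tilt: the sinh tilt

Proof. `Q` is positive semidefinite, so `Q = Rᴴ * R` for a real matrix `R` (e.g. `Matrix.posSemidef_iff_eq_conjTranspose_mul_self`
or `CStarAlgebra.nonneg_iff_eq_star_mul_self`), i.e. `Q i j = ∑ l, R l i * R l j` and `∑ l, R l i ^ 2 = Q i i ≤ 1`.
For `q ≥ 1` apply `riesz_mem` to `R' i (l, t) = R l i / √q` on `L × Fin q`: the entries for `i ≠ j` are
`exp (-κ) / 2 * (∏ l, (1 + κ R_li R_lj / q) ^ q - ∏ l, (1 - κ R_li R_lj / q) ^ q)`. As `q → ∞`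
(`Real.tendsto_one_add_div_pow_exp`, `tendsto_finset_prod`) this tends to
`exp (-κ) / 2 * (exp (κ Q i j) - exp (-κ Q i j)) = exp (-κ) * sinh (κ * Q i j)`. The limit of elements of the convex hull
lies in its closure (`mem_closure_of_tendsto`, `tendsto_pi_nhds`).
-/

namespace Pool.Agent.BMF

open Finset Matrix

theorem tilt_fac {α : Type} [Fintype α] [DecidableEq α] {Q : Matrix α α ℝ} (hQ : Q.PosSemidef) :
    ∃ R : α → α → ℝ, ∀ i j, Q i j = ∑ l, R i l * R j l := by
  open scoped MatrixOrder ComplexOrder in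
  obtain ⟨B, rfl⟩ := CStarAlgebra.nonneg_iff_eq_star_mul_self.mp hQ.nonneg
  refine ⟨fun i l => B l i, fun i j => ?_⟩
  rw [Matrix.star_eq_conjTranspose, Matrix.mul_apply]
  exact Finset.sum_congr rfl fun l _ => by rw [Matrix.conjTranspose_apply, star_trivial]

theorem tilt_prod {α : Type} [Fintype α] (a : α → ℝ) :
    Filter.Tendsto (fun n : ℕ => ∏ p : α × Fin n, (1 + a p.1 / n)) Filter.atTop
      (nhds (Real.exp (∑ l, a l))) := by
  have h1 : ∀ n : ℕ, ∏ p : α × Fin n, (1 + a p.1 / n) = ∏ l, (1 + a l / n) ^ n := by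
    intro n
    rw [Fintype.prod_prod_type]
    refine Finset.prod_congr rfl fun l _ => ?_
    show ∏ _y : Fin n, (1 + a l / (n : ℝ)) = _
    rw [Finset.prod_const, Finset.card_univ, Fintype.card_fin]
  simp_rw [h1]
  rw [Real.exp_sum]
  exact tendsto_finsetProd _ fun l _ => Real.tendsto_one_add_div_pow_exp (a l)

theorem tilt_mem {α : Type} [Fintype α] [DecidableEq α] {Q : Matrix α α ℝ} (hQ : Q.PosSemidef)
    (hd : ∀ i, Q i i ≤ 1) {κ : ℝ} (hκ : 0 ≤ κ) :
    (fun i j => if i = j then (1 : ℝ) else Real.exp (-κ) * Real.sinh (κ * Q i j) : Matrix α α ℝ) ∈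
      Cor α := by
  obtain ⟨R, hR⟩ := tilt_fac hQ
  have hsq : ∀ n : ℕ, ((1 : ℝ) / Real.sqrt n) * (1 / Real.sqrt n) = 1 / n := by
    intro n
    rw [div_mul_div_comm, one_mul, Real.mul_self_sqrt (Nat.cast_nonneg n)]
  have hmem : ∀ n : ℕ, (fun i j => if i = j then (1 : ℝ) else Real.exp (-κ) / 2 *
        (∏ p : α × Fin n, (1 + (κ * (R i p.1 * R j p.1)) / n) -
          ∏ p : α × Fin n, (1 + (-(κ * (R i p.1 * R j p.1))) / n)) : Matrix α α ℝ) ∈
      convexHull ℝ (Set.range (signMat (α := α))) := by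
    intro n
    have h := riesz_mem (L := α × Fin n) (fun i p => R i p.1 * (1 / Real.sqrt n)) hκ ?_
    · have e1 : ∀ i j (p : α × Fin n), κ * (R i p.1 * (1 / Real.sqrt n)) *
          (R j p.1 * (1 / Real.sqrt n)) = (κ * (R i p.1 * R j p.1)) / n := by
        intro i j p
        have e := hsq n
        calc κ * (R i p.1 * (1 / Real.sqrt n)) * (R j p.1 * (1 / Real.sqrt n))
            = κ * (R i p.1 * R j p.1) * ((1 / Real.sqrt n) * (1 / Real.sqrt n)) := by ring
          _ = (κ * (R i p.1 * R j p.1)) / n := by rw [e]; ring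
      simp only [e1] at h
      simpa only [neg_div, ← sub_eq_add_neg] using h
    · intro i
      rw [Fintype.sum_prod_type]
      have e2 : ∀ l, ∑ _t : Fin n, (R i l * (1 / Real.sqrt n)) ^ 2 = (n : ℝ) * (1 / n) * (R i l * R i l) := by
        intro l
        rw [Finset.sum_const, Finset.card_univ, Fintype.card_fin, nsmul_eq_mul, ← hsq n]
        ring
      simp_rw [e2]
      rw [← Finset.mul_sum, ← hR]
      have h0 : 0 ≤ Q i i := by
        rw [hR]
        exact Finset.sum_nonneg fun l _ => mul_self_nonneg _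
      rcases Nat.eq_zero_or_pos n with hn | hn
      · subst hn
        simp
      · have hn' : (n : ℝ) ≠ 0 := by positivity
        rw [mul_one_div_cancel hn', one_mul]
        exact hd i
  refine mem_closure_of_tendsto (f := fun n : ℕ => _) (b := Filter.atTop) ?_
    (Filter.Eventually.of_forall hmem)
  refine tendsto_pi_nhds.2 fun i => tendsto_pi_nhds.2 fun j => ?_
  by_cases hij : i = j
  · simp only [if_pos hij]
    exact tendsto_const_nhds
  · simp only [if_neg hij]
    have h1 := tilt_prod (fun l => κ * (R i l * R j l))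
    have h2 := tilt_prod (fun l => -(κ * (R i l * R j l)))
    have h3 := (h1.sub h2).const_mul (Real.exp (-κ) / 2)
    have e3 : Real.exp (-κ) / 2 * (Real.exp (∑ l, κ * (R i l * R j l)) -
        Real.exp (∑ l, -(κ * (R i l * R j l)))) = Real.exp (-κ) * Real.sinh (κ * Q i j) := by
      rw [Finset.sum_neg_distrib, ← Finset.mul_sum, ← hR, Real.sinh_eq]
      ring
    rw [e3] at h3
    exact h3

end Pool.Agent.BMF
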