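import Pool.Agent.BMF.Ab

/-!
# BMF Yb: the two-density trick

Fix `N`; `n, m` range over `range N`; `U = Tᶜ`. For `S ⊆ range N` let `F^S B = (if nU F U B ∈ S then pw θ F U B else 0) * F B`
`= ∑ n ∈ S, Fn θ F U n B`. The multiplier only depends on `B` outside `T` (`nU F U B` and `tau F U B` only see the coordinates in `U`)
and is bounded by `1` in absolute value (`pw` is a `min 1 _` of nonnegative numbers). For `c ∈ T`
`Gam (F^S) c = ∑ n ∈ S, Gam (Fn n) c` (the two factors `F (ins c i A)`, `F (ins c j A)` have the same `nU`, `nU_ins`).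
Also `off (NS F S' c) i k = (1/2) ∑ m ∈ S', 2^m * cut (lv F c) m (off (Gt F c)) i k`. Hence
`∑ c ∈ T, ip (Gam (F^S) c) (off (NS F S' c)) = (1/2) ∑ n ∈ S, ∑ m ∈ S', Yc θ F T n m`.                     (*)
`lemT_bdd` with `Q c = (1/24) NS F S c` (`ctr_NS`), `INC_smul`, `incN_le`, `ab`:
(1) `(1/2) ∑ n ∈ S, ∑ m ∈ S, Yc n m ≤ 24 (11 Hb + (1/6)(1/576) AA) ≤ 264 Hb + (282/144) Hb ≤ 266 Hb` for every `S ⊆ range N`;
(2) with `Q c = 1 - (1/24) NS F S c` (`ctr_one_sub`, `ip_off_one_sub`, `INC_one_sub`): `- (1/2) ∑ n ∈ S, ∑ m ∈ S, Yc n m ≤ 266 Hb`.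
Average (1) over all subsets `S` of `range N`: a pair `n ≠ m` is in `S` for a quarter, `n = m` for half of the subsets:
`(1/2) [ (1/2) ∑ n, Yc n n + (1/4) (Σ - ∑ n, Yc n n) ] ≤ 266 Hb` where `Σ = ∑ n m ∈ range N, Yc n m`, i.e.
`(1/8) ∑ n, Yc n n + (1/8) Σ ≤ 266 Hb`; (2) for `S = range N`: `Σ ≥ - 532 Hb`. Hence `∑ n, Yc n n ≤ 8 * 266 Hb + 532 Hb = 2660 Hb`.
(`avg_subsets`: `∑ S ∈ (range N).powerset, ∑ n ∈ S, ∑ m ∈ S, f n m = 2^N ((1/4) ∑ n m, f n m + (1/4) ∑ n, f n n)`; induction on `N` or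
counting the subsets containing `n` and `m`.)
-/

namespace Pool.Agent.BMF

open Finset Matrix

variable {ι α : Type} [Fintype ι] [DecidableEq ι] [Fintype α] [DecidableEq α]

lemma yb_sum_powerset (s : Finset ℕ) (g : ℕ → ℝ) :
    ∑ S ∈ s.powerset, ∑ n ∈ S, g n = 2 ^ s.card * ((1 / 2) * ∑ n ∈ s, g n) := by
  induction s using Finset.induction_on with
  | empty => simp
  | insert a s ha ih =>
    rw [Finset.sum_powerset_insert ha, ih, Finset.card_insert_of_notMem ha, Finset.sum_insert ha]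
    have h1 : ∑ S ∈ s.powerset, ∑ n ∈ insert a S, g n =
        ∑ S ∈ s.powerset, (g a + ∑ n ∈ S, g n) := by
      refine Finset.sum_congr rfl fun S hS => ?_
      rw [Finset.sum_insert fun h => ha (Finset.mem_powerset.1 hS h)]
    rw [h1, Finset.sum_add_distrib, ih, Finset.sum_const, Finset.card_powerset, nsmul_eq_mul]
    push_cast
    ring

lemma yb_sum_powerset2 (s : Finset ℕ) (f : ℕ → ℕ → ℝ) :
    ∑ S ∈ s.powerset, ∑ n ∈ S, ∑ m ∈ S, f n m =
      2 ^ s.card * ((1 / 4) * ∑ n ∈ s, ∑ m ∈ s, f n m + (1 / 4) * ∑ n ∈ s, f n n) := by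
  induction s using Finset.induction_on with
  | empty => simp
  | insert a s ha ih =>
    rw [Finset.sum_powerset_insert ha, ih, Finset.card_insert_of_notMem ha, Finset.sum_insert ha,
      Finset.sum_insert ha]
    have h1 : ∑ S ∈ s.powerset, ∑ n ∈ insert a S, ∑ m ∈ insert a S, f n m =
        ∑ S ∈ s.powerset, (f a a + ∑ m ∈ S, f a m + (∑ n ∈ S, f n a + ∑ n ∈ S, ∑ m ∈ S, f n m)) := by
      refine Finset.sum_congr rfl fun S hS => ?_
      have h : a ∉ S := fun h => ha (Finset.mem_powerset.1 hS h)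
      rw [Finset.sum_insert h, Finset.sum_insert h, ← Finset.sum_add_distrib]
      congr 1
      refine Finset.sum_congr rfl fun n _ => ?_
      rw [Finset.sum_insert h]
    have h2 : ∑ n ∈ s, ∑ m ∈ insert a s, f n m = ∑ n ∈ s, f n a + ∑ n ∈ s, ∑ m ∈ s, f n m := by
      rw [← Finset.sum_add_distrib]
      refine Finset.sum_congr rfl fun n _ => ?_
      rw [Finset.sum_insert ha]
    rw [h1, h2, Finset.sum_add_distrib, Finset.sum_add_distrib, Finset.sum_add_distrib, ih,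
      yb_sum_powerset, yb_sum_powerset, Finset.sum_const, Finset.card_powerset, nsmul_eq_mul,
      Finset.sum_insert ha]
    push_cast
    ring

lemma avg_subsets (N : ℕ) (f : ℕ → ℕ → ℝ) :
    ∑ S ∈ (range N).powerset, ∑ n ∈ S, ∑ m ∈ S, f n m =
      2 ^ N * ((1 / 4) * ∑ n ∈ range N, ∑ m ∈ range N, f n m + (1 / 4) * ∑ n ∈ range N, f n n) := by
  rw [yb_sum_powerset2, Finset.card_range]

lemma yb_nU_congr (F : (ι → α) → ℝ) {U : Finset ι} {B B' : ι → α} (h : ∀ u ∈ U, B u = B' u) :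
    nU F U B = nU F U B' := by
  unfold nU
  by_cases hU : U.Nonempty
  · rw [dif_pos hU, dif_pos hU]
    exact Finset.inf'_congr hU rfl fun u hu => by rw [h u hu]
  · rw [dif_neg hU, dif_neg hU]

lemma yb_tau_congr (F : (ι → α) → ℝ) {U : Finset ι} {B B' : ι → α} (h : ∀ u ∈ U, B u = B' u) :
    tau F U B = tau F U B' := by
  unfold tau
  refine Finset.sum_congr rfl fun B'' _ => ?_
  have e : (∃ u ∈ U, B u = B'' u) ↔ (∃ u ∈ U, B' u = B'' u) := by
    constructor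
    · rintro ⟨u, hu, hx⟩
      exact ⟨u, hu, (h u hu).symm.trans hx⟩
    · rintro ⟨u, hu, hx⟩
      exact ⟨u, hu, (h u hu).trans hx⟩
  by_cases hp : ∃ u ∈ U, B u = B'' u
  · rw [if_pos hp, if_pos (e.1 hp)]
  · rw [if_neg hp, if_neg fun hq => hp (e.2 hq)]

lemma yb_pw_congr (θ : ℝ) (F : (ι → α) → ℝ) {U : Finset ι} {B B' : ι → α}
    (h : ∀ u ∈ U, B u = B' u) : pw θ F U B = pw θ F U B' := by
  unfold pw
  rw [yb_nU_congr F h, yb_tau_congr F h]

lemma yb_pw_nonneg (θ : ℝ) (F : (ι → α) → ℝ) (U : Finset ι) (B : ι → α) : 0 ≤ pw θ F U B :=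
  le_min zero_le_one (Real.sqrt_nonneg _)

lemma yb_pw_le (θ : ℝ) (F : (ι → α) → ℝ) (U : Finset ι) (B : ι → α) : pw θ F U B ≤ 1 :=
  min_le_left _ _

/-- the multiplier for the set `S` of levels -/
noncomputable def ybP (θ : ℝ) (F : (ι → α) → ℝ) (U : Finset ι) (S : Finset ℕ) (B : ι → α) : ℝ :=
  if nU F U B ∈ S then pw θ F U B else 0

lemma ybP_congr (θ : ℝ) (F : (ι → α) → ℝ) {U : Finset ι} (S : Finset ℕ) {B B' : ι → α}
    (h : ∀ u ∈ U, B u = B' u) : ybP θ F U S B = ybP θ F U S B' := by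
  unfold ybP
  rw [yb_nU_congr F h, yb_pw_congr θ F h]

lemma ybP_abs (θ : ℝ) (F : (ι → α) → ℝ) (U : Finset ι) (S : Finset ℕ) (B : ι → α) :
    |ybP θ F U S B| ≤ 1 := by
  unfold ybP
  split_ifs
  · rw [abs_of_nonneg (yb_pw_nonneg θ F U B)]
    exact yb_pw_le θ F U B
  · simp

lemma yb_Gam (θ : ℝ) (F : (ι → α) → ℝ) {U : Finset ι} {c : ι} (hc : c ∉ U) (S : Finset ℕ)
    (i j : α) :
    Gam (fun B => ybP θ F U S B * F B) c i j = ∑ n ∈ S, Gam (Fn θ F U n) c i j := by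
  unfold Gam
  rw [Finset.sum_comm]
  refine Finset.sum_congr rfl fun A _ => ?_
  have hn : nU F U (ins c j A) = nU F U (ins c i A) := nU_ins F hc j i A
  simp only [ybP, Fn, hn]
  have h1 : ∀ n ∈ S,
      ((if nU F U (ins c i A) = n then pw θ F U (ins c i A) * F (ins c i A) else 0) *
        (if nU F U (ins c i A) = n then pw θ F U (ins c j A) * F (ins c j A) else 0) : ℝ) =
      if nU F U (ins c i A) = n then (pw θ F U (ins c i A) * F (ins c i A)) *
        (pw θ F U (ins c j A) * F (ins c j A)) else 0 := by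
    intro n _
    split_ifs <;> simp
  rw [Finset.sum_congr rfl h1, Finset.sum_ite_eq]
  split_ifs <;> simp

lemma yb_off_NS (F : (ι → α) → ℝ) (S : Finset ℕ) (c : ι) (i k : α) :
    off (NS F S c) i k = ∑ m ∈ S, (1 / 2) * (2 ^ m * cut (lv F c) m (off (Gt F c)) i k) := by
  simp only [off, NS, cut]
  by_cases hik : i = k
  · simp only [if_pos hik]
    symm
    apply Finset.sum_eq_zero
    intro m _
    simp
  · simp only [if_neg hik]
    unfold kap
    rw [Finset.sum_filter, Finset.mul_sum, Finset.sum_mul]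
    refine Finset.sum_congr rfl fun m _ => ?_
    split_ifs <;> ring

lemma yb_key (θ : ℝ) (F : (ι → α) → ℝ) (T : Finset ι) (S : Finset ℕ) :
    ∑ c ∈ T, ip (Gam (fun B => ybP θ F Tᶜ S B * F B) c) (off (NS F S c)) =
      (1 / 2) * ∑ n ∈ S, ∑ m ∈ S, Yc θ F T n m := by
  have h1 : ∀ c ∈ T, ip (Gam (fun B => ybP θ F Tᶜ S B * F B) c) (off (NS F S c)) =
      ∑ n ∈ S, ∑ m ∈ S, (1 / 2) * ip (Gam (Fn θ F Tᶜ n) c)
        (fun i k => 2 ^ m * cut (lv F c) m (off (Gt F c)) i k) := by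
    intro c hc
    have hc' : c ∉ Tᶜ := by simpa using hc
    unfold ip
    have h2 : ∀ i k : α, Gam (fun B => ybP θ F Tᶜ S B * F B) c i k * off (NS F S c) i k =
        ∑ n ∈ S, ∑ m ∈ S, (1 / 2) * (Gam (Fn θ F Tᶜ n) c i k *
          (2 ^ m * cut (lv F c) m (off (Gt F c)) i k)) := by
      intro i k
      rw [yb_Gam θ F hc', yb_off_NS, Finset.sum_mul_sum]
      refine Finset.sum_congr rfl fun n _ => Finset.sum_congr rfl fun m _ => by ring
    simp only [h2]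
    calc ∑ i, ∑ k, ∑ n ∈ S, ∑ m ∈ S, (1 / 2) * (Gam (Fn θ F Tᶜ n) c i k *
          (2 ^ m * cut (lv F c) m (off (Gt F c)) i k))
        = ∑ i, ∑ n ∈ S, ∑ k, ∑ m ∈ S, (1 / 2) * (Gam (Fn θ F Tᶜ n) c i k *
          (2 ^ m * cut (lv F c) m (off (Gt F c)) i k)) :=
          Finset.sum_congr rfl fun i _ => Finset.sum_comm
      _ = ∑ n ∈ S, ∑ i, ∑ k, ∑ m ∈ S, (1 / 2) * (Gam (Fn θ F Tᶜ n) c i k *
          (2 ^ m * cut (lv F c) m (off (Gt F c)) i k)) := Finset.sum_comm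
      _ = ∑ n ∈ S, ∑ m ∈ S, (1 / 2) * ∑ i, ∑ k, (Gam (Fn θ F Tᶜ n) c i k *
          (2 ^ m * cut (lv F c) m (off (Gt F c)) i k)) := by
          refine Finset.sum_congr rfl fun n _ => ?_
          calc ∑ i, ∑ k, ∑ m ∈ S, (1 / 2) * (Gam (Fn θ F Tᶜ n) c i k *
                (2 ^ m * cut (lv F c) m (off (Gt F c)) i k))
              = ∑ i, ∑ m ∈ S, ∑ k, (1 / 2) * (Gam (Fn θ F Tᶜ n) c i k *
                (2 ^ m * cut (lv F c) m (off (Gt F c)) i k)) :=
                Finset.sum_congr rfl fun i _ => Finset.sum_comm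
            _ = ∑ m ∈ S, ∑ i, ∑ k, (1 / 2) * (Gam (Fn θ F Tᶜ n) c i k *
                (2 ^ m * cut (lv F c) m (off (Gt F c)) i k)) := Finset.sum_comm
            _ = _ := by
                refine Finset.sum_congr rfl fun m _ => ?_
                rw [Finset.mul_sum]
                refine Finset.sum_congr rfl fun i _ => ?_
                rw [Finset.mul_sum]
  rw [Finset.sum_congr rfl h1]
  calc ∑ c ∈ T, ∑ n ∈ S, ∑ m ∈ S, (1 / 2) * ip (Gam (Fn θ F Tᶜ n) c)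
        (fun i k => 2 ^ m * cut (lv F c) m (off (Gt F c)) i k)
      = ∑ n ∈ S, ∑ c ∈ T, ∑ m ∈ S, (1 / 2) * ip (Gam (Fn θ F Tᶜ n) c)
        (fun i k => 2 ^ m * cut (lv F c) m (off (Gt F c)) i k) := Finset.sum_comm
    _ = ∑ n ∈ S, ∑ m ∈ S, ∑ c ∈ T, (1 / 2) * ip (Gam (Fn θ F Tᶜ n) c)
        (fun i k => 2 ^ m * cut (lv F c) m (off (Gt F c)) i k) :=
        Finset.sum_congr rfl fun n _ => Finset.sum_comm
    _ = (1 / 2) * ∑ n ∈ S, ∑ m ∈ S, Yc θ F T n m := by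
        rw [Finset.mul_sum]
        refine Finset.sum_congr rfl fun n _ => ?_
        rw [Finset.mul_sum]
        refine Finset.sum_congr rfl fun m _ => ?_
        unfold Yc
        rw [Finset.mul_sum]

lemma yb_off_smul (r : ℝ) (M : Matrix α α ℝ) : off (r • M) = r • off M := by
  funext i j
  unfold off
  by_cases h : i = j
  · simp [h]
  · simp [h]

theorem y_two {F : (ι → α) → ℝ} (hF : BddF F) {θ : ℝ} (hθ : 0 < θ) (T : Finset ι) (S : Finset ℕ) :
    |(1 / 2) * ∑ n ∈ S, ∑ m ∈ S, Yc θ F T n m| ≤ 266 * Hb (mass F) := by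
  rw [← yb_key]
  have hH : 0 ≤ Hb (mass F) := Hb_nonneg (mass_nonneg F) (mass_le_one hF)
  have hp : ∀ B B' : ι → α, (∀ j, j ∉ T → B j = B' j) →
      ybP θ F Tᶜ S B = ybP θ F Tᶜ S B' := by
    intro B B' h
    exact ybP_congr θ F S fun u hu => h u (by simpa using hu)
  have h1 : ∀ B, |ybP θ F Tᶜ S B| ≤ 1 := fun B => ybP_abs θ F Tᶜ S B
  have hI : ∑ j ∈ T, INC (Gam F j) ((1 / 24 : ℝ) • NS F S j) ≤ (1 / 24) ^ 2 * AA F T := by
    have : ∑ j ∈ T, INC (Gam F j) ((1 / 24 : ℝ) • NS F S j) =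
        (1 / 24) ^ 2 * ∑ j ∈ T, INC (Gam F j) (NS F S j) := by
      rw [Finset.mul_sum]
      exact Finset.sum_congr rfl fun j _ => INC_smul _ _ _
    rw [this]
    exact mul_le_mul_of_nonneg_left (incN_le hF T S) (by positivity)
  have hA := ab hF T
  have ha := lemT_bdd hF (ybP θ F Tᶜ S) hp h1 (fun j => (1 / 24 : ℝ) • NS F S j)
    (fun j _ => ctr_NS F S j)
  have hb := lemT_bdd hF (ybP θ F Tᶜ S) hp h1 (fun j => 1 - (1 / 24 : ℝ) • NS F S j)
    (fun j _ => ctr_one_sub (ctr_NS F S j))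
  have e1 : ∑ j ∈ T, ip (Gam (fun B => ybP θ F Tᶜ S B * F B) j)
      (off ((1 / 24 : ℝ) • NS F S j)) =
      (1 / 24) * ∑ j ∈ T, ip (Gam (fun B => ybP θ F Tᶜ S B * F B) j) (off (NS F S j)) := by
    rw [Finset.mul_sum]
    refine Finset.sum_congr rfl fun j _ => ?_
    rw [yb_off_smul, ip_smul]
  have e2 : ∑ j ∈ T, ip (Gam (fun B => ybP θ F Tᶜ S B * F B) j)
      (off (1 - (1 / 24 : ℝ) • NS F S j)) =
      - ((1 / 24) * ∑ j ∈ T, ip (Gam (fun B => ybP θ F Tᶜ S B * F B) j) (off (NS F S j))) := by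
    rw [← e1, ← Finset.sum_neg_distrib]
    exact Finset.sum_congr rfl fun j _ => ip_off_one_sub _ _
  have e3 : ∑ j ∈ T, INC (Gam F j) (1 - (1 / 24 : ℝ) • NS F S j) =
      ∑ j ∈ T, INC (Gam F j) ((1 / 24 : ℝ) • NS F S j) :=
    Finset.sum_congr rfl fun j _ => INC_one_sub _ _
  rw [e1] at ha
  rw [e2, e3] at hb
  rw [abs_le]
  constructor
  · nlinarith
  · nlinarith

theorem yb {F : (ι → α) → ℝ} (hF : BddF F) {θ : ℝ} (hθ : 0 < θ) (T : Finset ι) (N : ℕ) :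
    ∑ n ∈ range N, Yc θ F T n n ≤ 2660 * Hb (mass F) := by
  have h1 : ∑ S ∈ (range N).powerset, ((1 / 2) * ∑ n ∈ S, ∑ m ∈ S, Yc θ F T n m) ≤
      ∑ S ∈ (range N).powerset, (266 * Hb (mass F)) :=
    Finset.sum_le_sum fun S _ => (abs_le.1 (y_two hF hθ T S)).2
  rw [← Finset.mul_sum, avg_subsets, Finset.sum_const, Finset.card_powerset, Finset.card_range,
    nsmul_eq_mul] at h1
  push_cast at h1
  have h2 := (abs_le.1 (y_two hF hθ T (range N))).1
  have h3 : (0 : ℝ) < 2 ^ N := by positivity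
  have h4 : (1 / 2) * ((1 / 4) * ∑ n ∈ range N, ∑ m ∈ range N, Yc θ F T n m +
      (1 / 4) * ∑ n ∈ range N, Yc θ F T n n) ≤ 266 * Hb (mass F) := by
    have : (2 : ℝ) ^ N * ((1 / 2) * ((1 / 4) * ∑ n ∈ range N, ∑ m ∈ range N, Yc θ F T n m +
      (1 / 4) * ∑ n ∈ range N, Yc θ F T n n)) ≤ 2 ^ N * (266 * Hb (mass F)) := by
      linarith
    exact le_of_mul_le_mul_left this h3
  linarith

end Pool.Agent.BMF
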